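import Pool.Agent.R702.KH.Grad

/-!
# MP_30cf1a: one-sided expansions (R702)
-/

namespace R243KH

open Finset Filter Topology

variable {n : ℕ}

/-- `F(s) = F0 + κ s^q + o(s^q)` as `s → 0+` -/
def Ex (q : ℝ) (F : ℝ → ℝ) (F0 κ : ℝ) : Prop :=
  Tendsto (fun s => (F s - F0) / s ^ q) (𝓝[>] 0) (𝓝 κ)

lemma tendsto_rpow_zero {q : ℝ} (hq : 0 < q) : Tendsto (fun s : ℝ => s ^ q) (𝓝[>] 0) (𝓝 0) := by
  have h := (Real.continuousAt_rpow_const 0 q (Or.inr hq.le)).tendsto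
  rw [Real.zero_rpow hq.ne'] at h
  exact h.mono_left nhdsWithin_le_nhds

lemma ev_pos : ∀ᶠ s : ℝ in 𝓝[>] 0, 0 < s := eventually_mem_nhdsWithin

lemma Ex.const (q c : ℝ) : Ex q (fun _ => c) c 0 := by
  unfold Ex
  simp

lemma Ex.add {q F0 κ G0 κ' : ℝ} {F G : ℝ → ℝ} (hF : Ex q F F0 κ) (hG : Ex q G G0 κ') :
    Ex q (fun s => F s + G s) (F0 + G0) (κ + κ') := by
  unfold Ex at *
  refine (Tendsto.add hF hG).congr fun s => ?_
  rw [← add_div]
  congr 1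
  ring

lemma Ex.const_mul {q F0 κ : ℝ} {F : ℝ → ℝ} (c : ℝ) (hF : Ex q F F0 κ) :
    Ex q (fun s => c * F s) (c * F0) (c * κ) := by
  unfold Ex at *
  refine (Tendsto.const_mul c hF).congr fun s => ?_
  rw [← mul_div_assoc]
  congr 1
  ring

lemma Ex.sub {q F0 κ G0 κ' : ℝ} {F G : ℝ → ℝ} (hF : Ex q F F0 κ) (hG : Ex q G G0 κ') :
    Ex q (fun s => F s - G s) (F0 - G0) (κ - κ') := by
  unfold Ex at *
  refine (Tendsto.sub hF hG).congr fun s => ?_
  rw [← sub_div]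
  congr 1
  ring

lemma Ex.sum {ι : Type*} {q : ℝ} {F : ι → ℝ → ℝ} {F0 κ : ι → ℝ} (t : Finset ι)
    (h : ∀ i ∈ t, Ex q (F i) (F0 i) (κ i)) :
    Ex q (fun s => ∑ i ∈ t, F i s) (∑ i ∈ t, F0 i) (∑ i ∈ t, κ i) := by
  unfold Ex at *
  refine (tendsto_finsetSum t h).congr fun s => ?_
  rw [← Finset.sum_div, Finset.sum_sub_distrib]

lemma Ex.tendsto {q F0 κ : ℝ} {F : ℝ → ℝ} (hF : Ex q F F0 κ) (hq : 0 < q) :
    Tendsto F (𝓝[>] 0) (𝓝 F0) := by
  have h := (Tendsto.mul hF (tendsto_rpow_zero hq)).add_const F0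
  rw [mul_zero, zero_add] at h
  refine h.congr' ?_
  filter_upwards [ev_pos] with s hs
  have : s ^ q ≠ 0 := (Real.rpow_pos_of_pos hs q).ne'
  field_simp
  ring

lemma Ex.mul {q F0 κ G0 κ' : ℝ} {F G : ℝ → ℝ} (hF : Ex q F F0 κ) (hG : Ex q G G0 κ')
    (hq : 0 < q) : Ex q (fun s => F s * G s) (F0 * G0) (κ * G0 + F0 * κ') := by
  have h := (Tendsto.mul hF (hG.tendsto hq)).add (Tendsto.const_mul F0 hG)
  unfold Ex
  refine h.congr fun s => ?_
  ring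

lemma Ex.comp {q F0 κ g' : ℝ} {F g : ℝ → ℝ} (hF : Ex q F F0 κ) (hq : 0 < q)
    (hg : HasDerivAt g g' F0) : Ex q (fun s => g (F s)) (g F0) (g' * κ) := by
  have h1 : Tendsto (fun s => dslope g F0 (F s)) (𝓝[>] 0) (𝓝 g') := by
    have hc : ContinuousAt (dslope g F0) F0 := continuousAt_dslope_same.2 hg.differentiableAt
    have h2 := hc.tendsto
    rw [dslope_same, hg.deriv] at h2
    exact h2.comp (hF.tendsto hq)
  unfold Ex
  refine (Tendsto.mul h1 hF).congr fun s => ?_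
  rw [← sub_smul_dslope g F0 (F s), smul_eq_mul]
  ring

lemma Ex.congr {q F0 κ : ℝ} {F G : ℝ → ℝ} (hF : Ex q F F0 κ)
    (h : ∀ᶠ s in 𝓝[>] (0:ℝ), F s = G s) : Ex q G F0 κ := by
  unfold Ex at *
  refine hF.congr' ?_
  filter_upwards [h] with s hs
  rw [hs]

lemma Ex.of_lip {q F0 C : ℝ} {F : ℝ → ℝ} (hq : q < 1)
    (h : ∀ᶠ s in 𝓝[>] (0:ℝ), |F s - F0| ≤ C * s) : Ex q F F0 0 := by
  unfold Ex
  have h1 : Tendsto (fun s : ℝ => C * s ^ (1 - q)) (𝓝[>] 0) (𝓝 0) := by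
    have := (tendsto_rpow_zero (by linarith : 0 < 1 - q)).const_mul C
    simpa using this
  refine squeeze_zero_norm' ?_ h1
  filter_upwards [h, ev_pos] with s hs hs0
  have hq0 : 0 < s ^ q := Real.rpow_pos_of_pos hs0 q
  rw [Real.norm_eq_abs, abs_div, abs_of_pos hq0, div_le_iff₀ hq0, mul_assoc,
    ← Real.rpow_add hs0, sub_add_cancel, Real.rpow_one]
  exact hs

lemma Ex.of_deriv {q F' : ℝ} {F : ℝ → ℝ} (hq : q < 1) (h : HasDerivAt F F' 0) :
    Ex q F (F 0) 0 := by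
  unfold Ex
  have h1 : Tendsto (fun s : ℝ => dslope F 0 s * s ^ (1 - q)) (𝓝[>] 0) (𝓝 0) := by
    have hc : ContinuousAt (dslope F 0) 0 := continuousAt_dslope_same.2 h.differentiableAt
    have h2 := (hc.tendsto.mono_left nhdsWithin_le_nhds).mul
      (tendsto_rpow_zero (by linarith : 0 < 1 - q))
    simpa using h2
  refine h1.congr' ?_
  filter_upwards [ev_pos] with s hs
  have hq0 : 0 < s ^ q := Real.rpow_pos_of_pos hs q
  have := sub_smul_dslope F 0 s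
  rw [smul_eq_mul, sub_zero] at this
  rw [← this, Real.rpow_sub hs, Real.rpow_one]
  field_simp

lemma Ex.zero_mul_bdd {q C : ℝ} {F G : ℝ → ℝ} (hF : Ex q F 0 0)
    (hG : ∀ᶠ s in 𝓝[>] (0:ℝ), |G s| ≤ C) : Ex q (fun s => F s * G s) 0 0 := by
  unfold Ex at *
  have h1 : Tendsto (fun s => |(F s - 0) / s ^ q| * C) (𝓝[>] 0) (𝓝 0) := by
    have := hF.abs.mul_const C
    simpa using this
  refine squeeze_zero_norm' ?_ h1
  filter_upwards [hG] with s hs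
  rw [Real.norm_eq_abs, sub_zero, sub_zero, mul_div_right_comm, abs_mul]
  exact mul_le_mul_of_nonneg_left hs (abs_nonneg _)

lemma Ex.const_unique {q F0 κ c : ℝ} {F : ℝ → ℝ} (hF : Ex q F F0 κ) (hq : 0 < q)
    (h : ∀ᶠ s in 𝓝[>] (0:ℝ), F s = c) : κ = 0 := by
  have h1 : c = F0 := by
    have h2 : Tendsto F (𝓝[>] 0) (𝓝 c) := by
      refine tendsto_const_nhds.congr' ?_
      filter_upwards [h] with s hs using hs.symm
    exact tendsto_nhds_unique h2 (hF.tendsto hq)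
  refine tendsto_nhds_unique hF ?_
  refine tendsto_const_nhds.congr' ?_
  filter_upwards [h] with s hs
  rw [hs, h1, sub_self, zero_div]

/-! ### Paths `v0 + s v1` -/

/-- admissible path -/
structure Pth (v0 v1 : Fin n → ℝ) : Prop where
  nonneg : ∀ i, 0 ≤ v0 i
  dir : ∀ i, v0 i = 0 → 0 ≤ v1 i
  sum : 0 < ∑ i, v0 i

lemma Pth.ev {v0 v1 : Fin n → ℝ} (h : Pth v0 v1) :
    ∀ᶠ s in 𝓝[>] (0:ℝ), ∀ i, 0 ≤ (v0 + s • v1) i := by
  rw [eventually_all]
  intro i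
  rcases (h.nonneg i).lt_or_eq with hi | hi
  · have hc : Tendsto (fun τ : ℝ => v0 i + τ * v1 i) (𝓝[>] 0) (𝓝 (v0 i)) := by
      have : Continuous (fun τ : ℝ => v0 i + τ * v1 i) := by fun_prop
      simpa using (this.tendsto 0).mono_left (nhdsWithin_le_nhds (s := Set.Ioi (0:ℝ)))
    filter_upwards [hc.eventually (lt_mem_nhds hi)] with s hs
    exact hs.le
  · filter_upwards [ev_pos] with s hs
    simp only [Pi.add_apply, Pi.smul_apply, smul_eq_mul, ← hi, zero_add]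
    exact mul_nonneg hs.le (h.dir i hi.symm)

lemma sum_path (v0 v1 : Fin n → ℝ) (s : ℝ) :
    ∑ j, (v0 + s • v1) j = ∑ j, v0 j + s * ∑ j, v1 j := by
  simp only [Pi.add_apply, Pi.smul_apply, smul_eq_mul, Finset.sum_add_distrib, Finset.mul_sum]

lemma Pth.ev_sum {v0 v1 : Fin n → ℝ} (h : Pth v0 v1) :
    ∀ᶠ s in 𝓝[>] (0:ℝ), 0 < ∑ j, (v0 + s • v1) j := by
  have hc : Tendsto (fun τ : ℝ => ∑ j, v0 j + τ * ∑ j, v1 j) (𝓝[>] 0) (𝓝 (∑ j, v0 j)) := by
    have : Continuous (fun τ : ℝ => ∑ j, v0 j + τ * ∑ j, v1 j) := by fun_prop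
    simpa using (this.tendsto 0).mono_left (nhdsWithin_le_nhds (s := Set.Ioi (0:ℝ)))
  filter_upwards [hc.eventually (lt_mem_nhds h.sum)] with s hs
  rw [sum_path]; exact hs

lemma al_lip {e v w : Fin n → ℝ} {E : ℝ} (hn : 0 < n) (he : ∀ i, 0 < e i) (hE : ∀ i, e i ≤ E)
    (hv : ∀ i, 0 ≤ v i) (hw : ∀ i, 0 ≤ w i) :
    |al e v - al e w| ≤ (1 + E) * ∑ i, |v i - w i| := by
  have key : ∀ v w : Fin n → ℝ, (∀ i, 0 ≤ v i) → (∀ i, 0 ≤ w i) →
      al e v - al e w ≤ (1 + E) * ∑ i, |v i - w i| := by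
    intro v w hv hw
    obtain ⟨τ, hτ, hτw⟩ := al_attain hn he hw
    have h1 := al_le he hv hτ
    rw [hτw]
    have h2 : ∑ i, v i * cc e τ i - ∑ i, w i * cc e τ i ≤ (1 + E) * ∑ i, |v i - w i| := by
      rw [← Finset.sum_sub_distrib, Finset.mul_sum]
      refine Finset.sum_le_sum fun i _ => ?_
      rw [← sub_mul, mul_comm]
      have h3 := cc_nonneg he hτ i
      have h4 := cc_le he hE hτ i
      calc cc e τ i * (v i - w i) ≤ cc e τ i * |v i - w i| :=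
            mul_le_mul_of_nonneg_left (le_abs_self _) h3
        _ ≤ _ := mul_le_mul_of_nonneg_right h4 (abs_nonneg _)
    linarith
  rw [abs_le]
  constructor
  · have := key w v hw hv
    have h2 : ∑ i, |w i - v i| = ∑ i, |v i - w i| :=
      Finset.sum_congr rfl fun i _ => abs_sub_comm _ _
    rw [h2] at this
    linarith
  · exact key v w hv hw

lemma Pth.al_ex {v0 v1 e : Fin n → ℝ} {E q : ℝ} (h : Pth v0 v1) (hn : 0 < n)
    (he : ∀ i, 0 < e i) (hE : ∀ i, e i ≤ E) (hq : q < 1) :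
    Ex q (fun s => al e (v0 + s • v1)) (al e v0) 0 := by
  refine Ex.of_lip (C := (1 + E) * ∑ i, |v1 i|) hq ?_
  filter_upwards [h.ev, ev_pos] with s hs hs0
  refine le_trans (al_lip hn he hE hs h.nonneg) (le_of_eq ?_)
  rw [mul_assoc, Finset.sum_mul]
  congr 1
  refine Finset.sum_congr rfl fun i _ => ?_
  simp only [Pi.add_apply, Pi.smul_apply, smul_eq_mul, add_sub_cancel_left, abs_mul,
    abs_of_pos hs0]
  ring

lemma Pth.theta_ex {v0 v1 : Fin n → ℝ} {q : ℝ} (h : Pth v0 v1) (hq : q < 1) (i : Fin n) :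
    Ex q (fun s => (v0 + s • v1) i / ∑ j, (v0 + s • v1) j) (v0 i / ∑ j, v0 j) 0 := by
  have hg : HasDerivAt (fun τ : ℝ => v0 i + τ * v1 i) (v1 i) 0 := by
    simpa using ((hasDerivAt_id (0:ℝ)).mul_const (v1 i)).const_add (v0 i)
  have hS : HasDerivAt (fun τ : ℝ => ∑ j, v0 j + τ * ∑ j, v1 j) (∑ j, v1 j) 0 := by
    simpa using ((hasDerivAt_id (0:ℝ)).mul_const (∑ j, v1 j)).const_add (∑ j, v0 j)
  have hd := hg.fun_div hS (by simpa using h.sum.ne')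
  have := Ex.of_deriv hq hd
  simp only [zero_mul, add_zero] at this
  refine this.congr (Eventually.of_forall fun s => ?_)
  rw [sum_path]
  rfl

lemma Pth.rest_ex {v0 v1 e : Fin n → ℝ} {q : ℝ} (h : Pth v0 v1) (he : ∀ i, 0 < e i)
    (hq0 : 0 < q) (hq : q < 1) :
    Ex q (fun s => ∑ j, e j * ((v0 + s • v1) j / ∑ k, (v0 + s • v1) k) ^ (1 + e j))
      (∑ j, e j * (v0 j / ∑ k, v0 k) ^ (1 + e j)) 0 := by
  have h1 : ∀ j ∈ (univ : Finset (Fin n)),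
      Ex q (fun s => e j * ((v0 + s • v1) j / ∑ k, (v0 + s • v1) k) ^ (1 + e j))
      (e j * (v0 j / ∑ k, v0 k) ^ (1 + e j)) 0 := by
    intro j _
    have h2 := (h.theta_ex hq j).comp hq0
      (Real.hasDerivAt_rpow_const (p := 1 + e j) (Or.inr (by linarith [he j])))
    rw [mul_zero] at h2
    have := h2.const_mul (e j)
    rw [mul_zero] at this
    exact this
  have := Ex.sum _ h1
  rw [Finset.sum_const_zero] at this
  exact this

lemma Pth.gr_ex {v0 v1 e : Fin n → ℝ} {q κ P0 : ℝ} (h : Pth v0 v1) (he : ∀ i, 0 < e i)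
    (hq0 : 0 < q) (hq : q < 1) (i : Fin n)
    (hp : Ex q (fun s => ((v0 + s • v1) i / ∑ k, (v0 + s • v1) k) ^ (e i)) P0 κ) :
    ∃ G0, Ex q (fun s => gr e (v0 + s • v1) i) G0 (-(1 + e i) * κ) := by
  have h1 := ((Ex.const q 1).sub (hp.const_mul (1 + e i))).add (h.rest_ex he hq0 hq)
  have e1 : 0 - (1 + e i) * κ + 0 = -(1 + e i) * κ := by ring
  rw [e1] at h1
  exact ⟨_, h1⟩

lemma Pth.gr_pos {v0 v1 e : Fin n → ℝ} {q : ℝ} (h : Pth v0 v1) (he : ∀ i, 0 < e i)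
    (hq0 : 0 < q) (hq : q < 1) {i : Fin n} (hi : 0 < v0 i) :
    ∃ G0, Ex q (fun s => gr e (v0 + s • v1) i) G0 0 := by
  have h2 := (h.theta_ex hq i).comp hq0
      (Real.hasDerivAt_rpow_const (p := e i) (Or.inl (div_pos hi h.sum).ne'))
  rw [mul_zero] at h2
  have := h.gr_ex he hq0 hq i h2
  rwa [mul_zero] at this

lemma Pth.gr_zero {v0 v1 e : Fin n → ℝ} {q : ℝ} (h : Pth v0 v1) (he : ∀ i, 0 < e i)
    (hq0 : 0 < q) (hq : q < 1) {i : Fin n} (hi : v0 i = 0) (hqi : q < e i) :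
    ∃ G0, Ex q (fun s => gr e (v0 + s • v1) i) G0 0 := by
  have h2 : Ex q (fun s => ((v0 + s • v1) i / ∑ k, (v0 + s • v1) k) ^ (e i)) 0 0 := by
    unfold Ex
    have h3 : Tendsto (fun s : ℝ => s ^ (e i - q) * ((v1 i / (∑ j, v0 j + s * ∑ j, v1 j)) ^ e i))
        (𝓝[>] 0) (𝓝 (0 * (v1 i / (∑ j, v0 j + 0 * ∑ j, v1 j)) ^ e i)) := by
      refine (tendsto_rpow_zero (by linarith)).mul ?_
      have hc : ContinuousAt (fun s : ℝ => (v1 i / (∑ j, v0 j + s * ∑ j, v1 j)) ^ e i) 0 := by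
        refine ContinuousAt.rpow_const ?_ (Or.inr (he i).le)
        refine ContinuousAt.div continuousAt_const (by fun_prop) ?_
        simpa using h.sum.ne'
      exact hc.tendsto.mono_left nhdsWithin_le_nhds
    rw [zero_mul] at h3
    refine h3.congr' ?_
    filter_upwards [ev_pos, h.ev_sum] with s hs hS
    rw [sum_path] at hS ⊢
    simp only [Pi.add_apply, Pi.smul_apply, smul_eq_mul, hi, zero_add, sub_zero]
    rw [mul_div_assoc, Real.mul_rpow hs.le (div_nonneg (h.dir i hi) hS.le), Real.rpow_sub hs]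
    ring
  have := h.gr_ex he hq0 hq i h2
  rwa [mul_zero] at this

lemma Pth.gr_eq {v0 v1 e : Fin n → ℝ} (h : Pth v0 v1) (he : ∀ i, 0 < e i)
    {i : Fin n} (hq : e i < 1) (hi : v0 i = 0) (h1i : 0 < v1 i) :
    ∃ G0 κ, κ ≠ 0 ∧ Ex (e i) (fun s => gr e (v0 + s • v1) i) G0 κ := by
  have h2 : Ex (e i) (fun s => ((v0 + s • v1) i / ∑ k, (v0 + s • v1) k) ^ (e i)) 0
      ((v1 i / ∑ j, v0 j) ^ e i) := by
    unfold Ex
    have h3 : Tendsto (fun s : ℝ => ((v1 i / (∑ j, v0 j + s * ∑ j, v1 j)) ^ e i))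
        (𝓝[>] 0) (𝓝 ((v1 i / (∑ j, v0 j + 0 * ∑ j, v1 j)) ^ e i)) := by
      have hc : ContinuousAt (fun s : ℝ => (v1 i / (∑ j, v0 j + s * ∑ j, v1 j)) ^ e i) 0 := by
        refine ContinuousAt.rpow_const ?_ (Or.inr (he i).le)
        refine ContinuousAt.div continuousAt_const (by fun_prop) ?_
        simpa using h.sum.ne'
      exact hc.tendsto.mono_left nhdsWithin_le_nhds
    rw [zero_mul, add_zero] at h3
    refine h3.congr' ?_
    filter_upwards [ev_pos, h.ev_sum] with s hs hS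
    rw [sum_path] at hS ⊢
    simp only [Pi.add_apply, Pi.smul_apply, smul_eq_mul, hi, zero_add, sub_zero]
    rw [mul_div_assoc, Real.mul_rpow hs.le (div_nonneg h1i.le hS.le)]
    have : s ^ e i ≠ 0 := (Real.rpow_pos_of_pos hs _).ne'
    field_simp
  obtain ⟨G0, hG⟩ := h.gr_ex he (he i) hq i h2
  refine ⟨G0, _, ?_, hG⟩
  have h4 : 0 < (v1 i / ∑ j, v0 j) ^ e i := Real.rpow_pos_of_pos (div_pos h1i h.sum) _
  have h5 : 0 < 1 + e i := by linarith [he i]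
  have : 0 < (1 + e i) * (v1 i / ∑ j, v0 j) ^ e i := mul_pos h5 h4
  intro h6
  linarith [h6]

lemma Pth.gr_bdd {v0 v1 e : Fin n → ℝ} {E : ℝ} (h : Pth v0 v1) (he : ∀ i, 0 < e i)
    (hE : ∀ i, e i ≤ E) (i : Fin n) :
    ∀ᶠ s in 𝓝[>] (0:ℝ), |gr e (v0 + s • v1) i| ≤ 1 + E := by
  filter_upwards [h.ev, h.ev_sum] with s hs hS
  have h1 := cc_nonneg he (Sx_div hs hS) i
  have h2 := cc_le he hE (Sx_div hs hS) i
  unfold gr
  rw [abs_of_nonneg h1]
  exact h2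

/-- the coefficient `(b/(a+b))^2` -/
lemma coef_ex {a b : ℝ → ℝ} {a0 b0 q : ℝ} (hq : 0 < q) (ha : Ex q a a0 0) (hb : Ex q b b0 0)
    (h : a0 + b0 ≠ 0) :
    Ex q (fun s => (b s / (a s + b s)) ^ 2) ((b0 / (a0 + b0)) ^ 2) 0 := by
  have h1 := (ha.add hb).comp hq (hasDerivAt_inv h)
  have h2 := hb.mul h1 hq
  have h3 := h2.comp hq (hasDerivAt_pow 2 _)
  refine Ex.congr (F := fun s => (b s * (a s + b s)⁻¹) ^ 2) ?_ (Eventually.of_forall fun s => by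
    rw [div_eq_mul_inv])
  rw [div_eq_mul_inv]
  refine Eq.mp ?_ h3
  congr 1
  ring

end R243KH
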