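import Pool.Agent.R702.KH.Cases

/-!
# MP_30cf1a: case C1, `w ≥ 0` (R702)
-/

namespace R243KH

open Finset Filter Topology

variable {n : ℕ}

lemma al_ab_one {e : Fin n → ℝ} (he : ∀ i, 0 < e i) {a b : Fin n} (hab : a ≠ b) {α β : ℝ}
    (hα : 0 ≤ α) (hβ : 0 ≤ β) (h1 : α + β = 1) :
    al e (ab a b α β) = 1 - (α ^ (1 + e a) + β ^ (1 + e b)) := by
  have hs : ∑ j, ab a b α β j = 1 := by
    unfold ab
    simp [Finset.sum_add_distrib, ← Finset.mul_sum, h1]
  rw [al_scale he (ab_nonneg hα hβ hab) (by rw [hs]; exact one_pos), hs, one_mul]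
  congr 1
  have hsub : ∑ i, (ab a b α β i / 1) ^ (1 + e i)
      = ∑ i ∈ ({a, b} : Finset (Fin n)), (ab a b α β i / 1) ^ (1 + e i) := by
    symm
    refine Finset.sum_subset (Finset.subset_univ _) fun i _ hi => ?_
    simp only [Finset.mem_insert, Finset.mem_singleton, not_or] at hi
    rw [ab_ne hi.1 hi.2, zero_div, Real.zero_rpow (by linarith [he i])]
  rw [hsub, Finset.sum_pair hab, ab_a hab, ab_b hab, div_one, div_one]

lemma asym {e : Fin n → ℝ} (he : ∀ i, 0 < e i) {a b : Fin n} (hab : a ≠ b) (hne : e a ≠ e b)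
    (h : ∀ θ : ℝ, 0 < θ → θ < 1 → al e (ab a b (1 - θ) θ) = al e (ab a b θ (1 - θ))) : False := by
  set f : ℝ → ℝ := fun θ => ((1 - θ) ^ (1 + e a) + θ ^ (1 + e b))
    - (θ ^ (1 + e a) + (1 - θ) ^ (1 + e b)) with hf
  have hid : HasDerivAt (fun θ : ℝ => 1 - θ) (-1) 0 := by
    simpa using (hasDerivAt_id (0:ℝ)).const_sub 1
  have hd1 : ∀ p : ℝ, 0 < p → HasDerivAt (fun θ : ℝ => (1 - θ) ^ (1 + p)) (-(1 + p)) 0 := by
    intro p hp
    have := hid.rpow_const (p := 1 + p) (Or.inr (by linarith))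
    simpa using this
  have hd2 : ∀ p : ℝ, 0 < p → HasDerivAt (fun θ : ℝ => θ ^ (1 + p)) 0 0 := by
    intro p hp
    have := Real.hasDerivAt_rpow_const (x := 0) (p := 1 + p) (Or.inr (by linarith))
    rw [add_sub_cancel_left, Real.zero_rpow hp.ne', mul_zero] at this
    exact this
  have hfd : HasDerivAt f (e b - e a) 0 := by
    have := ((hd1 (e a) (he a)).fun_add (hd2 (e b) (he b))).fun_sub
      ((hd2 (e a) (he a)).fun_add (hd1 (e b) (he b)))
    refine this.congr_deriv ?_
    ring
  have h0 : f 0 = 0 := by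
    simp only [hf, sub_zero, Real.one_rpow]
    rw [Real.zero_rpow (by linarith [he b]), Real.zero_rpow (by linarith [he a])]
    ring
  have h1 := hfd.tendsto_slope_zero_right
  have h2 : Tendsto (fun t : ℝ => t⁻¹ • (f (0 + t) - f 0)) (𝓝[>] 0) (𝓝 0) := by
    refine tendsto_const_nhds.congr' ?_
    have hlt : ∀ᶠ t : ℝ in 𝓝[>] 0, t < 1 :=
      nhdsWithin_le_nhds (gt_mem_nhds one_pos)
    filter_upwards [ev_pos, hlt] with t ht ht1
    have h3 := h t ht ht1
    rw [al_ab_one he hab (by linarith) ht.le (by ring), al_ab_one he hab ht.le (by linarith)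
      (by ring)] at h3
    have h4 : f t = 0 := by simp only [hf]; linarith
    rw [zero_add, h4, h0, sub_zero, smul_zero]
  have := tendsto_nhds_unique h1 h2
  exact hne (by linarith)

/-- the log inequality -/
lemma log_ineq {x y : ℝ} {m : ℕ} (hx : 0 < x) (hxy : x < y) (hy : y ≤ 1 / 8) (hm : 2 ≤ m) :
    Real.log (1 + y) - Real.log (1 + x) ≠ (y - x) * Real.log m := by
  intro h
  have hx1 : 0 < 1 + x := by linarith
  have hy1 : 0 < 1 + y := by linarith
  have h1 : Real.log (1 + y) - Real.log (1 + x) ≤ (y - x) / (1 + x) := by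
    rw [← Real.log_div hy1.ne' hx1.ne']
    refine le_trans (Real.log_le_sub_one_of_pos (div_pos hy1 hx1)) (le_of_eq ?_)
    field_simp
    ring
  have h2 : (y - x) / (1 + y) ≤ Real.log (1 + y) - Real.log (1 + x) := by
    have h3 : Real.log (1 + x) - Real.log (1 + y) ≤ (x - y) / (1 + y) := by
      rw [← Real.log_div hx1.ne' hy1.ne']
      refine le_trans (Real.log_le_sub_one_of_pos (div_pos hx1 hy1)) (le_of_eq ?_)
      field_simp
      ring
    have h4 : (y - x) / (1 + y) = - ((x - y) / (1 + y)) := by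
      rw [← neg_div]; congr 1; ring
    linarith
  have hd : 0 < y - x := by linarith
  have h5 : Real.log m < 1 := by
    have h6 : (y - x) / (1 + x) < y - x := by
      rw [div_lt_iff₀ hx1]; nlinarith
    rw [h] at h1
    by_contra h7
    rw [not_lt] at h7
    nlinarith
  have h8 : 8 / 9 ≤ Real.log m := by
    have h6 : (y - x) * (8 / 9) ≤ (y - x) / (1 + y) := by
      rw [le_div_iff₀ hy1]; nlinarith
    rw [h] at h2
    by_contra h7
    rw [not_le] at h7
    nlinarith
  rcases Nat.lt_or_ge m 3 with h9 | h9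
  · have : m = 2 := by omega
    subst this
    have := Real.log_two_lt_d9
    norm_num at h8
    linarith
  · have h10 : (3:ℝ) ≤ m := by exact_mod_cast h9
    have h11 : (1:ℝ) < Real.log 3 := by
      rw [Real.lt_log_iff_exp_lt (by norm_num)]
      have := Real.exp_one_lt_d9
      linarith
    have h12 := Real.log_le_log (by norm_num) h10
    linarith

variable {e : Fin n → ℝ} {l₁ l₂ : ℝ} {Z : Submodule ℝ (Fin n → ℝ)}
  {P : (Fin n → ℝ) →ₗ[ℝ] (Fin n → ℝ)}

/-- `z` is supported where `w ≠ 0` -/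
lemma Cfg.supp {a b : Fin n} {w z : Fin n → ℝ} (c : Cfg Z P a b w) (hz : Wp Z P z) {j : Fin n}
    (hj : z j ≠ 0) : w j ≠ 0 := by
  have hU : InU Z j := by
    by_contra hno
    exact hj (hz.2 j hno)
  rcases c.U j hU with h | h | h
  · exact absurd (h ▸ c.za z hz) hj
  · exact absurd (h ▸ c.zb z hz) hj
  · exact h

lemma zp_neg (w z : Fin n → ℝ) : zp (-w) z = zn w z := by
  funext j
  unfold zp zn
  simp only [Pi.neg_apply]
  by_cases h : w j < 0
  · rw [if_pos h, if_pos (by linarith)]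
  · rw [if_neg h, if_neg (by linarith)]

lemma zn_neg (w z : Fin n → ℝ) : zn (-w) z = zp w z := by
  rw [← zp_neg, neg_neg]

theorem Sit.caseA (h : Sit e l₁ l₂ Z P) {a b : Fin n} {w : Fin n → ℝ} (c : Cfg Z P a b w)
    (hw : ∀ j, 0 ≤ w j) : False := by
  classical
  obtain ⟨E, hE, hE1, hEl⟩ := h.par.ex
  have hzn : ∀ z, zn w z = 0 := by
    intro z; funext j; unfold zn; rw [if_neg (not_lt.2 (hw j))]; rfl
  have hzp : ∀ z, Wp Z P z → zp w z = z := by
    intro z hz; funext j; unfold zp
    by_cases hj : z j = 0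
    · simp [hj]
    · rw [if_pos (lt_of_le_of_ne (hw j) (Ne.symm (c.supp hz hj)))]
  have hsum : ∀ z, Wp Z P z → ∑ i, z i = 0 := by
    intro z hz
    have := h.lim1 c hz
    rw [hzn, hzp z hz] at this
    simpa using this
  obtain ⟨i₀, j₀, hij, hwi, hwj⟩ := c.two
  have hwi' : 0 < w i₀ := lt_of_le_of_ne (hw i₀) (Ne.symm hwi)
  have hwj' : 0 < w j₀ := lt_of_le_of_ne (hw j₀) (Ne.symm hwj)
  have hs : 0 < ∑ i, w i := lt_of_lt_of_le hwi'
    (Finset.single_le_sum (fun k _ => hw k) (Finset.mem_univ i₀))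
  have hWp : ∀ j k, w j ≠ 0 → w k ≠ 0 → Wp Z P (Pi.single j 1 - Pi.single k 1) := by
    intro j k hj hk
    obtain ⟨η, hη⟩ := c.hη j hj
    obtain ⟨η', hη'⟩ := c.hη k hk
    have h1 := hsum _ hη
    have h2 := hsum _ hη'
    simp only [Pi.sub_apply, Pi.smul_apply, smul_eq_mul, Finset.sum_sub_distrib,
      ← Finset.mul_sum] at h1 h2
    rw [Finset.sum_pi_single'] at h1 h2
    simp only [Finset.mem_univ, if_true] at h1 h2
    have h3 : η = η' := by
      have : η * ∑ i, w i = η' * ∑ i, w i := by linarith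
      exact mul_right_cancel₀ hs.ne' this
    have := hη.sub hη'
    rw [h3] at this
    have h4 : (Pi.single j 1 - η' • w - (Pi.single k 1 - η' • w) : Fin n → ℝ)
      = Pi.single j 1 - Pi.single k 1 := by abel
    rwa [h4] at this
  have hppw : pp w = w := pp_of_nonneg hw
  have hnnw : nn w = 0 := nn_of_nonneg hw
  have hB1 : 0 < al e w := al_pos h.par.pos hw hij hwi' hwj'
  have hB2 : 0 < al 1 w := al_pos al1_pos hw hij hwi' hwj'
  -- the equation
  have hE3 : ∀ j k, w j ≠ 0 → w k ≠ 0 → ∀ α β γ : ℝ, 0 < α → 0 < β → 0 < γ →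
      l₁ * ((al e (ab a b α β) / (al e (ab a b α β) + γ * al e w)) ^ 2 * (gr e w j - gr e w k))
      + l₂ * ((al 1 (ab a b α β) / (al 1 (ab a b α β) + γ * al 1 w)) ^ 2
        * (gr 1 w j - gr 1 w k)) = 0 := by
    intro j k hj hk α β γ hα hβ hγ
    have hz := hWp j k hj hk
    have h1 := h.eqAB c.neg hz hα hβ hγ
    rw [c.neg.dh_eq hz e hα hβ hγ, c.neg.dh_eq hz 1 hα hβ hγ] at h1
    simp only [zp_neg, zn_neg, hzn, hzp _ hz, nn_neg, pp_neg, hppw, hnnw, smul_zero, add_zero] at h1
    have h2 : ∀ e' : Fin n → ℝ, ∑ i, (Pi.single j 1 - Pi.single k 1 : Fin n → ℝ) i * gr e' w i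
        = gr e' w j - gr e' w k := by
      intro e'
      simp only [Pi.sub_apply, sub_mul, Finset.sum_sub_distrib]
      congr 1
      · rw [Finset.sum_eq_single j]
        · simp
        · intro i _ hi; simp [hi]
        · intro hi; exact absurd (Finset.mem_univ j) hi
      · rw [Finset.sum_eq_single k]
        · simp
        · intro i _ hi; simp [hi]
        · intro hi; exact absurd (Finset.mem_univ k) hi
    rw [h2, h2] at h1
    have h3 : ∑ i, ((0 : Fin n → ℝ) i - (Pi.single j 1 - Pi.single k 1 : Fin n → ℝ) i) = 0 := by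
      have := hsum _ hz
      simp only [Pi.zero_apply, zero_sub, Finset.sum_neg_distrib, this, neg_zero]
    rw [h3] at h1
    simp only [Pi.zero_apply, zero_mul, Finset.sum_const_zero, mul_zero, zero_sub] at h1
    linarith
  -- D1 = 0
  have hD : ∀ j k, w j ≠ 0 → w k ≠ 0 → gr e w j = gr e w k ∧ gr 1 w j = gr 1 w k := by
    intro j k hj hk
    -- coefficient extraction
    have hco : ∀ α β : ℝ, 0 < α → 0 < β →
        l₁ * (gr e w j - gr e w k) + l₂ * (gr 1 w j - gr 1 w k) = 0 ∧
        (l₁ * (gr e w j - gr e w k)) * (al 1 w / al 1 (ab a b α β))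
        + (l₂ * (gr 1 w j - gr 1 w k)) * (al e w / al e (ab a b α β)) = 0 := by
      intro α β hα hβ
      have hA1 := al_ab_pos h.par.pos c.hab hα hβ
      have hA2 := al_ab_pos al1_pos c.hab hα hβ
      set A1 := al e (ab a b α β)
      set A2 := al 1 (ab a b α β)
      set r1 := al e w / A1 with hr1
      set r2 := al 1 w / A2 with hr2
      have hr1p : 0 < r1 := div_pos hB1 hA1
      have hr2p : 0 < r2 := div_pos hB2 hA2
      set D1 := l₁ * (gr e w j - gr e w k)
      set D2 := l₂ * (gr 1 w j - gr 1 w k)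
      have key : ∀ γ : ℝ, 0 < γ → D1 * (1 + γ * r2) ^ 2 + D2 * (1 + γ * r1) ^ 2 = 0 := by
        intro γ hγ
        have h1 := hE3 j k hj hk α β γ hα hβ hγ
        have e1 : A1 / (A1 + γ * al e w) = 1 / (1 + γ * r1) := by
          rw [hr1]; field_simp
        have e2 : A2 / (A2 + γ * al 1 w) = 1 / (1 + γ * r2) := by
          rw [hr2]; field_simp
        change l₁ * ((A1 / (A1 + γ * al e w)) ^ 2 * (gr e w j - gr e w k))
          + l₂ * ((A2 / (A2 + γ * al 1 w)) ^ 2 * (gr 1 w j - gr 1 w k)) = 0 at h1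
        rw [e1, e2] at h1
        have h3 : 0 < 1 + γ * r1 := by positivity
        have h4 : 0 < 1 + γ * r2 := by positivity
        have h5 : D1 * (1 + γ * r2) ^ 2 + D2 * (1 + γ * r1) ^ 2
          = (l₁ * ((1 / (1 + γ * r1)) ^ 2 * (gr e w j - gr e w k))
          + l₂ * ((1 / (1 + γ * r2)) ^ 2 * (gr 1 w j - gr 1 w k)))
            * ((1 + γ * r1) ^ 2 * (1 + γ * r2) ^ 2) := by
          simp only [D1, D2]
          field_simp
        rw [h5, h1, zero_mul]
      have k1 := key 1 one_pos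
      have k2 := key 2 two_pos
      have k3 := key 3 three_pos
      constructor
      · linear_combination 3 * k1 - 3 * k2 + k3
      · linear_combination (-5/4) * k1 + 2 * k2 - (3/4) * k3
    have hD1 : gr e w j - gr e w k = 0 := by
      by_contra hne
      have hr : ∀ α β : ℝ, 0 < α → 0 < β →
          al e (ab a b α β) = (al e w / al 1 w) * al 1 (ab a b α β) := by
        intro α β hα hβ
        obtain ⟨h1, h2⟩ := hco α β hα hβ
        have hA1 := al_ab_pos h.par.pos c.hab hα hβ
        have hA2 := al_ab_pos al1_pos c.hab hα hβ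
        have h3 : (l₁ * (gr e w j - gr e w k)) * (al 1 w / al 1 (ab a b α β)
            - al e w / al e (ab a b α β)) = 0 := by
          linear_combination h2 - (al e w / al e (ab a b α β)) * h1
        rcases mul_eq_zero.1 h3 with h4 | h4
        · exact absurd h4 (mul_ne_zero h.par.l1.ne' hne)
        · have h5 : al 1 w / al 1 (ab a b α β) = al e w / al e (ab a b α β) := by linarith
          rw [div_eq_div_iff hA2.ne' hA1.ne'] at h5
          field_simp
          linarith
      refine asym h.par.pos c.hab (fun heq => c.hab (h.par.inj heq)) (fun θ h0 h1 => ?_)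
      rw [hr _ _ (by linarith) h0, hr _ _ h0 (by linarith)]
      congr 1
      rw [al_ab_one al1_pos c.hab (by linarith) h0.le (by ring),
        al_ab_one al1_pos c.hab h0.le (by linarith) (by ring)]
      simp only [Pi.one_apply]
      ring
    have h2 := (hco 1 1 one_pos one_pos).1
    rw [hD1, mul_zero, zero_add] at h2
    rcases mul_eq_zero.1 h2 with h4 | h4
    · exact absurd h4 h.par.l2.ne'
    · exact ⟨by linarith, by linarith⟩
  -- all values equal
  have hval : ∀ j, w j ≠ 0 → w j = w i₀ := by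
    intro j hj
    have h2 := (hD j i₀ hj hwi).2
    unfold gr cc at h2
    simp only [Pi.one_apply, Real.rpow_one] at h2
    have h3 : w j / ∑ i, w i = w i₀ / ∑ i, w i := by linarith
    field_simp at h3
    exact h3
  set m := (univ.filter fun j => w j ≠ 0).card with hm
  have hm2 : 2 ≤ m := by
    rw [hm]
    have : ({i₀, j₀} : Finset (Fin n)) ⊆ univ.filter fun j => w j ≠ 0 := by
      intro x hx
      rw [mem_filter]
      rcases Finset.mem_insert.1 hx with h1 | h1
      · exact ⟨mem_univ x, h1 ▸ hwi⟩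
      · exact ⟨mem_univ x, (Finset.mem_singleton.1 h1) ▸ hwj⟩
    have h2 := Finset.card_le_card this
    rwa [Finset.card_pair hij] at h2
  have hsm : ∑ i, w i = m * w i₀ := by
    rw [← Finset.sum_filter_ne_zero, Finset.sum_congr rfl (g := fun _ => w i₀) (fun j hj =>
      hval j (mem_filter.1 hj).2), Finset.sum_const, nsmul_eq_mul]
  have hm0 : (0:ℝ) < m := by
    have : 0 < m := by omega
    exact_mod_cast this
  have hθ : ∀ j, w j ≠ 0 → w j / ∑ i, w i = (m:ℝ)⁻¹ := by
    intro j hj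
    rw [hsm, hval j hj]
    field_simp
  have hpow : (1 + e i₀) * ((m:ℝ)⁻¹) ^ e i₀ = (1 + e j₀) * ((m:ℝ)⁻¹) ^ e j₀ := by
    have h2 := (hD i₀ j₀ hwi hwj).1
    unfold gr cc at h2
    beta_reduce at h2
    rw [hθ i₀ hwi, hθ j₀ hwj] at h2
    linarith
  have hlog : Real.log (1 + e i₀) - e i₀ * Real.log m = Real.log (1 + e j₀) - e j₀ * Real.log m := by
    have h2 := congrArg Real.log hpow
    have hp1 : 0 < 1 + e i₀ := by linarith [h.par.pos i₀]
    have hp2 : 0 < 1 + e j₀ := by linarith [h.par.pos j₀]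
    rw [Real.log_mul hp1.ne' (Real.rpow_pos_of_pos (inv_pos.2 hm0) _).ne',
      Real.log_mul hp2.ne' (Real.rpow_pos_of_pos (inv_pos.2 hm0) _).ne',
      Real.log_rpow (inv_pos.2 hm0), Real.log_rpow (inv_pos.2 hm0), Real.log_inv] at h2
    linarith
  have hne : e i₀ ≠ e j₀ := fun heq => hij (h.par.inj heq)
  rcases lt_or_gt_of_ne hne with h1 | h1
  · exact log_ineq (h.par.pos i₀) h1 (le_trans (hE j₀) hE1) hm2 (by linarith)
  · exact log_ineq (h.par.pos j₀) h1 (le_trans (hE i₀) hE1) hm2 (by linarith)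

end R243KH
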