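import Pool.Agent.R702.KH.CaseA

/-!
# MP_30cf1a: case C2, `w` mixed (R702)
-/

namespace R243KH

open Finset Filter Topology

variable {n : ℕ}

variable {e : Fin n → ℝ} {l₁ l₂ : ℝ} {Z : Submodule ℝ (Fin n → ℝ)}
  {P : (Fin n → ℝ) →ₗ[ℝ] (Fin n → ℝ)}

/-- total gradient -/
noncomputable def GG (e : Fin n → ℝ) (l₁ l₂ : ℝ) (v : Fin n → ℝ) (i : Fin n) : ℝ :=
  l₁ * gr e v i + l₂ * gr 1 v i

/-- the functional -/
noncomputable def LL (e : Fin n → ℝ) (l₁ l₂ : ℝ) (w z : Fin n → ℝ) : ℝ :=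
  ∑ i, (zp w z i + zn w z i * (GG e l₁ l₂ (nn w) i - 1))

lemma Sit.LL_zero (h : Sit e l₁ l₂ Z P) {a b : Fin n} {w z : Fin n → ℝ} (c : Cfg Z P a b w)
    (hz : Wp Z P z) : LL e l₁ l₂ w z = 0 := by
  have h1 := h.lim1 c hz
  have h2 : LL e l₁ l₂ w z = ∑ i, (zp w z i - zn w z i) + (l₁ * ∑ i, zn w z i * gr e (nn w) i
      + l₂ * ∑ i, zn w z i * gr 1 (nn w) i) := by
    unfold LL GG
    rw [Finset.mul_sum, Finset.mul_sum, ← Finset.sum_add_distrib, ← Finset.sum_add_distrib]
    exact Finset.sum_congr rfl fun i _ => by ring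
  rw [h2, h1]
  ring

lemma zp_sub_smul (w z z' : Fin n → ℝ) (η : ℝ) (i : Fin n) :
    zp w (z - η • z') i = zp w z i - η * zp w z' i := by
  unfold zp
  split_ifs <;> simp

lemma zn_sub_smul (w z z' : Fin n → ℝ) (η : ℝ) (i : Fin n) :
    zn w (z - η • z') i = zn w z i - η * zn w z' i := by
  unfold zn
  split_ifs <;> simp

lemma LL_sub (w z z' : Fin n → ℝ) (η : ℝ) :
    LL e l₁ l₂ w (z - η • z') = LL e l₁ l₂ w z - η * LL e l₁ l₂ w z' := by
  unfold LL
  rw [Finset.mul_sum, ← Finset.sum_sub_distrib]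
  refine Finset.sum_congr rfl fun i _ => ?_
  rw [zp_sub_smul, zn_sub_smul]
  ring

lemma LL_single_pos {w : Fin n → ℝ} {j : Fin n} (hj : 0 < w j) :
    LL e l₁ l₂ w (Pi.single j 1) = 1 := by
  unfold LL
  rw [Finset.sum_eq_single j]
  · unfold zp zn
    rw [if_pos hj, if_neg (by linarith)]
    simp
  · intro i _ hi
    unfold zp zn
    simp [hi]
  · intro hi; exact absurd (Finset.mem_univ j) hi

lemma LL_single_neg {w : Fin n → ℝ} {j : Fin n} (hj : w j < 0) :
    LL e l₁ l₂ w (Pi.single j 1) = GG e l₁ l₂ (nn w) j - 1 := by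
  unfold LL
  rw [Finset.sum_eq_single j]
  · unfold zp zn
    rw [if_pos hj, if_neg (by linarith)]
    simp
  · intro i _ hi
    unfold zp zn
    simp [hi]
  · intro hi; exact absurd (Finset.mem_univ j) hi

lemma zp_self (w : Fin n → ℝ) : zp w w = pp w := by
  funext i; unfold zp pp
  split_ifs with h
  · rw [max_eq_left h.le]
  · rw [max_eq_right (not_lt.1 h)]

lemma zn_self (w : Fin n → ℝ) : zn w w = - nn w := by
  rw [← zp_neg]
  have := zp_self (-w)
  rw [pp_neg] at this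
  rw [← this]
  funext i
  simp only [zp, Pi.neg_apply]
  split_ifs <;> simp

lemma euler {e v : Fin n → ℝ} (he : ∀ i, 0 < e i) (hv : ∀ i, 0 ≤ v i) :
    ∑ i, v i * gr e v i = al e v := by
  by_cases hs : 0 < ∑ i, v i
  · exact (al_eq he hv hs).symm
  · rw [al_of_zero (eq_zero_of_sum hv hs)]
    exact Finset.sum_eq_zero fun i _ => by rw [eq_zero_of_sum hv hs i, zero_mul]

lemma euler_GG {v : Fin n → ℝ} (he : ∀ i, 0 < e i) (hv : ∀ i, 0 ≤ v i) :
    ∑ i, v i * GG e l₁ l₂ v i = l₁ * al e v + l₂ * al 1 v := by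
  rw [← euler he hv, ← euler al1_pos hv, Finset.mul_sum, Finset.mul_sum,
    ← Finset.sum_add_distrib]
  unfold GG
  exact Finset.sum_congr rfl fun i _ => by ring

lemma LL_self {w : Fin n → ℝ} (he : ∀ i, 0 < e i) :
    LL e l₁ l₂ w w = ∑ i, pp w i + ∑ i, nn w i - (l₁ * al e (nn w) + l₂ * al 1 (nn w)) := by
  rw [← euler_GG he (nn_nonneg w), ← Finset.sum_add_distrib, ← Finset.sum_sub_distrib]
  unfold LL
  refine Finset.sum_congr rfl fun i _ => ?_
  rw [zp_self, zn_self, Pi.neg_apply]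
  ring

lemma al_lt_sum {e v : Fin n → ℝ} (he : ∀ i, 0 < e i) (hv : ∀ i, 0 ≤ v i) {j : Fin n}
    (hj : 0 < v j) : al e v < ∑ i, v i := by
  have hs : 0 < ∑ i, v i := lt_of_lt_of_le hj
    (Finset.single_le_sum (fun k _ => hv k) (Finset.mem_univ j))
  rw [al_scale he hv hs]
  have : 0 < ∑ i, (v i / ∑ j, v j) ^ (1 + e i) := by
    refine Finset.sum_pos' (fun i _ => Real.rpow_nonneg (div_nonneg (hv i) hs.le) _)
      ⟨j, Finset.mem_univ j, Real.rpow_pos_of_pos (div_pos hj hs) _⟩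
  nlinarith

lemma gr_bounds {e v : Fin n → ℝ} {E : ℝ} (he : ∀ i, 0 < e i) (hE : ∀ i, e i ≤ E)
    (hv : ∀ i, 0 ≤ v i) {j : Fin n} (hj : 0 < v j) (i : Fin n) :
    0 ≤ gr e v i ∧ gr e v i ≤ 1 + E := by
  have hs : 0 < ∑ i, v i := lt_of_lt_of_le hj
    (Finset.single_le_sum (fun k _ => hv k) (Finset.mem_univ j))
  exact ⟨cc_nonneg he (Sx_div hv hs) i, cc_le he hE (Sx_div hv hs) i⟩

/-- the last contradiction -/
lemma Sit.last (h : Sit e l₁ l₂ Z P) {a b : Fin n} {w : Fin n → ℝ} (c : Cfg Z P a b w)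
    {p d : Fin n} (hp : 0 < w p) (hd : w d < 0) (hpu : ∀ j, j ≠ p → pp w j = 0)
    (hdu : ∀ j, j ≠ d → nn w j = 0) (hz : Wp Z P (Pi.single p 1 + Pi.single d 1)) : False := by
  obtain ⟨E, hE, hE1, hEl⟩ := h.par.ex
  have hpd : p ≠ d := fun h => by rw [h] at hp; linarith
  have hpa : p ≠ a := fun h => by rw [h, c.wa] at hp; exact lt_irrefl _ hp
  have hpb : p ≠ b := fun h => by rw [h, c.wb] at hp; exact lt_irrefl _ hp
  have hda : d ≠ a := fun h => by rw [h, c.wa] at hd; exact lt_irrefl _ hd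
  have hdb : d ≠ b := fun h => by rw [h, c.wb] at hd; exact lt_irrefl _ hd
  set z : Fin n → ℝ := Pi.single p 1 + Pi.single d 1 with hzd
  set W := nn w d with hW
  have hW0 : 0 < W := by
    rw [hW, show nn w d = - w d from max_eq_left (by linarith)]; linarith
  have hppw : 0 < pp w p := by
    rw [show pp w p = w p from max_eq_left hp.le]; exact hp
  -- constants
  set X : Fin n → ℝ := ab a b 1 0 + pp w with hX
  set Y : ℝ → Fin n → ℝ := fun β => ab a b 0 β + nn w with hY
  have hXa : X a = 1 := by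
    rw [hX, Pi.add_apply, ab_a c.hab]; simp [pp, c.wa]
  have hXp : 0 < X p := by
    rw [hX, Pi.add_apply, ab_ne hpa hpb, zero_add]; exact hppw
  have hXn : ∀ j, 0 ≤ X j := fun j =>
    add_nonneg (ab_nonneg zero_le_one le_rfl c.hab j) (pp_nonneg w j)
  have hA1 : 0 < al e X := al_pos h.par.pos hXn hpa.symm (by rw [hXa]; exact one_pos) hXp
  have hA2 : 0 < al 1 X := al_pos al1_pos hXn hpa.symm (by rw [hXa]; exact one_pos) hXp
  have hYn : ∀ β, 0 < β → ∀ j, 0 ≤ Y β j := fun β hβ j =>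
    add_nonneg (ab_nonneg le_rfl hβ.le c.hab j) (nn_nonneg w j)
  have hYd : ∀ β, Y β d = W := by
    intro β
    simp only [hY, Pi.add_apply]
    rw [ab_ne hda hdb, zero_add]
  have hYb : ∀ β, Y β b = β := by
    intro β
    simp only [hY, Pi.add_apply]
    rw [ab_b c.hab, hdu b hdb.symm, add_zero]
  have hYo : ∀ β j, j ≠ d → j ≠ b → Y β j = 0 := by
    intro β j h1 h2
    simp only [hY, Pi.add_apply]
    rw [hdu j h1, add_zero]
    by_cases h3 : j = a
    · subst h3; rw [ab_a c.hab]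
    · exact ab_ne h3 h2 _ _
  have hYs : ∀ β, ∑ j, Y β j = β + W := by
    intro β
    rw [← Finset.sum_subset (Finset.subset_univ ({b, d} : Finset (Fin n))) (fun i _ hi => by
      simp only [Finset.mem_insert, Finset.mem_singleton, not_or] at hi
      exact hYo β i hi.2 hi.1), Finset.sum_pair hdb.symm, hYb, hYd]
  -- equation
  have heq : ∀ β : ℝ, 0 < β →
      l₁ * ((al e (Y β) / (al e X + al e (Y β))) ^ 2 * gr e X p
        - (al e X / (al e X + al e (Y β))) ^ 2 * gr e (Y β) d)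
      + l₂ * ((al 1 (Y β) / (al 1 X + al 1 (Y β))) ^ 2 * gr 1 X p
        - (al 1 X / (al 1 X + al 1 (Y β))) ^ 2 * gr 1 (Y β) d) = 0 := by
    intro β hβ
    set x : Fin n → ℝ := ab a b 1 (-β) + (1:ℝ) • w with hx
    have hdj := c.disj 1 (-β) (v := (1:ℝ) • w) (fun j hj => by simp [hj])
    have hppx : pp x = X := by
      rw [hx, pp_add_disj hdj, one_smul, hX]
      congr 1
      funext j
      by_cases h1 : j = a
      · subst h1; simp [pp, ab_a c.hab]
      · by_cases h2 : j = b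
        · subst h2; simp [pp, ab_b c.hab, hβ.le]
        · simp [pp, ab_ne h1 h2]
    have hnnx : nn x = Y β := by
      rw [hx, nn_add_disj hdj, one_smul, hY]
      dsimp only
      congr 1
      funext j
      by_cases h1 : j = a
      · subst h1; simp [nn, ab_a c.hab]
      · by_cases h2 : j = b
        · subst h2; simp [nn, ab_b c.hab, hβ.le]
        · simp [nn, ab_ne h1 h2]
    have hB1 := al_nonneg h.par.pos (hYn β hβ)
    have hB2 := al_nonneg al1_pos (hYn β hβ)
    have h1 := h.eqE (c.memab 1 (-β) 1) (c.full one_ne_zero (by linarith [hβ]) one_ne_zero) hz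
      (by rw [← hx, hppx, hnnx]; linarith) (by rw [← hx, hppx, hnnx]; linarith)
    rw [(c.zf hz 1 (-β) one_pos).1, (c.zf hz 1 (-β) one_pos).2] at h1
    have hzp : zp w z = Pi.single p 1 := by
      funext j
      unfold zp
      by_cases h2 : j = p
      · subst h2; rw [if_pos hp]; simp [hzd, hpd]
      · by_cases h3 : j = d
        · subst h3; rw [if_neg (by linarith)]; simp [h2]
        · simp [hzd, h2, h3]
    have hzn : zn w z = Pi.single d 1 := by
      funext j
      unfold zn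
      by_cases h2 : j = d
      · subst h2; rw [if_pos hd]; simp [hzd, hpd.symm]
      · by_cases h3 : j = p
        · subst h3; rw [if_neg (by linarith)]; simp [h2]
        · simp [hzd, h2, h3]
    have hsing : ∀ (q : Fin n) (g : Fin n → ℝ), ∑ i, (Pi.single q 1 : Fin n → ℝ) i * g i = g q := by
      intro q g
      rw [Finset.sum_eq_single q]
      · simp
      · intro i _ hi; simp [hi]
      · intro hi; exact absurd (Finset.mem_univ q) hi
    have hdh : ∀ e' : Fin n → ℝ, dh e' x z = (al e' (Y β) / (al e' X + al e' (Y β))) ^ 2 * gr e' X p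
        - (al e' X / (al e' X + al e' (Y β))) ^ 2 * gr e' (Y β) d := by
      intro e'
      unfold dh
      rw [hppx, hnnx, hx, (c.zf hz 1 (-β) one_pos).1, (c.zf hz 1 (-β) one_pos).2, hzp, hzn,
        hsing, hsing]
    rw [← hx, hdh, hdh, hzp, hzn] at h1
    rw [← h1, Finset.sum_sub_distrib]
    simp
  -- inequality
  have hineq : ∀ β : ℝ, 0 < β → β ≤ 1 →
      (l₁ * (al e X / (al e X + 2)) ^ 2 * (e b * (1 / (1 + W)) ^ (1 + e b)))
        ≤ (l₁ * 2 * (2 / al e X) ^ 2 + l₂ * 2 * (2 / al 1 X) ^ 2) * β ^ (1 - e b) := by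
    intro β hβ hβ1
    have hB1 := al_nonneg h.par.pos (hYn β hβ)
    have hB2 := al_nonneg al1_pos (hYn β hβ)
    have hal : ∀ e' : Fin n → ℝ, (∀ i, 0 < e' i) → (∀ i, e' i ≤ 1) → al e' (Y β) ≤ 2 * β := by
      intro e' he' he1
      refine le_trans (al_le_erase he' (hYn β hβ) d) ?_
      have h2 : ∑ i ∈ univ.erase d, Y β i = β := by
        have := Finset.sum_erase_add univ (Y β) (Finset.mem_univ d)
        rw [hYs, hYd] at this
        linarith
      rw [h2]
      have := he1 d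
      nlinarith
    have hb1 := hal e h.par.pos (fun i => by linarith [hE i])
    have hb2 := hal 1 al1_pos (fun i => by simp)
    obtain ⟨g1, g1'⟩ := gr_bounds h.par.pos hE hXn hXp p
    obtain ⟨g2, g2'⟩ := gr_bounds al1_pos (E := 1) (fun i => by simp) hXn hXp p
    have hYdp : 0 < Y β d := by rw [hYd]; exact hW0
    obtain ⟨g3, -⟩ := gr_bounds al1_pos (E := 1) (fun i => by simp) (hYn β hβ) hYdp d
    have hYsp : 0 < ∑ j, Y β j := by rw [hYs]; linarith
    have hgd : e b * (β / (β + W)) ^ (1 + e b) ≤ gr e (Y β) d := by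
      have h2 := cc_nonneg' h.par.pos (Sx_div (hYn β hβ) hYsp) d
      refine le_trans ?_ h2
      have h3 := Finset.single_le_sum
        (f := fun j => e j * (Y β j / ∑ k, Y β k) ^ (1 + e j)) (s := univ.erase d)
        (fun j _ => mul_nonneg (h.par.pos j).le
          (Real.rpow_nonneg (div_nonneg (hYn β hβ j) hYsp.le) _))
        (Finset.mem_erase.2 ⟨hdb.symm, Finset.mem_univ b⟩)
      rw [hYb, hYs] at h3
      refine le_trans h3 (le_of_eq ?_)
      rw [hYs]
    have h1 := heq β hβ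
    -- bounds for the coefficients
    have k1 : (al e (Y β) / (al e X + al e (Y β))) ^ 2 ≤ (2 / al e X) ^ 2 * β ^ 2 := by
      rw [← mul_pow]
      refine pow_le_pow_left₀ (by positivity) ?_ 2
      rw [div_mul_eq_mul_div, div_le_div_iff₀ (by linarith) hA1]
      nlinarith [mul_nonneg hB1 hβ.le]
    have k2 : (al 1 (Y β) / (al 1 X + al 1 (Y β))) ^ 2 ≤ (2 / al 1 X) ^ 2 * β ^ 2 := by
      rw [← mul_pow]
      refine pow_le_pow_left₀ (by positivity) ?_ 2
      rw [div_mul_eq_mul_div, div_le_div_iff₀ (by linarith) hA2]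
      nlinarith [mul_nonneg hB2 hβ.le]
    have k3 : (al e X / (al e X + 2)) ^ 2 ≤ (al e X / (al e X + al e (Y β))) ^ 2 := by
      refine pow_le_pow_left₀ (by positivity) ?_ 2
      refine div_le_div_of_nonneg_left hA1.le (by linarith) (by linarith)
    have k4 : 0 ≤ (al 1 X / (al 1 X + al 1 (Y β))) ^ 2 * gr 1 (Y β) d :=
      mul_nonneg (sq_nonneg _) g3
    have k5 : e b * (1 / (1 + W)) ^ (1 + e b) * β ^ (1 + e b) ≤ gr e (Y β) d := by
      refine le_trans ?_ hgd
      rw [mul_assoc, ← Real.mul_rpow (by positivity) hβ.le]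
      refine mul_le_mul_of_nonneg_left ?_ (h.par.pos b).le
      refine Real.rpow_le_rpow (by positivity) ?_ (by linarith [h.par.pos b])
      rw [div_mul_eq_mul_div, one_mul]
      refine div_le_div_of_nonneg_left hβ.le (by linarith) (by linarith)
    have k6 : (al e (Y β) / (al e X + al e (Y β))) ^ 2 * gr e X p ≤ ((2 / al e X) ^ 2 * β ^ 2) * 2 :=
      mul_le_mul k1 (by linarith) g1 (by positivity)
    have k7 : (al 1 (Y β) / (al 1 X + al 1 (Y β))) ^ 2 * gr 1 X p ≤ ((2 / al 1 X) ^ 2 * β ^ 2) * 2 :=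
      mul_le_mul k2 (by linarith) g2 (by positivity)
    have k8 : (al e X / (al e X + 2)) ^ 2 * (e b * (1 / (1 + W)) ^ (1 + e b) * β ^ (1 + e b))
        ≤ (al e X / (al e X + al e (Y β))) ^ 2 * gr e (Y β) d :=
      mul_le_mul k3 k5 (by have := h.par.pos b; positivity) (sq_nonneg _)
    have k9 := mul_le_mul_of_nonneg_left k6 h.par.l1.le
    have k10 := mul_le_mul_of_nonneg_left k7 h.par.l2.le
    have k11 := mul_le_mul_of_nonneg_left k8 h.par.l1.le
    have k12 := mul_nonneg h.par.l2.le k4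
    have k13 : l₁ * ((al e X / (al e X + 2)) ^ 2 * (e b * (1 / (1 + W)) ^ (1 + e b) * β ^ (1 + e b)))
        ≤ (l₁ * 2 * (2 / al e X) ^ 2 + l₂ * 2 * (2 / al 1 X) ^ 2) * β ^ 2 := by
      nlinarith
    have k14 : β ^ 2 = β ^ (1 - e b) * β ^ (1 + e b) := by
      rw [← Real.rpow_add hβ, ← Real.rpow_natCast]
      congr 1
      push_cast
      ring
    have hpw : 0 < β ^ (1 + e b) := Real.rpow_pos_of_pos hβ _
    rw [k14] at k13
    refine le_of_mul_le_mul_right ?_ hpw
    calc _ = l₁ * ((al e X / (al e X + 2)) ^ 2 * (e b * (1 / (1 + W)) ^ (1 + e b)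
          * β ^ (1 + e b))) := by ring
      _ ≤ _ := k13
      _ = _ := by ring
  have hC1 : 0 < (l₁ * (al e X / (al e X + 2)) ^ 2 * (e b * (1 / (1 + W)) ^ (1 + e b))) := by
    have := h.par.pos b
    have := h.par.l1
    positivity
  have hlim : Tendsto (fun β : ℝ => (l₁ * 2 * (2 / al e X) ^ 2 + l₂ * 2 * (2 / al 1 X) ^ 2)
      * β ^ (1 - e b)) (𝓝[>] 0) (𝓝 0) := by
    have := (tendsto_rpow_zero (by linarith [hE b] : 0 < 1 - e b)).const_mul
      (l₁ * 2 * (2 / al e X) ^ 2 + l₂ * 2 * (2 / al 1 X) ^ 2)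
    simpa using this
  have hle : ∀ᶠ β : ℝ in 𝓝[>] 0, β < 1 := nhdsWithin_le_nhds (gt_mem_nhds one_pos)
  have hcon : (l₁ * (al e X / (al e X + 2)) ^ 2 * (e b * (1 / (1 + W)) ^ (1 + e b))) ≤ 0 := by
    refine ge_of_tendsto hlim ?_
    filter_upwards [ev_pos, hle] with β h1 h2
    exact hineq β h1 h2.le
  linarith

theorem Sit.caseB (h : Sit e l₁ l₂ Z P) {a b : Fin n} {w : Fin n → ℝ} (c : Cfg Z P a b w)
    {p d : Fin n} (hp : 0 < w p) (hd : w d < 0) : False := by
  set L1 := LL e l₁ l₂ w w with hL1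
  set L2 := LL e l₁ l₂ (-w) (-w) with hL2
  have hneg : ∀ j, 0 < w j → (-w) j < 0 := fun j hj => by simpa using hj
  have hpos : ∀ j, w j < 0 → 0 < (-w) j := fun j hj => by simpa using hj
  -- for positive coordinates
  have hP : ∀ j, 0 < w j → ∃ η, Wp Z P (Pi.single j 1 - η • w) ∧ 1 = η * L1 ∧
      GG e l₁ l₂ (pp w) j - 1 = - (η * L2) := by
    intro j hj
    obtain ⟨η, hη⟩ := c.hη j hj.ne'
    have h1 := h.LL_zero c hη
    rw [LL_sub, LL_single_pos hj] at h1
    have h2 := h.LL_zero c.neg hη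
    have h3 : (Pi.single j 1 - η • w : Fin n → ℝ) = Pi.single j 1 - (-η) • (-w) := by simp
    rw [h3, LL_sub, LL_single_neg (hneg j hj), nn_neg] at h2
    exact ⟨η, hη, by linarith, by linarith⟩
  have hN : ∀ j, w j < 0 → ∃ η, Wp Z P (Pi.single j 1 - η • w) ∧ 1 = - (η * L2) ∧
      GG e l₁ l₂ (nn w) j - 1 = η * L1 := by
    intro j hj
    obtain ⟨η, hη⟩ := c.hη j hj.ne
    have h1 := h.LL_zero c hη
    rw [LL_sub, LL_single_neg hj] at h1
    have h2 := h.LL_zero c.neg hη
    have h3 : (Pi.single j 1 - η • w : Fin n → ℝ) = Pi.single j 1 - (-η) • (-w) := by simp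
    rw [h3, LL_sub, LL_single_pos (hpos j hj)] at h2
    exact ⟨η, hη, by linarith, by linarith⟩
  obtain ⟨ηp, hηp, hp1, hp2⟩ := hP p hp
  obtain ⟨ηd, hηd, hd1, hd2⟩ := hN d hd
  have hL1n : L1 ≠ 0 := fun h => by rw [h, mul_zero] at hp1; exact one_ne_zero hp1
  have hL2n : L2 ≠ 0 := fun h => by rw [h, mul_zero, neg_zero] at hd1; exact one_ne_zero hd1
  set μ := - (L2 / L1) with hμ
  have hGp : ∀ j, 0 < w j → GG e l₁ l₂ (pp w) j = 1 + μ := by
    intro j hj
    obtain ⟨η, -, h1, h2⟩ := hP j hj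
    have : η = 1 / L1 := by field_simp; linarith
    rw [this] at h2
    rw [hμ]
    have h3 : 1 / L1 * L2 = L2 / L1 := by ring
    rw [h3] at h2
    linarith
  have hGn : ∀ j, w j < 0 → GG e l₁ l₂ (nn w) j = 1 + 1 / μ := by
    intro j hj
    obtain ⟨η, -, h1, h2⟩ := hN j hj
    have : η = - (1 / L2) := by field_simp; linarith
    rw [this] at h2
    have h3 : 1 / μ = - (1 / L2) * L1 := by
      rw [hμ]; field_simp
    rw [h3]
    linarith
  have hS : ∀ w : Fin n → ℝ, ∀ p, 0 < w p → ∀ μ, (∀ j, 0 < w j → GG e l₁ l₂ (pp w) j = 1 + μ) →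
      0 < ∑ i, pp w i ∧ (1 + μ) * ∑ i, pp w i = l₁ * al e (pp w) + l₂ * al 1 (pp w) ∧
      -1 ≤ μ ∧ μ < 1 := by
    intro w p hp μ hG
    have hpp : 0 < pp w p := by rw [show pp w p = w p from max_eq_left hp.le]; exact hp
    have hs : 0 < ∑ i, pp w i := lt_of_lt_of_le hpp
      (Finset.single_le_sum (fun k _ => pp_nonneg w k) (Finset.mem_univ p))
    have h1 : (1 + μ) * ∑ i, pp w i = l₁ * al e (pp w) + l₂ * al 1 (pp w) := by
      rw [← euler_GG h.par.pos (pp_nonneg w), Finset.mul_sum]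
      refine Finset.sum_congr rfl fun i _ => ?_
      by_cases hi : 0 < w i
      · rw [hG i hi]; ring
      · have : pp w i = 0 := max_eq_right (not_lt.1 hi)
        rw [this]; ring
    have h2 := mul_nonneg h.par.l1.le (al_nonneg h.par.pos (pp_nonneg w))
    have h3 := mul_nonneg h.par.l2.le (al_nonneg al1_pos (pp_nonneg w))
    have h4 := mul_lt_mul_of_pos_left (al_lt_sum h.par.pos (pp_nonneg w) hpp) h.par.l1
    have h5 := mul_lt_mul_of_pos_left (al_lt_sum al1_pos (pp_nonneg w) hpp) h.par.l2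
    have h6 := mul_le_mul_of_nonneg_right h.par.sum hs.le
    refine ⟨hs, h1, ?_, ?_⟩
    · by_contra hlt
      rw [not_le] at hlt
      nlinarith
    · by_contra hlt
      rw [not_lt] at hlt
      nlinarith
  obtain ⟨sp, e1, m1, m2⟩ := hS w p hp μ hGp
  obtain ⟨sn, e2, m3, m4⟩ := hS (-w) d (hpos d hd) (1 / μ) (by
    intro j hj
    rw [pp_neg]
    exact hGn j (by simpa using hj))
  have hμ1 : μ = -1 := by
    have hμ0 : μ ≠ 0 := by
      rw [hμ, neg_ne_zero]
      exact div_ne_zero hL2n hL1n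
    rcases lt_or_gt_of_ne hμ0 with hneg | hpos
    · apply le_antisymm _ m1
      rw [le_div_iff_of_neg hneg] at m3
      linarith
    · rw [div_lt_iff₀ hpos] at m4
      linarith
  rw [hμ1] at e1 e2
  have hz1 : al e (pp w) = 0 := by
    have h2 := mul_nonneg h.par.l1.le (al_nonneg h.par.pos (pp_nonneg w))
    have h3 := mul_nonneg h.par.l2.le (al_nonneg al1_pos (pp_nonneg w))
    have h4 : l₁ * al e (pp w) = 0 := by
      have : (1 + (-1:ℝ)) * ∑ i, pp w i = 0 := by ring
      linarith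
    rcases mul_eq_zero.1 h4 with h5 | h5
    · exact absurd h5 h.par.l1.ne'
    · exact h5
  have hz2 : al e (nn w) = 0 := by
    have h2 := mul_nonneg h.par.l1.le (al_nonneg h.par.pos (pp_nonneg (-w)))
    have h3 := mul_nonneg h.par.l2.le (al_nonneg al1_pos (pp_nonneg (-w)))
    have h4 : l₁ * al e (pp (-w)) = 0 := by
      have : (1 + 1 / (-1:ℝ)) * ∑ i, pp (-w) i = 0 := by norm_num
      linarith
    rcases mul_eq_zero.1 h4 with h5 | h5
    · exact absurd h5 h.par.l1.ne'
    · exact h5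
  have hpu : ∀ j, j ≠ p → pp w j = 0 := by
    intro j hj
    by_contra hne
    have h1 : 0 < pp w j := lt_of_le_of_ne (pp_nonneg w j) (Ne.symm hne)
    have hpp : 0 < pp w p := by rw [show pp w p = w p from max_eq_left hp.le]; exact hp
    have := al_pos h.par.pos (pp_nonneg w) hj h1 hpp
    linarith
  have hdu : ∀ j, j ≠ d → nn w j = 0 := by
    intro j hj
    by_contra hne
    have h1 : 0 < nn w j := lt_of_le_of_ne (nn_nonneg w j) (Ne.symm hne)
    have hpp : 0 < nn w d := by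
      rw [show nn w d = - w d from max_eq_left (by linarith)]; linarith
    have := al_pos h.par.pos (nn_nonneg w) hj h1 hpp
    linarith
  refine h.last c hp hd hpu hdu ?_
  have hη : ηp + ηd = 0 := by
    have h1 : L2 = L1 := by
      have : L2 / L1 = 1 := by linarith [hμ, hμ1]
      field_simp at this
      exact this
    rw [h1] at hd1
    have h2 : (ηp + ηd) * L1 = 0 := by linarith
    rcases mul_eq_zero.1 h2 with h3 | h3
    · exact h3
    · exact absurd h3 hL1n
  have := hηp.add hηd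
  have h4 : (Pi.single p 1 - ηp • w + (Pi.single d 1 - ηd • w) : Fin n → ℝ)
      = Pi.single p 1 + Pi.single d 1 := by
    have : ηd = - ηp := by linarith
    rw [this, neg_smul]; abel
  rwa [h4] at this

end R243KH
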