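import Pool.Agent.R702.KH.Lin

/-!
# MP_30cf1a: the situation, first limit equations (R702)
-/

namespace R243KH

open Finset Filter Topology

variable {n : ℕ}

lemma pp_add_disj {u v : Fin n → ℝ} (h : ∀ j, u j = 0 ∨ v j = 0) : pp (u + v) = pp u + pp v := by
  funext j
  simp only [pp, Pi.add_apply]
  rcases h j with h1 | h1 <;> simp [h1]

lemma nn_add_disj {u v : Fin n → ℝ} (h : ∀ j, u j = 0 ∨ v j = 0) : nn (u + v) = nn u + nn v := by
  funext j
  simp only [nn, Pi.add_apply]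
  rcases h j with h1 | h1 <;> simp [h1]

lemma pp_of_nonneg {u : Fin n → ℝ} (h : ∀ j, 0 ≤ u j) : pp u = u := by
  funext j; exact max_eq_left (h j)

lemma nn_of_nonneg {u : Fin n → ℝ} (h : ∀ j, 0 ≤ u j) : nn u = 0 := by
  funext j; exact max_eq_right (by linarith [h j])

lemma gr_smul {e v : Fin n → ℝ} {c : ℝ} (hc : 0 < c) : gr e (c • v) = gr e v := by
  funext i
  unfold gr
  congr 1
  funext j
  simp only [Pi.smul_apply, smul_eq_mul, ← Finset.mul_sum]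
  rw [mul_div_mul_left _ _ hc.ne']

/-- essential coordinates -/
def InU (Z : Submodule ℝ (Fin n → ℝ)) (j : Fin n) : Prop := ∃ x ∈ Z, x j ≠ 0

/-- a contractive projection -/
structure Sit (e : Fin n → ℝ) (l₁ l₂ : ℝ) (Z : Submodule ℝ (Fin n → ℝ))
    (P : (Fin n → ℝ) →ₗ[ℝ] (Fin n → ℝ)) : Prop where
  par : Par e l₁ l₂
  proj : IsProj P Z
  con : ∀ x, NN e l₁ l₂ (P x) ≤ NN e l₁ l₂ x
  three : 3 ≤ Module.finrank ℝ Z

/-- kernel vectors on essential coordinates -/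
def Wp (Z : Submodule ℝ (Fin n → ℝ)) (P : (Fin n → ℝ) →ₗ[ℝ] (Fin n → ℝ)) (z : Fin n → ℝ) : Prop :=
  P z = 0 ∧ ∀ j, ¬ InU Z j → z j = 0

variable {e : Fin n → ℝ} {l₁ l₂ : ℝ} {Z : Submodule ℝ (Fin n → ℝ)}
  {P : (Fin n → ℝ) →ₗ[ℝ] (Fin n → ℝ)}

lemma Sit.bj (h : Sit e l₁ l₂ Z P) {x z : Fin n → ℝ} (hx : x ∈ Z) (hz : P z = 0) (τ : ℝ) :
    NN e l₁ l₂ x ≤ NN e l₁ l₂ (x + τ • z) := by
  have := h.con (x + τ • z)
  rwa [map_add, map_smul, hz, smul_zero, add_zero, h.proj.2 x hx] at this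

lemma Wp.add {z z' : Fin n → ℝ} (h : Wp Z P z) (h' : Wp Z P z') : Wp Z P (z + z') := by
  refine ⟨by rw [map_add, h.1, h'.1, add_zero], fun j hj => ?_⟩
  rw [Pi.add_apply, h.2 j hj, h'.2 j hj, add_zero]

lemma Wp.sub {z z' : Fin n → ℝ} (h : Wp Z P z) (h' : Wp Z P z') : Wp Z P (z - z') := by
  refine ⟨by rw [map_sub, h.1, h'.1, sub_zero], fun j hj => ?_⟩
  rw [Pi.sub_apply, h.2 j hj, h'.2 j hj, sub_zero]

lemma Sit.lemL' (h : Sit e l₁ l₂ Z P) {z x : Fin n → ℝ} (hz : Wp Z P z) (hx : x ∈ Z)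
    {a b c i : Fin n} (hab : a ≠ b) (hcb : c ≠ b) (ha : 0 < x a) (hc : x c < 0) (hb : x b ≠ 0)
    (hi : x i = 0) (hiU : InU Z i) : z i = 0 := by
  classical
  by_contra hzi
  obtain ⟨y, hy, hyU⟩ := exists_full Z (univ.filter fun j => InU Z j) (by
    intro l hl
    exact (mem_filter.1 hl).2)
  have hyU' : ∀ j, InU Z j → y j ≠ 0 := fun j hj => hyU j (mem_filter.2 ⟨mem_univ j, hj⟩)
  have hzU : ∀ j, z j ≠ 0 → InU Z j := fun j hj => by
    by_contra hno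
    exact hj (hz.2 j hno)
  have main : ∀ y ∈ Z, (∀ j, InU Z j → y j ≠ 0) → y i < 0 → False := by
    intro y hy hyU hyi
    have hbj : ∀ x ∈ Z, ∀ s : ℝ, 0 < s → ∀ τ : ℝ,
        NN e l₁ l₂ (x + s • y) ≤ NN e l₁ l₂ (x + s • y + τ • z) :=
      fun x hx s _ τ => h.bj (Z.add_mem hx (Z.smul_mem s hy)) hz.1 τ
    rcases lt_or_gt_of_ne hb with hb0 | hb0
    · refine lemL h.par (x := -x) (y := y) (z := z) (hbj (-x) (Z.neg_mem hx))
        (fun j hj => hyU j (hzU j hj)) hcb (a := c) (b := b) (c := a) (i := i) ?_ ?_ ?_ ?_ hyi hzi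
      · simpa using hc
      · simpa using hb0
      · simpa using ha
      · simpa using hi
    · exact lemL h.par (x := x) (y := y) (z := z) (hbj x hx)
        (fun j hj => hyU j (hzU j hj)) hab ha hb0 hc hi hyi hzi
  rcases lt_or_gt_of_ne (hyU' i hiU) with h1 | h1
  · exact main y hy hyU' h1
  · exact main (-y) (Z.neg_mem hy) (fun j hj => by simpa using hyU' j hj) (by simpa using h1)

lemma Sit.eqE (h : Sit e l₁ l₂ Z P) {x z : Fin n → ℝ} (hx : x ∈ Z)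
    (hxU : ∀ j, InU Z j → x j ≠ 0) (hz : Wp Z P z)
    (h1 : al e (pp x) + al e (nn x) ≠ 0) (h2 : al 1 (pp x) + al 1 (nn x) ≠ 0) :
    ∑ i, (zp x z i - zn x z i) = l₁ * dh e x z + l₂ * dh 1 x z := by
  refine bj_eq h.par.pos (fun i hi => ?_) h1 h2 (h.bj hx hz.1)
  by_contra hne
  refine hxU i ?_ hi
  by_contra hno
  exact hne (hz.2 i hno)

/-- the configuration of case (3.4) -/
structure Cfg (Z : Submodule ℝ (Fin n → ℝ)) (P : (Fin n → ℝ) →ₗ[ℝ] (Fin n → ℝ))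
    (a b : Fin n) (w : Fin n → ℝ) : Prop where
  hab : a ≠ b
  ea : Pi.single a 1 ∈ Z
  eb : Pi.single b 1 ∈ Z
  mem : w ∈ Z
  wa : w a = 0
  wb : w b = 0
  U : ∀ j, InU Z j → j = a ∨ j = b ∨ w j ≠ 0
  za : ∀ z, Wp Z P z → z a = 0
  zb : ∀ z, Wp Z P z → z b = 0
  two : ∃ i j, i ≠ j ∧ w i ≠ 0 ∧ w j ≠ 0
  hη : ∀ j, w j ≠ 0 → ∃ η : ℝ, Wp Z P (Pi.single j 1 - η • w)

lemma Cfg.neg {a b : Fin n} {w : Fin n → ℝ} (c : Cfg Z P a b w) : Cfg Z P a b (-w) := by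
  refine ⟨c.hab, c.ea, c.eb, Z.neg_mem c.mem, by simp [c.wa], by simp [c.wb], fun j hj => ?_,
    c.za, c.zb, ?_, fun j hj => ?_⟩
  · rcases c.U j hj with h | h | h
    · exact Or.inl h
    · exact Or.inr (Or.inl h)
    · exact Or.inr (Or.inr (by simpa using h))
  · obtain ⟨i, j, h1, h2, h3⟩ := c.two
    exact ⟨i, j, h1, by simpa using h2, by simpa using h3⟩
  · obtain ⟨η, hη⟩ := c.hη j (by simpa using hj)
    exact ⟨-η, by simpa using hη⟩

/-- `α e_a + β e_b` -/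
def ab (a b : Fin n) (α β : ℝ) : Fin n → ℝ := α • Pi.single a 1 + β • Pi.single b 1

lemma ab_a {a b : Fin n} (h : a ≠ b) (α β : ℝ) : ab a b α β a = α := by
  simp [ab, h]

lemma ab_b {a b : Fin n} (h : a ≠ b) (α β : ℝ) : ab a b α β b = β := by
  simp [ab, h.symm]

lemma ab_ne {a b j : Fin n} (ha : j ≠ a) (hb : j ≠ b) (α β : ℝ) : ab a b α β j = 0 := by
  simp [ab, ha, hb]

lemma Cfg.ne {a b : Fin n} {w : Fin n → ℝ} (c : Cfg Z P a b w) {j : Fin n} (hj : w j ≠ 0) :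
    j ≠ a ∧ j ≠ b := ⟨fun h => hj (h ▸ c.wa), fun h => hj (h ▸ c.wb)⟩

lemma Cfg.disj {a b : Fin n} {w : Fin n → ℝ} (c : Cfg Z P a b w) (α β : ℝ) {v : Fin n → ℝ}
    (hv : ∀ j, w j = 0 → v j = 0) : ∀ j, ab a b α β j = 0 ∨ v j = 0 := by
  intro j
  by_cases hj : w j = 0
  · exact Or.inr (hv j hj)
  · exact Or.inl (ab_ne (c.ne hj).1 (c.ne hj).2 α β)

lemma ab_nonneg {a b : Fin n} {α β : ℝ} (hα : 0 ≤ α) (hβ : 0 ≤ β) (hab : a ≠ b) (j : Fin n) :
    0 ≤ ab a b α β j := by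
  by_cases h1 : j = a
  · subst h1; rw [ab_a hab]; exact hα
  · by_cases h2 : j = b
    · subst h2; rw [ab_b hab]; exact hβ
    · rw [ab_ne h1 h2]

lemma Cfg.memab {a b : Fin n} {w : Fin n → ℝ} (c : Cfg Z P a b w) (α β γ : ℝ) :
    ab a b α β + γ • w ∈ Z :=
  Z.add_mem (Z.add_mem (Z.smul_mem _ c.ea) (Z.smul_mem _ c.eb)) (Z.smul_mem _ c.mem)

lemma Cfg.full {a b : Fin n} {w : Fin n → ℝ} (c : Cfg Z P a b w) {α β γ : ℝ} (hα : α ≠ 0)
    (hβ : β ≠ 0) (hγ : γ ≠ 0) (j : Fin n) (hj : InU Z j) : (ab a b α β + γ • w) j ≠ 0 := by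
  simp only [Pi.add_apply, Pi.smul_apply, smul_eq_mul]
  rcases c.U j hj with h | h | h
  · subst h; rw [ab_a c.hab, c.wa]; simpa using hα
  · subst h; rw [ab_b c.hab, c.wb]; simpa using hβ
  · rw [ab_ne (c.ne h).1 (c.ne h).2, zero_add]
    exact mul_ne_zero hγ h

lemma Cfg.ppf {a b : Fin n} {w : Fin n → ℝ} (c : Cfg Z P a b w) {α β γ : ℝ} (hα : 0 ≤ α)
    (hβ : 0 ≤ β) (hγ : 0 < γ) :
    pp (ab a b α β + γ • w) = ab a b α β + γ • pp w ∧ nn (ab a b α β + γ • w) = γ • nn w := by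
  have hd := c.disj α β (v := γ • w) (fun j hj => by simp [hj])
  rw [pp_add_disj hd, nn_add_disj hd, pp_of_nonneg (ab_nonneg hα hβ c.hab),
    nn_of_nonneg (ab_nonneg hα hβ c.hab), pp_smul hγ, nn_smul hγ, zero_add]
  exact ⟨rfl, rfl⟩

lemma Cfg.zf {a b : Fin n} {w z : Fin n → ℝ} (c : Cfg Z P a b w) (hz : Wp Z P z) (α β : ℝ) {γ : ℝ}
    (hγ : 0 < γ) :
    zp (ab a b α β + γ • w) z = zp w z ∧ zn (ab a b α β + γ • w) z = zn w z := by
  have key : ∀ j, z j ≠ 0 → (ab a b α β + γ • w) j = γ * w j := by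
    intro j hj
    have h1 : j ≠ a := fun h => hj (h ▸ c.za z hz)
    have h2 : j ≠ b := fun h => hj (h ▸ c.zb z hz)
    simp only [Pi.add_apply, Pi.smul_apply, smul_eq_mul]
    rw [ab_ne h1 h2, zero_add]
  constructor
  · funext j
    unfold zp
    by_cases hj : z j = 0
    · simp [hj]
    · rw [key j hj]
      by_cases h1 : 0 < w j
      · rw [if_pos h1, if_pos (mul_pos hγ h1)]
      · rw [if_neg h1, if_neg]
        intro h2
        exact h1 ((mul_pos_iff_of_pos_left hγ).1 h2)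
  · funext j
    unfold zn
    by_cases hj : z j = 0
    · simp [hj]
    · rw [key j hj]
      by_cases h1 : w j < 0
      · rw [if_pos h1, if_pos (mul_neg_of_pos_of_neg hγ h1)]
      · rw [if_neg h1, if_neg]
        intro h2
        have h3 : 0 ≤ γ * w j := mul_nonneg hγ.le (not_lt.1 h1)
        linarith

lemma al_ab_pos {e : Fin n → ℝ} (he : ∀ i, 0 < e i) {a b : Fin n} (hab : a ≠ b) {α β : ℝ}
    (hα : 0 < α) (hβ : 0 < β) : 0 < al e (ab a b α β) :=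
  al_pos he (ab_nonneg hα.le hβ.le hab) hab (by rw [ab_a hab]; exact hα)
    (by rw [ab_b hab]; exact hβ)

lemma al_ab_pos' {e : Fin n → ℝ} (he : ∀ i, 0 < e i) {a b : Fin n} (hab : a ≠ b) {α β : ℝ}
    (hα : 0 < α) (hβ : 0 < β) {v : Fin n → ℝ} (hv : ∀ j, 0 ≤ v j) :
    0 < al e (ab a b α β + v) := by
  have h1 := ab_nonneg (n := n) hα.le hβ.le hab
  refine al_pos he (fun j => add_nonneg (h1 j) (hv j)) hab ?_ ?_
  · rw [Pi.add_apply, ab_a hab]; linarith [hv a]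
  · rw [Pi.add_apply, ab_b hab]; linarith [hv b]

/-- the equation (E) at `α e_a + β e_b + γ w` -/
lemma Sit.eqAB (h : Sit e l₁ l₂ Z P) {a b : Fin n} {w z : Fin n → ℝ} (c : Cfg Z P a b w)
    (hz : Wp Z P z) {α β γ : ℝ} (hα : 0 < α) (hβ : 0 < β) (hγ : 0 < γ) :
    ∑ i, (zp w z i - zn w z i) = l₁ * dh e (ab a b α β + γ • w) z
      + l₂ * dh 1 (ab a b α β + γ • w) z := by
  have h1 := c.ppf hα.le hβ.le hγ
  have hp : ∀ j, 0 ≤ (γ • pp w) j := fun j => mul_nonneg hγ.le (pp_nonneg w j)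
  have := h.eqE (c.memab α β γ) (c.full hα.ne' hβ.ne' hγ.ne') hz
    (by
      have h2 := al_ab_pos' h.par.pos c.hab hα hβ hp
      have h3 := al_nonneg h.par.pos (nn_nonneg (ab a b α β + γ • w))
      rw [h1.1]; linarith)
    (by
      have h2 := al_ab_pos' al1_pos c.hab hα hβ hp
      have h3 := al_nonneg al1_pos (nn_nonneg (ab a b α β + γ • w))
      rw [h1.1]; linarith)
  rw [(c.zf hz α β hγ).1, (c.zf hz α β hγ).2] at this
  exact this

lemma Cfg.dh_eq {a b : Fin n} {w z : Fin n → ℝ} (c : Cfg Z P a b w) (hz : Wp Z P z)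
    (e : Fin n → ℝ) {α β γ : ℝ} (hα : 0 < α) (hβ : 0 < β) (hγ : 0 < γ) :
    dh e (ab a b α β + γ • w) z =
    (γ * al e (nn w) / (al e (ab a b α β + γ • pp w) + γ * al e (nn w))) ^ 2
      * (∑ i, zp w z i * gr e (ab a b α β + γ • pp w) i)
    - (al e (ab a b α β + γ • pp w) / (al e (ab a b α β + γ • pp w) + γ * al e (nn w))) ^ 2
      * (∑ i, zn w z i * gr e (nn w) i) := by
  unfold dh
  rw [(c.zf hz α β hγ).1, (c.zf hz α β hγ).2, (c.ppf hα.le hβ.le hγ).1, (c.ppf hα.le hβ.le hγ).2,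
    al_smul hγ, gr_smul hγ]

/-- the limit of `dh` as `γ → 0+` -/
lemma Cfg.dh_lim {a b : Fin n} {w z : Fin n → ℝ} (c : Cfg Z P a b w) (hz : Wp Z P z)
    {e : Fin n → ℝ} (he : ∀ i, 0 < e i) {E : ℝ} (hE : ∀ i, e i ≤ E) (hn : 0 < n) :
    Tendsto (fun γ : ℝ => dh e (ab a b 1 1 + γ • w) z) (𝓝[>] 0)
      (𝓝 (- ∑ i, zn w z i * gr e (nn w) i)) := by
  have hP : Pth (ab a b 1 1) (pp w) := by
    refine ⟨ab_nonneg zero_le_one zero_le_one c.hab, fun i _ => pp_nonneg w i, ?_⟩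
    refine lt_of_lt_of_le ?_ (Finset.single_le_sum
      (fun k _ => ab_nonneg zero_le_one zero_le_one c.hab k) (Finset.mem_univ a))
    rw [ab_a c.hab]; exact one_pos
  have ha := hP.al_ex (q := 1/2) hn he hE (by norm_num)
  have hb : Ex (1/2) (fun γ => γ * al e (nn w)) 0 0 := by
    have : HasDerivAt (fun γ : ℝ => γ * al e (nn w)) (al e (nn w)) 0 := by
      simpa using (hasDerivAt_id (0:ℝ)).mul_const (al e (nn w))
    have := Ex.of_deriv (q := 1/2) (by norm_num) this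
    simpa using this
  have hA0 : 0 < al e (ab a b 1 1) := al_ab_pos he c.hab one_pos one_pos
  have h1 := coef_ex (q := 1/2) (by norm_num) ha hb (by linarith)
  have h2 := coef_ex (q := 1/2) (by norm_num) hb ha (by linarith)
  rw [zero_div, zero_pow two_ne_zero] at h1
  rw [zero_add, div_self hA0.ne', one_pow] at h2
  have h3 : Ex (1/2) (fun γ : ℝ => ∑ i, ((γ * al e (nn w) / (al e (ab a b 1 1 + γ • pp w)
      + γ * al e (nn w))) ^ 2 * gr e (ab a b 1 1 + γ • pp w) i) * zp w z i) 0 0 := by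
    have h4 : ∀ i ∈ (univ : Finset (Fin n)), Ex (1/2) (fun γ : ℝ =>
      ((γ * al e (nn w) / (al e (ab a b 1 1 + γ • pp w)
      + γ * al e (nn w))) ^ 2 * gr e (ab a b 1 1 + γ • pp w) i) * zp w z i) 0 0 := by
      intro i _
      have := (h1.zero_mul_bdd (hP.gr_bdd he hE i)).const_mul (zp w z i)
      rw [mul_zero] at this
      exact this.congr (Eventually.of_forall fun s => by ring)
    have := Ex.sum univ h4
    rwa [Finset.sum_const_zero] at this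
  have h5 := (h3.tendsto (by norm_num)).sub
    ((h2.tendsto (by norm_num)).mul_const (∑ i, zn w z i * gr e (nn w) i))
  rw [zero_sub, one_mul] at h5
  refine h5.congr' ?_
  filter_upwards [ev_pos] with γ hγ
  rw [c.dh_eq hz e one_pos one_pos hγ]
  congr 1
  · rw [Finset.mul_sum]
    exact Finset.sum_congr rfl fun i _ => by ring
  · rw [add_comm (γ * al e (nn w))]

/-- equation (1)/(2) -/
lemma Sit.lim1 (h : Sit e l₁ l₂ Z P) {a b : Fin n} {w z : Fin n → ℝ} (c : Cfg Z P a b w)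
    (hz : Wp Z P z) :
    ∑ i, (zp w z i - zn w z i) = - (l₁ * ∑ i, zn w z i * gr e (nn w) i
      + l₂ * ∑ i, zn w z i * gr 1 (nn w) i) := by
  have hn : 0 < n := by have := h.par.two; omega
  obtain ⟨E, hE, hE1, hEl⟩ := h.par.ex
  have h1 := (c.dh_lim hz h.par.pos hE hn).const_mul l₁
  have h2 := (c.dh_lim hz al1_pos (E := 1) (fun i => by simp) hn).const_mul l₂
  have h3 := h1.add h2
  have h4 : Tendsto (fun γ : ℝ => l₁ * dh e (ab a b 1 1 + γ • w) z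
      + l₂ * dh 1 (ab a b 1 1 + γ • w) z) (𝓝[>] 0) (𝓝 (∑ i, (zp w z i - zn w z i))) := by
    refine tendsto_const_nhds.congr' ?_
    filter_upwards [ev_pos] with γ hγ
    exact h.eqAB c hz one_pos one_pos hγ
  rw [tendsto_nhds_unique h4 h3]
  ring

end R243KH
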