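import Pool.Agent.R702.KH.Norm

/-!
# MP_30cf1a: the extremal hyperplane, and the compactness argument (R702)
-/

namespace R243KH

open Finset Filter Topology

variable {n : ℕ}

/-- the functional `t(x) = ∑ x_i` -/
def tt (n : ℕ) : (Fin n → ℝ) →ₗ[ℝ] ℝ := ∑ i, LinearMap.proj i

lemma tt_apply (x : Fin n → ℝ) : tt n x = ∑ i, x i := by
  simp [tt]

/-- the norm lies between two polyhedral norms -/
structure Btw (N : (Fin n → ℝ) → ℝ) : Prop where
  norm : IsNorm N
  t : ∀ x, |∑ i, x i| ≤ N x
  two : ∀ x j, 2 * x j - ∑ i, x i ≤ N x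
  abs : ∀ x j, |x j| ≤ N x
  le : ∀ x, N x ≤ ∑ i, |x i|

lemma Btw.nonneg {N : (Fin n → ℝ) → ℝ} (h : Btw N) (x : Fin n → ℝ) : 0 ≤ N x :=
  le_trans (abs_nonneg _) (h.t x)

lemma Btw.zero {N : (Fin n → ℝ) → ℝ} (h : Btw N) : N 0 = 0 := by
  have := h.norm.2.2 0 0
  simpa using this

lemma Btw.neg {N : (Fin n → ℝ) → ℝ} (h : Btw N) (x : Fin n → ℝ) : N (-x) = N x := by
  have := h.norm.2.2 (-1) x
  simpa using this

lemma Btw.single {N : (Fin n → ℝ) → ℝ} (h : Btw N) (i : Fin n) : N (Pi.single i 1) = 1 := by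
  apply le_antisymm
  · refine le_trans (h.le _) (le_of_eq ?_)
    rw [Finset.sum_eq_single i]
    · simp
    · intro j _ hj; simp [hj]
    · intro hi; exact absurd (Finset.mem_univ i) hi
  · refine le_trans (le_of_eq ?_) (h.t _)
    simp

theorem Btw.relProj_eq {N : (Fin n → ℝ) → ℝ} (h : Btw N) (hn : 2 ≤ n) :
    relProj N (LinearMap.ker (tt n)) = 2 - 2 / (n:ℝ) := by
  have hn0 : (0:ℝ) < n := by
    have : 0 < n := by omega
    exact_mod_cast this
  have hn2 : (2:ℝ) ≤ n := by exact_mod_cast hn
  apply IsLeast.csInf_eq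
  constructor
  · -- upper bound
    refine ⟨LinearMap.id - (tt n).smulRight (fun _ => 1 / (n:ℝ)), ⟨?_, ?_⟩, ?_⟩
    · intro x
      rw [LinearMap.mem_ker]
      simp only [LinearMap.sub_apply, LinearMap.id_apply, LinearMap.smulRight_apply, map_sub,
        map_smul]
      have : tt n (fun _ => 1 / (n:ℝ)) = 1 := by
        rw [tt_apply]
        simp
        field_simp
      rw [this, smul_eq_mul, mul_one, sub_self]
    · intro y hy
      rw [LinearMap.mem_ker] at hy
      simp [hy]
    · -- norm estimate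
      have main : ∀ x : Fin n → ℝ, 0 ≤ ∑ i, x i →
          N (x - (∑ i, x i) • (fun _ => 1 / (n:ℝ))) ≤ (2 - 2 / (n:ℝ)) * N x := by
        intro x ht
        set t := ∑ i, x i with htd
        have htM : t ≤ N x := le_trans (le_abs_self _) (h.t x)
        by_cases hM : N x = 0
        · have hx := h.norm.1 x hM
          have : t = 0 := le_antisymm (by rw [hM] at htM; exact htM) ht
          rw [this, zero_smul, sub_zero, hM, mul_zero]
        have hM0 : 0 < N x := lt_of_le_of_ne (h.nonneg x) (Ne.symm hM)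
        set M := N x with hMd
        set δ := 2 * t / (n * (M + t)) with hδ
        have hMt : 0 < M + t := by linarith
        have hδ0 : 0 ≤ δ := by positivity
        have hδ1 : δ ≤ 1 := by
          rw [hδ, div_le_one (by positivity)]
          nlinarith
        have e1 : x - t • (fun _ => 1 / (n:ℝ)) = (1 - δ) • x + (δ • x - t • fun _ => 1 / (n:ℝ)) := by
          rw [sub_smul, one_smul]; abel
        rw [e1]
        refine le_trans (h.norm.2.1 _ _) ?_
        rw [h.norm.2.2, abs_of_nonneg (by linarith : 0 ≤ 1 - δ)]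
        have h2 : N (δ • x - t • fun _ => 1 / (n:ℝ)) ≤ t - δ * t := by
          refine le_trans (h.le _) (le_of_eq ?_)
          have : ∀ i, |(δ • x - t • (fun _ => 1 / (n:ℝ)) : Fin n → ℝ) i| = t * (1 / n) - δ * x i := by
            intro i
            have h3 := h.two x i
            have h4 : δ * x i ≤ t * (1 / n) := by
              rw [hδ, div_mul_eq_mul_div, div_le_iff₀ (by positivity)]
              have : t * (1 / n) * (n * (M + t)) = t * (M + t) := by field_simp
              rw [this]
              nlinarith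
            simp only [Pi.sub_apply, Pi.smul_apply, smul_eq_mul]
            rw [abs_of_nonpos (by linarith)]
            ring
          rw [Finset.sum_congr rfl fun i _ => this i, Finset.sum_sub_distrib, ← Finset.mul_sum,
            ← Finset.mul_sum, ← htd]
          simp
          field_simp
        have e3 : δ * (M + t) = 2 * t / n := by
          rw [hδ]; field_simp
        have e4 : (2 - 2 / (n:ℝ)) * M - ((1 - δ) * M + (t - δ * t)) = (M - t) * (1 - 2 / n) := by
          have : (1 - δ) * M + (t - δ * t) = M + t - δ * (M + t) := by ring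
          rw [this, e3]
          field_simp
          ring
        have e5 : 0 ≤ (M - t) * (1 - 2 / (n:ℝ)) := by
          apply mul_nonneg (by linarith)
          rw [sub_nonneg, div_le_one hn0]
          exact hn2
        linarith
      intro x
      simp only [LinearMap.sub_apply, LinearMap.id_apply, LinearMap.smulRight_apply, tt_apply]
      rcases le_total 0 (∑ i, x i) with ht | ht
      · exact main x ht
      · have := main (-x) (by simpa using ht)
        rw [h.neg] at this
        refine le_trans (le_of_eq ?_) this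
        rw [← h.neg]
        congr 1
        simp only [Pi.neg_apply, Finset.sum_neg_distrib, neg_smul]
        abel
  · -- lower bound
    rintro C ⟨P, hP, hC⟩
    have hi0 : 0 < n := by omega
    set i0 : Fin n := ⟨0, hi0⟩
    set z : Fin n → ℝ := Pi.single i0 1 - P (Pi.single i0 1) with hz
    have hzi : ∀ i, P (Pi.single i 1) = Pi.single i 1 - z := by
      intro i
      have hmem : (Pi.single i 1 - Pi.single i0 1 : Fin n → ℝ) ∈ LinearMap.ker (tt n) := by
        rw [LinearMap.mem_ker, tt_apply]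
        simp
      have := hP.2 _ hmem
      rw [map_sub] at this
      rw [hz]
      have h2 := congrArg (fun w => w + P (Pi.single i0 1)) this
      simp only [sub_add_cancel] at h2
      rw [h2]
      abel
    have htz : ∑ i, z i = 1 := by
      have h1 := hP.1 (Pi.single i0 1)
      rw [LinearMap.mem_ker, tt_apply] at h1
      rw [hz]
      simp only [Pi.sub_apply, Finset.sum_sub_distrib]
      rw [h1]
      simp
    have h1 : ∀ i, 2 - 2 * z i ≤ C := by
      intro i
      have h2 := h.two (P (Pi.single i 1)) i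
      have h3 := hC (Pi.single i 1)
      rw [h.single, mul_one] at h3
      have h4 : ∑ j, (P (Pi.single i 1)) j = 0 := by
        have := hP.1 (Pi.single i 1)
        rwa [LinearMap.mem_ker, tt_apply] at this
      rw [h4, sub_zero] at h2
      have h5 : (P (Pi.single i 1)) i = 1 - z i := by
        rw [hzi]; simp
      rw [h5] at h2
      linarith
    have h2 := Finset.sum_le_sum fun i (_ : i ∈ (Finset.univ : Finset (Fin n))) => h1 i
    rw [Finset.sum_sub_distrib, ← Finset.mul_sum, htz] at h2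
    simp at h2
    have : 2 - 2 / (n:ℝ) = (n * 2 - 2) / n := by field_simp
    rw [this, div_le_iff₀ hn0]
    linarith

lemma finrank_ker_tt (hn : 1 ≤ n) : Module.finrank ℝ (LinearMap.ker (tt n)) = n - 1 := by
  have h1 := LinearMap.finrank_range_add_finrank_ker (tt n)
  have h2 : LinearMap.range (tt n) = ⊤ := by
    rw [LinearMap.range_eq_top]
    intro c
    refine ⟨Pi.single ⟨0, hn⟩ c, ?_⟩
    rw [tt_apply]
    simp
  rw [h2] at h1
  simp at h1
  omega

lemma Btw.tendsto {N : (Fin n → ℝ) → ℝ} (h : Btw N) {u : ℕ → Fin n → ℝ} {u0 : Fin n → ℝ}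
    (hu : Tendsto u atTop (𝓝 u0)) : Tendsto (fun k => N (u k)) atTop (𝓝 (N u0)) := by
  have h0 : Tendsto (fun k => ∑ i, |u k i - u0 i|) atTop (𝓝 0) := by
    have : (0:ℝ) = ∑ i : Fin n, |u0 i - u0 i| := by simp
    rw [this]
    refine tendsto_finsetSum _ fun i _ => ?_
    exact ((tendsto_pi_nhds.1 hu i).sub_const _).abs
  rw [tendsto_iff_dist_tendsto_zero]
  refine squeeze_zero (fun k => dist_nonneg) (fun k => ?_) h0
  rw [Real.dist_eq, abs_le]
  have h1 := h.norm.2.1 (u k - u0) u0
  have h2 := h.norm.2.1 (u0 - u k) (u k)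
  have h3 := h.le (u k - u0)
  have h4 : N (u0 - u k) = N (u k - u0) := by rw [← h.neg]; congr 1; abel
  rw [sub_add_cancel] at h1 h2
  simp only [Pi.sub_apply] at h3
  constructor <;> linarith

lemma lin_eq_sum (P : (Fin n → ℝ) →ₗ[ℝ] (Fin n → ℝ)) (x : Fin n → ℝ) :
    P x = ∑ i, x i • P (Pi.single i 1) := by
  conv_lhs => rw [pi_eq_sum_univ' x]
  rw [map_sum]
  refine Finset.sum_congr rfl fun i _ => ?_
  rw [map_smul]

theorem Btw.one_lt {N : (Fin n → ℝ) → ℝ} (h : Btw N) {Z : Submodule ℝ (Fin n → ℝ)}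
    (hno : ¬ ∃ P, IsProj P Z ∧ ∀ x, N (P x) ≤ N x) : 1 < relProj N Z := by
  by_contra hle
  apply hno
  rw [not_lt] at hle
  set S : Set ℝ := {C : ℝ | ∃ P, IsProj P Z ∧ ∀ x, N (P x) ≤ C * N x} with hS
  have hne : S.Nonempty := by
    obtain ⟨f, hf⟩ := LinearMap.exists_leftInverse_of_injective Z.subtype
      (LinearMap.ker_eq_bot.2 Subtype.val_injective)
    set P : (Fin n → ℝ) →ₗ[ℝ] (Fin n → ℝ) := Z.subtype ∘ₗ f with hPd
    refine ⟨∑ j, ∑ i, |P (Pi.single i 1) j|, P, ⟨fun x => (f x).2, fun y hy => ?_⟩, fun x => ?_⟩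
    · have := LinearMap.congr_fun hf ⟨y, hy⟩
      simp only [LinearMap.comp_apply, LinearMap.id_apply] at this
      have h2 := congrArg Subtype.val this
      exact h2
    · refine le_trans (h.le _) ?_
      rw [Finset.sum_mul]
      refine Finset.sum_le_sum fun j _ => ?_
      rw [lin_eq_sum P x, Finset.sum_apply, Finset.sum_mul]
      refine le_trans (Finset.abs_sum_le_sum_abs _ _) ?_
      refine Finset.sum_le_sum fun i _ => ?_
      simp only [Pi.smul_apply, smul_eq_mul, abs_mul]
      rw [mul_comm]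
      exact mul_le_mul_of_nonneg_left (h.abs x i) (abs_nonneg _)
  have hk : ∀ k : ℕ, ∃ P, IsProj P Z ∧ ∀ x, N (P x) ≤ (1 + 1 / ((k:ℝ) + 1)) * N x := by
    intro k
    have hlt : sInf S < 1 + 1 / ((k:ℝ) + 1) := by
      have : (0:ℝ) < 1 / ((k:ℝ) + 1) := by positivity
      have h2 : sInf S ≤ 1 := hle
      linarith
    obtain ⟨C, ⟨P, hP, hC⟩, hlt⟩ := exists_lt_of_csInf_lt hne hlt
    exact ⟨P, hP, fun x => le_trans (hC x) (mul_le_mul_of_nonneg_right hlt.le (h.nonneg x))⟩
  choose P hP hPN using hk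
  have hcomp : IsCompact (Set.pi Set.univ fun _ : Fin n => Set.pi Set.univ fun _ : Fin n =>
      Set.Icc (-2:ℝ) 2) := isCompact_univ_pi fun _ => isCompact_univ_pi fun _ => isCompact_Icc
  obtain ⟨a, -, φ, hφ, ha⟩ := hcomp.tendsto_subseq (x := fun k => fun i => P k (Pi.single i 1)) (by
    intro k i _ j _
    have h1 := h.abs (P k (Pi.single i 1)) j
    have h2 := hPN k (Pi.single i 1)
    rw [h.single, mul_one] at h2
    have h3 : 1 / ((k:ℝ) + 1) ≤ 1 := by
      rw [div_le_one (by positivity)]
      have : (0:ℝ) ≤ k := Nat.cast_nonneg k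
      linarith
    exact abs_le.1 (by linarith))
  set Q : (Fin n → ℝ) →ₗ[ℝ] (Fin n → ℝ) := ∑ i, (LinearMap.proj i : (Fin n → ℝ) →ₗ[ℝ] ℝ).smulRight (a i)
    with hQ
  have hQa : ∀ x, Q x = ∑ i, x i • a i := by
    intro x
    simp [hQ]
  have hlim : ∀ x, Tendsto (fun k => P (φ k) x) atTop (𝓝 (Q x)) := by
    intro x
    rw [hQa]
    have : (fun k => P (φ k) x) = fun k => ∑ i, x i • P (φ k) (Pi.single i 1) := by
      funext k; exact lin_eq_sum _ _
    rw [this]
    refine tendsto_finsetSum _ fun i _ => ?_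
    exact (tendsto_pi_nhds.1 ha i).const_smul (x i)
  refine ⟨Q, ⟨fun x => ?_, fun y hy => ?_⟩, fun x => ?_⟩
  · have hcl : IsClosed (Z : Set (Fin n → ℝ)) := Submodule.closed_of_finiteDimensional Z
    exact hcl.mem_of_tendsto (hlim x) (Eventually.of_forall fun k => (hP (φ k)).1 x)
  · refine tendsto_nhds_unique (hlim y) ?_
    have : (fun k => P (φ k) y) = fun _ => y := by
      funext k; exact (hP (φ k)).2 y hy
    rw [this]
    exact tendsto_const_nhds
  · have h1 := h.tendsto (hlim x)
    have h2 : Tendsto (fun k : ℕ => (1 + 1 / ((φ k : ℝ) + 1)) * N x) atTop (𝓝 ((1 + 0) * N x)) := by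
      refine Tendsto.mul_const _ (Tendsto.const_add _ ?_)
      exact tendsto_one_div_add_atTop_nhds_zero_nat.comp hφ.tendsto_atTop
    rw [add_zero, one_mul] at h2
    exact le_of_tendsto_of_tendsto' h1 h2 fun k => hPN (φ k) x

lemma NN_btw {e : Fin n → ℝ} {l₁ l₂ : ℝ} (h : Par e l₁ l₂) : Btw (NN e l₁ l₂) :=
  ⟨NN_isNorm h, abs_sum_le_NN h, two_sub_le_NN h, abs_le_NN h, NN_le_sum h⟩

end R243KH
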