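import Pool.Agent.R702.KH.Ext

/-!
# MP_30cf1a: the gradient of the norm and the Birkhoff-James equation (R702)
-/

namespace R243KH

open Finset Filter Topology

variable {n : ℕ}

/-- gradient of `al e` at `v` -/
noncomputable def gr (e v : Fin n → ℝ) (i : Fin n) : ℝ := cc e (fun i => v i / ∑ j, v j) i

lemma hasDeriv_al {e v ζ : Fin n → ℝ} (he : ∀ i, 0 < e i) (hv : ∀ i, 0 ≤ v i)
    (hζ : ∀ i, v i = 0 → ζ i = 0) :
    HasDerivAt (fun τ : ℝ => al e (v + τ • ζ)) (∑ i, ζ i * gr e v i) 0 := by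
  by_cases hs : 0 < ∑ i, v i
  · set s := ∑ i, v i with hsd
    set s' := ∑ i, ζ i with hsd'
    have hS : ∀ τ : ℝ, ∑ j, (v + τ • ζ) j = s + τ * s' := by
      intro τ
      simp only [Pi.add_apply, Pi.smul_apply, smul_eq_mul, Finset.sum_add_distrib,
        ← Finset.mul_sum, hsd, hsd']
    have hfun : (fun τ : ℝ => al e (v + τ • ζ)) = fun τ => ∑ i, ((v i + τ * ζ i) *
        (1 - ((v i + τ * ζ i) / (s + τ * s')) ^ (e i))) := by
      funext τ
      unfold al
      rw [hS]
      rfl
    rw [hfun]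
    have hsum : ∑ i, ζ i * gr e v i
        = ∑ i, (ζ i * (1 - (v i / s) ^ e i) - e i * (v i / s) ^ e i * (ζ i - (v i / s) * s')) := by
      have h1 : ∑ i, ζ i * gr e v i = s' * (1 + ∑ j, e j * (v j / s) ^ (1 + e j))
          - ∑ i, (1 + e i) * (v i / s) ^ e i * ζ i := by
        unfold gr
        rw [sum_cc]
      have h2 : s' * (1 + ∑ j, e j * (v j / s) ^ (1 + e j))
          = ∑ j, (ζ j + s' * (e j * (v j / s) ^ (1 + e j))) := by
        rw [mul_add, mul_one, Finset.mul_sum, Finset.sum_add_distrib]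
      rw [h1, h2, ← Finset.sum_sub_distrib]
      refine Finset.sum_congr rfl fun i _ => ?_
      rw [Real.rpow_one_add' (div_nonneg (hv i) hs.le) (by linarith [he i])]
      ring
    rw [hsum]
    refine HasDerivAt.fun_sum fun i _ => ?_
    by_cases hvi : v i = 0
    · have hz := hζ i hvi
      have : (fun τ : ℝ => (v i + τ * ζ i) * (1 - ((v i + τ * ζ i) / (s + τ * s')) ^ (e i)))
          = fun _ => 0 := by
        funext τ; rw [hvi, hz]; simp
      rw [this, hvi, hz, zero_div, Real.zero_rpow (he i).ne']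
      simp only [zero_mul, mul_zero, sub_zero]
      exact hasDerivAt_const _ _
    · have hvp : 0 < v i := lt_of_le_of_ne (hv i) (Ne.symm hvi)
      have hg : HasDerivAt (fun τ : ℝ => v i + τ * ζ i) (ζ i) 0 := by
        simpa using ((hasDerivAt_id (0:ℝ)).mul_const (ζ i)).const_add (v i)
      have hS' : HasDerivAt (fun τ : ℝ => s + τ * s') s' 0 := by
        simpa using ((hasDerivAt_id (0:ℝ)).mul_const s').const_add s
      have hdiv := hg.fun_div hS' (by simpa using hs.ne')
      have hpow := hdiv.rpow_const (p := e i) (Or.inl (by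
        simp only [zero_mul, add_zero]
        exact (div_pos hvp hs).ne'))
      have := hg.fun_mul (hpow.const_sub 1)
      refine this.congr_deriv ?_
      simp only [zero_mul, add_zero]
      have hθ : 0 < v i / s := div_pos hvp hs
      rw [Real.rpow_sub_one hθ.ne']
      field_simp
      ring
  · have hv0 := eq_zero_of_sum hv hs
    have : (fun τ : ℝ => al e (v + τ • ζ)) = fun _ => 0 := by
      funext τ
      exact al_of_zero fun i => by
        simp only [Pi.add_apply, Pi.smul_apply, smul_eq_mul, hv0 i, hζ i (hv0 i)]; ring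
    rw [this]
    have h2 : ∑ i, ζ i * gr e v i = 0 :=
      Finset.sum_eq_zero fun i _ => by rw [hζ i (hv0 i), zero_mul]
    rw [h2]
    exact hasDerivAt_const _ _

/-- part of `z` on the positive coordinates of `x` -/
noncomputable def zp (x z : Fin n → ℝ) : Fin n → ℝ := fun i => if 0 < x i then z i else 0
/-- part of `z` on the negative coordinates of `x` -/
noncomputable def zn (x z : Fin n → ℝ) : Fin n → ℝ := fun i => if x i < 0 then z i else 0

lemma pp_eventually {x z : Fin n → ℝ} (hz : ∀ i, x i = 0 → z i = 0) :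
    ∀ᶠ τ : ℝ in 𝓝 0, pp (x + τ • z) = pp x + τ • zp x z := by
  have h : ∀ i, ∀ᶠ τ : ℝ in 𝓝 0, pp (x + τ • z) i = (pp x + τ • zp x z) i := by
    intro i
    have hc : Tendsto (fun τ : ℝ => x i + τ * z i) (𝓝 0) (𝓝 (x i)) := by
      have : Continuous (fun τ : ℝ => x i + τ * z i) := by fun_prop
      simpa using this.tendsto 0
    rcases lt_trichotomy (x i) 0 with h | h | h
    · filter_upwards [hc.eventually (gt_mem_nhds h)] with τ hτ
      simp only [pp, zp, Pi.add_apply, Pi.smul_apply, smul_eq_mul, if_neg (not_lt.2 h.le)]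
      rw [max_eq_right hτ.le, max_eq_right h.le]
      ring
    · refine Eventually.of_forall fun τ => ?_
      simp [pp, zp, h, hz i h]
    · filter_upwards [hc.eventually (lt_mem_nhds h)] with τ hτ
      simp only [pp, zp, Pi.add_apply, Pi.smul_apply, smul_eq_mul, if_pos h]
      rw [max_eq_left hτ.le, max_eq_left h.le]
  filter_upwards [eventually_all.2 h] with τ hτ
  funext i
  exact hτ i

lemma nn_eventually {x z : Fin n → ℝ} (hz : ∀ i, x i = 0 → z i = 0) :
    ∀ᶠ τ : ℝ in 𝓝 0, nn (x + τ • z) = nn x + τ • (- zn x z) := by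
  have h := pp_eventually (x := -x) (z := -z) (fun i hi => by
    have : x i = 0 := by simpa using hi
    simp [hz i this])
  filter_upwards [h] with τ hτ
  have e1 : -x + τ • -z = -(x + τ • z) := by rw [smul_neg]; abel
  rw [e1, pp_neg, pp_neg] at hτ
  rw [hτ]
  congr 2
  funext i
  simp only [zp, zn, Pi.neg_apply]
  by_cases h : x i < 0
  · rw [if_pos h, if_pos (by linarith)]
  · rw [if_neg h, if_neg (by linarith)]; simp

lemma hasDeriv_hm {A B : ℝ → ℝ} {A' B' : ℝ} (hA : HasDerivAt A A' 0) (hB : HasDerivAt B B' 0)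
    (h : A 0 + B 0 ≠ 0) :
    HasDerivAt (fun τ => hm (A τ) (B τ))
      ((B 0 / (A 0 + B 0)) ^ 2 * A' + (A 0 / (A 0 + B 0)) ^ 2 * B') 0 := by
  unfold hm
  have := (hA.fun_mul hB).fun_div (hA.fun_add hB) h
  refine this.congr_deriv ?_
  field_simp
  ring

/-- derivative of the `hm al` term -/
noncomputable def dh (e x z : Fin n → ℝ) : ℝ :=
  (al e (nn x) / (al e (pp x) + al e (nn x))) ^ 2 * (∑ i, zp x z i * gr e (pp x) i)
  - (al e (pp x) / (al e (pp x) + al e (nn x))) ^ 2 * (∑ i, zn x z i * gr e (nn x) i)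

lemma hasDeriv_term {e x z : Fin n → ℝ} (he : ∀ i, 0 < e i) (hz : ∀ i, x i = 0 → z i = 0)
    (hab : al e (pp x) + al e (nn x) ≠ 0) :
    HasDerivAt (fun τ : ℝ => hm (al e (pp (x + τ • z))) (al e (nn (x + τ • z)))) (dh e x z) 0 := by
  have h1 := hasDeriv_al (ζ := zp x z) he (pp_nonneg x) (by
    intro i hi
    unfold zp
    split_ifs with h
    · exfalso
      have : pp x i = x i := max_eq_left h.le
      rw [this] at hi
      linarith
    · rfl)
  have h2 := hasDeriv_al (ζ := - zn x z) he (nn_nonneg x) (by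
    intro i hi
    simp only [Pi.neg_apply, neg_eq_zero]
    unfold zn
    split_ifs with h
    · exfalso
      have : nn x i = - x i := max_eq_left (by linarith)
      rw [this] at hi
      linarith
    · rfl)
  have h3 := hasDeriv_hm h1 h2 (by simpa using hab)
  have h4 : (fun τ : ℝ => hm (al e (pp (x + τ • z))) (al e (nn (x + τ • z))))
      =ᶠ[𝓝 0] (fun τ : ℝ => hm (al e (pp x + τ • zp x z)) (al e (nn x + τ • (- zn x z)))) := by
    filter_upwards [pp_eventually hz, nn_eventually hz] with τ h5 h6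
    rw [h5, h6]
  refine (h3.congr_of_eventuallyEq h4).congr_deriv ?_
  unfold dh
  simp only [zero_smul, add_zero, Pi.neg_apply, neg_mul, Finset.sum_neg_distrib]
  ring

lemma hasDeriv_abs {x z : Fin n → ℝ} (hz : ∀ i, x i = 0 → z i = 0) :
    HasDerivAt (fun τ : ℝ => ∑ i, |(x + τ • z) i|) (∑ i, (zp x z i - zn x z i)) 0 := by
  have h4 : (fun τ : ℝ => ∑ i, |(x + τ • z) i|)
      =ᶠ[𝓝 0] (fun τ : ℝ => ∑ i, ((pp x + τ • zp x z) i + (nn x + τ • (- zn x z)) i)) := by
    filter_upwards [pp_eventually hz, nn_eventually hz] with τ h5 h6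
    refine Finset.sum_congr rfl fun i _ => ?_
    rw [abs_eq, h5, h6]
  refine HasDerivAt.congr_of_eventuallyEq ?_ h4
  refine HasDerivAt.fun_sum fun i _ => ?_
  have hg : HasDerivAt (fun τ : ℝ => pp x i + τ * zp x z i) (zp x z i) 0 := by
    simpa using ((hasDerivAt_id (0:ℝ)).mul_const (zp x z i)).const_add (pp x i)
  have hh : HasDerivAt (fun τ : ℝ => nn x i + τ * (-zn x z i)) (-zn x z i) 0 := by
    simpa using ((hasDerivAt_id (0:ℝ)).mul_const (-zn x z i)).const_add (nn x i)
  have := hg.fun_add hh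
  rw [← sub_eq_add_neg] at this
  exact this

/-- the Birkhoff-James equation -/
theorem bj_eq {e x z : Fin n → ℝ} {l₁ l₂ : ℝ} (he : ∀ i, 0 < e i)
    (hz : ∀ i, x i = 0 → z i = 0)
    (h1 : al e (pp x) + al e (nn x) ≠ 0) (h2 : al 1 (pp x) + al 1 (nn x) ≠ 0)
    (hmin : ∀ τ : ℝ, NN e l₁ l₂ x ≤ NN e l₁ l₂ (x + τ • z)) :
    ∑ i, (zp x z i - zn x z i) = l₁ * dh e x z + l₂ * dh 1 x z := by
  have hd : HasDerivAt (fun τ : ℝ => NN e l₁ l₂ (x + τ • z))
      (∑ i, (zp x z i - zn x z i) - l₁ * dh e x z - l₂ * dh 1 x z) 0 := by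
    unfold NN
    exact ((hasDeriv_abs hz).fun_sub ((hasDeriv_term he hz h1).const_mul l₁)).fun_sub
      ((hasDeriv_term al1_pos hz h2).const_mul l₂)
  have hloc : IsLocalMin (fun τ : ℝ => NN e l₁ l₂ (x + τ • z)) 0 := by
    refine Eventually.of_forall fun τ => ?_
    simpa using hmin τ
  have := hloc.hasDerivAt_eq_zero hd
  linarith

/-- `al e v > 0` if `v` has two positive coordinates -/
lemma al_pos {e v : Fin n → ℝ} (he : ∀ i, 0 < e i) (hv : ∀ i, 0 ≤ v i) {i j : Fin n}
    (hij : i ≠ j) (hi : 0 < v i) (hj : 0 < v j) : 0 < al e v := by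
  have hs : v i + v j ≤ ∑ k, v k := by
    rw [← Finset.add_sum_erase _ _ (Finset.mem_univ i)]
    have := Finset.single_le_sum (f := v) (fun k _ => hv k)
      (Finset.mem_erase.2 ⟨hij.symm, Finset.mem_univ j⟩)
    linarith
  have hs0 : 0 < ∑ k, v k := by linarith
  unfold al
  refine Finset.sum_pos' (fun k _ => ?_) ⟨i, Finset.mem_univ i, ?_⟩
  · refine mul_nonneg (hv k) ?_
    rw [sub_nonneg]
    refine Real.rpow_le_one (div_nonneg (hv k) hs0.le) ?_ (he k).le
    rw [div_le_one hs0]
    exact Finset.single_le_sum (f := v) (fun k _ => hv k) (Finset.mem_univ k)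
  · refine mul_pos hi ?_
    rw [sub_pos]
    refine Real.rpow_lt_one (div_nonneg (hv i) hs0.le) ?_ (he i)
    rw [div_lt_one hs0]
    linarith

/-- `al e v = 0` if `v` has at most one nonzero coordinate -/
lemma al_eq_zero {e v : Fin n → ℝ} (he : ∀ i, 0 < e i) (hv : ∀ i, 0 ≤ v i) {j : Fin n}
    (h : ∀ i, i ≠ j → v i = 0) : al e v = 0 := by
  refine le_antisymm ?_ (al_nonneg he hv)
  refine le_trans (al_le_erase he hv j) (le_of_eq ?_)
  rw [Finset.sum_eq_zero fun i hi => h i (Finset.ne_of_mem_erase hi), mul_zero]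

end R243KH
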