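import Pool.Agent.R702.KH.Asy

/-!
# MP_30cf1a: Lemma L (vanishing of coordinates) (R702)
-/

namespace R243KH

open Finset Filter Topology

variable {n : ℕ}

/-- the direction of `pp (x + s y)` at `s = 0+` -/
noncomputable def p1 (x y : Fin n → ℝ) : Fin n → ℝ := fun i =>
  if 0 < x i then y i else if x i = 0 then max (y i) 0 else 0

/-- eventual positivity -/
def Ps (x y : Fin n → ℝ) (i : Fin n) : Prop := 0 < x i ∨ (x i = 0 ∧ 0 < y i)

lemma lin_tendsto (a b : ℝ) : Tendsto (fun s : ℝ => a + s * b) (𝓝[>] 0) (𝓝 a) := by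
  have : Continuous (fun τ : ℝ => a + τ * b) := by fun_prop
  simpa using (this.tendsto 0).mono_left (nhdsWithin_le_nhds (s := Set.Ioi (0:ℝ)))

lemma pp_path (x y : Fin n → ℝ) : ∀ᶠ s in 𝓝[>] (0:ℝ), pp (x + s • y) = pp x + s • p1 x y := by
  have h : ∀ i, ∀ᶠ s in 𝓝[>] (0:ℝ), pp (x + s • y) i = (pp x + s • p1 x y) i := by
    intro i
    rcases lt_trichotomy (x i) 0 with h | h | h
    · filter_upwards [(lin_tendsto (x i) (y i)).eventually (gt_mem_nhds h)] with s hs
      simp only [pp, p1, Pi.add_apply, Pi.smul_apply, smul_eq_mul, if_neg (not_lt.2 h.le),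
        if_neg h.ne]
      rw [max_eq_right hs.le, max_eq_right h.le]
      ring
    · filter_upwards [ev_pos] with s hs
      simp only [pp, p1, Pi.add_apply, Pi.smul_apply, smul_eq_mul, h, lt_irrefl, if_false,
        if_true, zero_add, max_self]
      rw [mul_max_of_nonneg _ _ hs.le, mul_zero]
    · filter_upwards [(lin_tendsto (x i) (y i)).eventually (lt_mem_nhds h)] with s hs
      simp only [pp, p1, Pi.add_apply, Pi.smul_apply, smul_eq_mul, if_pos h]
      rw [max_eq_left hs.le, max_eq_left h.le]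
  filter_upwards [eventually_all.2 h] with s hs
  funext i
  exact hs i

lemma nn_path (x y : Fin n → ℝ) :
    ∀ᶠ s in 𝓝[>] (0:ℝ), nn (x + s • y) = nn x + s • p1 (-x) (-y) := by
  filter_upwards [pp_path (-x) (-y)] with s hs
  have e1 : -x + s • -y = -(x + s • y) := by rw [smul_neg]; abel
  rw [e1, pp_neg, pp_neg] at hs
  exact hs

lemma ps_ev (x y : Fin n → ℝ) : ∀ᶠ s in 𝓝[>] (0:ℝ), ∀ i, (0 < (x + s • y) i ↔ Ps x y i) := by
  rw [eventually_all]
  intro i
  rcases lt_trichotomy (x i) 0 with h | h | h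
  · filter_upwards [(lin_tendsto (x i) (y i)).eventually (gt_mem_nhds h)] with s hs
    simp only [Ps, Pi.add_apply, Pi.smul_apply, smul_eq_mul]
    constructor
    · intro h2; linarith
    · rintro (h2 | h2)
      · linarith
      · linarith [h2.1]
  · filter_upwards [ev_pos] with s hs
    simp only [Ps, Pi.add_apply, Pi.smul_apply, smul_eq_mul, h, zero_add, lt_irrefl, false_or,
      true_and]
    exact mul_pos_iff_of_pos_left hs
  · filter_upwards [(lin_tendsto (x i) (y i)).eventually (lt_mem_nhds h)] with s hs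
    simp only [Ps, Pi.add_apply, Pi.smul_apply, smul_eq_mul]
    exact ⟨fun _ => Or.inl h, fun _ => hs⟩

open Classical in
/-- the limit of `zp (x + s y) z` -/
noncomputable def Zp (x y z : Fin n → ℝ) : Fin n → ℝ := fun i => if Ps x y i then z i else 0

lemma zp_path (x y z : Fin n → ℝ) : ∀ᶠ s in 𝓝[>] (0:ℝ), zp (x + s • y) z = Zp x y z := by
  filter_upwards [ps_ev x y] with s hs
  funext i
  unfold zp Zp
  by_cases h : Ps x y i
  · rw [if_pos h, if_pos ((hs i).2 h)]
  · rw [if_neg h, if_neg fun h2 => h ((hs i).1 h2)]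

lemma zn_path (x y z : Fin n → ℝ) : ∀ᶠ s in 𝓝[>] (0:ℝ), zn (x + s • y) z = Zp (-x) (-y) z := by
  filter_upwards [ps_ev (-x) (-y)] with s hs
  have e1 : -x + s • -y = -(x + s • y) := by rw [smul_neg]; abel
  rw [e1] at hs
  funext i
  unfold zn Zp
  have h3 := hs i
  simp only [Pi.neg_apply] at h3
  by_cases h : Ps (-x) (-y) i
  · rw [if_pos h, if_pos (by linarith [h3.2 h])]
  · rw [if_neg h, if_neg fun h2 => h (h3.1 (by linarith))]

lemma pth_pp {x y : Fin n → ℝ} {i : Fin n} (hi : 0 < x i) : Pth (pp x) (p1 x y) := by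
  refine ⟨pp_nonneg x, fun j hj => ?_, ?_⟩
  · unfold p1
    have : ¬ 0 < x j := by
      intro h
      have : pp x j = x j := max_eq_left h.le
      linarith
    rw [if_neg this]
    split_ifs
    · exact le_max_right _ _
    · exact le_rfl
  · refine lt_of_lt_of_le ?_ (Finset.single_le_sum (f := pp x) (fun k _ => pp_nonneg x k)
      (Finset.mem_univ i))
    have : pp x i = x i := max_eq_left hi.le
    rw [this]; exact hi

lemma half0 {v0 v1 e : Fin n → ℝ} {q E c K0 : ℝ} {K : ℝ → ℝ} (h : Pth v0 v1)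
    (he : ∀ i, 0 < e i) (hE : ∀ i, e i ≤ E) (hq0 : 0 < q) (hq : q < 1) (hK : Ex q K K0 0)
    {i : Fin n} (hc : c ≠ 0 → (0 < v0 i ∨ (v0 i = 0 ∧ q < e i) ∨ K0 = 0)) :
    ∃ F0, Ex q (fun s => c * (K s * gr e (v0 + s • v1) i)) F0 0 := by
  by_cases hc0 : c = 0
  · refine ⟨0, ?_⟩
    refine (Ex.const q 0).congr (Eventually.of_forall fun s => ?_)
    rw [hc0, zero_mul]
  · rcases hc hc0 with h1 | h1 | h1
    · obtain ⟨G0, hG⟩ := h.gr_pos he hq0 hq h1
      have := (hK.mul hG hq0).const_mul c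
      rw [zero_mul, mul_zero, add_zero, mul_zero] at this
      exact ⟨_, this⟩
    · obtain ⟨G0, hG⟩ := h.gr_zero he hq0 hq h1.1 h1.2
      have := (hK.mul hG hq0).const_mul c
      rw [zero_mul, mul_zero, add_zero, mul_zero] at this
      exact ⟨_, this⟩
    · rw [h1] at hK
      have := (hK.zero_mul_bdd (h.gr_bdd he hE i)).const_mul c
      rw [mul_zero] at this
      exact ⟨_, this⟩

lemma half1 {v0 v1 e : Fin n → ℝ} {c K0 : ℝ} {K : ℝ → ℝ} (h : Pth v0 v1)
    (he : ∀ i, 0 < e i) {i : Fin n} (hq : e i < 1) (hK : Ex (e i) K K0 0)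
    (hc : c ≠ 0) (hK0 : K0 ≠ 0) (hi : v0 i = 0) (h1i : 0 < v1 i) :
    ∃ F0 κ, κ ≠ 0 ∧ Ex (e i) (fun s => c * (K s * gr e (v0 + s • v1) i)) F0 κ := by
  obtain ⟨G0, κ, hκ, hG⟩ := h.gr_eq he hq hi h1i
  have := (hK.mul hG (he i)).const_mul c
  rw [zero_mul, zero_add] at this
  exact ⟨_, _, mul_ne_zero hc (mul_ne_zero hK0 hκ), this⟩

/-- **Lemma L.** -/
theorem lemL {e : Fin n → ℝ} {l₁ l₂ : ℝ} (h : Par e l₁ l₂) {x y z : Fin n → ℝ}
    (hbj : ∀ s : ℝ, 0 < s → ∀ τ : ℝ, NN e l₁ l₂ (x + s • y) ≤ NN e l₁ l₂ (x + s • y + τ • z))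
    (hyz : ∀ i, z i ≠ 0 → y i ≠ 0) {a b c i : Fin n} (hab : a ≠ b) (ha : 0 < x a) (hb : 0 < x b)
    (hc : x c < 0) (hxi : x i = 0) (hyi : y i < 0) (hzi : z i ≠ 0) : False := by
  have hn : 0 < n := by have := h.two; omega
  obtain ⟨E, hE, hE1, hEl⟩ := h.ex
  have hPp : Pth (pp x) (p1 x y) := pth_pp ha
  have hPn : Pth (nn x) (p1 (-x) (-y)) := by
    rw [← pp_neg]; exact pth_pp (x := -x) (i := c) (by simpa using hc)
  have he1 : ∀ i : Fin n, (1 : Fin n → ℝ) i ≤ 1 := fun i => by simp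
  -- positivity of `al (pp x)`
  have hpa : 0 < pp x a := by rw [show pp x a = x a from max_eq_left ha.le]; exact ha
  have hpb : 0 < pp x b := by rw [show pp x b = x b from max_eq_left hb.le]; exact hb
  have hA1 : 0 < al e (pp x) := al_pos h.pos (pp_nonneg x) hab hpa hpb
  have hA2 : 0 < al 1 (pp x) := al_pos al1_pos (pp_nonneg x) hab hpa hpb
  have hB1 : 0 ≤ al e (nn x) := al_nonneg h.pos (nn_nonneg x)
  have hB2 : 0 ≤ al 1 (nn x) := al_nonneg al1_pos (nn_nonneg x)
  -- abbreviations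
  set A : (Fin n → ℝ) → ℝ → ℝ := fun e s => al e (pp x + s • p1 x y) with hA
  set B : (Fin n → ℝ) → ℝ → ℝ := fun e s => al e (nn x + s • p1 (-x) (-y)) with hB
  set T : (Fin n → ℝ) → Fin n → ℝ → ℝ := fun e i s =>
    Zp x y z i * ((B e s / (A e s + B e s)) ^ 2 * gr e (pp x + s • p1 x y) i)
    - Zp (-x) (-y) z i * ((A e s / (A e s + B e s)) ^ 2 * gr e (nn x + s • p1 (-x) (-y)) i) with hT
  have hdh : ∀ e : Fin n → ℝ, ∀ᶠ s in 𝓝[>] (0:ℝ), dh e (x + s • y) z = ∑ i, T e i s := by
    intro e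
    filter_upwards [pp_path x y, nn_path x y, zp_path x y z, zn_path x y z] with s h1 h2 h3 h4
    unfold dh
    rw [h1, h2, h3, h4, Finset.mul_sum, Finset.mul_sum, ← Finset.sum_sub_distrib]
    refine Finset.sum_congr rfl fun i _ => ?_
    simp only [hT, hA, hB]
    ring
  -- the equation
  have hEq : ∀ᶠ s in 𝓝[>] (0:ℝ), l₁ * ∑ i, T e i s + l₂ * ∑ i, T 1 i s
      = ∑ i, (Zp x y z i - Zp (-x) (-y) z i) := by
    have hnz : ∀ᶠ s in 𝓝[>] (0:ℝ), ∀ i, (x + s • y) i = 0 → z i = 0 := by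
      rw [eventually_all]
      intro i
      by_cases hz : z i = 0
      · exact Eventually.of_forall fun s _ => hz
      · by_cases hx : x i = 0
        · filter_upwards [ev_pos] with s hs h5
          simp only [Pi.add_apply, Pi.smul_apply, smul_eq_mul, hx, zero_add] at h5
          rcases mul_eq_zero.1 h5 with h6 | h6
          · linarith
          · exact absurd h6 (hyz i hz)
        · filter_upwards [(lin_tendsto (x i) (y i)).eventually (eventually_ne_nhds hx)] with s hs h5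
          exact absurd h5 hs
    have hapos : ∀ e : Fin n → ℝ, (∀ i, 0 < e i) → 0 < al e (pp x) → ∀ E, (∀ i, e i ≤ E) →
        ∀ᶠ s in 𝓝[>] (0:ℝ), al e (pp (x + s • y)) + al e (nn (x + s • y)) ≠ 0 := by
      intro e he hA0 E hE
      have h5 := (hPp.al_ex (q := 1/2) hn he hE (by norm_num)).tendsto (by norm_num)
      filter_upwards [h5.eventually (lt_mem_nhds hA0), pp_path x y] with s hs h6
      rw [← h6] at hs
      have := al_nonneg he (nn_nonneg (x + s • y))
      intro h7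
      linarith
    filter_upwards [hdh e, hdh 1, zp_path x y z, zn_path x y z, hnz, hapos e h.pos hA1 E hE,
      hapos 1 al1_pos hA2 1 he1, ev_pos] with s h1 h2 h3 h4 h5 h6 h7 h8
    have := bj_eq h.pos h5 h6 h7 (hbj s h8)
    rw [h1, h2, h3, h4] at this
    exact this.symm
  -- the set `R`
  classical
  set R : Finset (Fin n) := univ.filter fun l => z l ≠ 0 ∧ x l = 0 ∧ (y l < 0 ∨ 0 < al e (nn x))
    with hR
  have hiR : i ∈ R := by rw [hR, mem_filter]; exact ⟨mem_univ i, hzi, hxi, Or.inl hyi⟩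
  obtain ⟨l, hlR, hlmin⟩ := Finset.exists_min_image R e ⟨i, hiR⟩
  have hl := (mem_filter.1 hlR).2
  have hq0 : 0 < e l := h.pos l
  have hq1 : e l < 1 := by linarith [hE l]
  have hyl : y l ≠ 0 := hyz l hl.1
  -- coefficients
  have hcoef : ∀ e' : Fin n → ℝ, (∀ i, 0 < e' i) → 0 < al e' (pp x) → 0 ≤ al e' (nn x) →
      ∀ E, (∀ i, e' i ≤ E) →
      Ex (e l) (fun s => (B e' s / (A e' s + B e' s)) ^ 2)
        ((al e' (nn x) / (al e' (pp x) + al e' (nn x))) ^ 2) 0 ∧
      Ex (e l) (fun s => (A e' s / (A e' s + B e' s)) ^ 2)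
        ((al e' (pp x) / (al e' (pp x) + al e' (nn x))) ^ 2) 0 := by
    intro e' he' hA' hB' E' hE'
    have hAe := hPp.al_ex (q := e l) hn he' hE' hq1
    have hBe := hPn.al_ex (q := e l) hn he' hE' hq1
    refine ⟨coef_ex hq0 hAe hBe (by linarith), ?_⟩
    have := coef_ex hq0 hBe hAe (by linarith)
    rw [add_comm (al e' (nn x))] at this
    refine this.congr (Eventually.of_forall fun s => ?_)
    simp only [hA, hB]
    rw [add_comm (al e' (nn x + s • p1 (-x) (-y)))]
  obtain ⟨hKb1, hKa1⟩ := hcoef e h.pos hA1 hB1 E hE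
  obtain ⟨hKb2, hKa2⟩ := hcoef 1 al1_pos hA2 hB2 1 he1
  have hzero_pp : ∀ j, Zp x y z j ≠ 0 → ¬ 0 < x j → pp x j = 0 ∧ x j = 0 ∧ 0 < y j ∧ z j ≠ 0 := by
    intro j hj hx
    unfold Zp at hj
    by_cases hps : Ps x y j
    · rw [if_pos hps] at hj
      rcases hps with h1 | h1
      · exact absurd h1 hx
      · exact ⟨by simp [pp, h1.1], h1.1, h1.2, hj⟩
    · rw [if_neg hps] at hj; exact absurd rfl hj
  have hzero_nn : ∀ j, Zp (-x) (-y) z j ≠ 0 → ¬ x j < 0 → nn x j = 0 ∧ x j = 0 ∧ y j < 0 ∧ z j ≠ 0 := by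
    intro j hj hx
    unfold Zp at hj
    by_cases hps : Ps (-x) (-y) j
    · rw [if_pos hps] at hj
      rcases hps with h1 | h1
      · simp only [Pi.neg_apply] at h1
        exact absurd (by linarith) hx
      · simp only [Pi.neg_apply] at h1
        have h2 : x j = 0 := by linarith [h1.1]
        exact ⟨by simp [nn, h2], h2, by linarith [h1.2], hj⟩
    · rw [if_neg hps] at hj; exact absurd rfl hj
  have hppos : ∀ j, 0 < x j → 0 < pp x j := fun j hj => by
    rw [show pp x j = x j from max_eq_left hj.le]; exact hj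
  have hnpos : ∀ j, x j < 0 → 0 < nn x j := fun j hj => by
    rw [show nn x j = - x j from max_eq_left (by linarith)]; linarith
  -- second family
  have hT2 : ∀ j, ∃ F0, Ex (e l) (T 1 j) F0 0 := by
    intro j
    obtain ⟨F1, hF1⟩ := half0 (c := Zp x y z j) hPp al1_pos he1 hq0 hq1 hKb2 (i := j) (by
      intro hj
      by_cases hx : 0 < x j
      · exact Or.inl (hppos j hx)
      · exact Or.inr (Or.inl ⟨(hzero_pp j hj hx).1, by simpa using hq1⟩))
    obtain ⟨F2, hF2⟩ := half0 (c := Zp (-x) (-y) z j) hPn al1_pos he1 hq0 hq1 hKa2 (i := j) (by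
      intro hj
      by_cases hx : x j < 0
      · exact Or.inl (hnpos j hx)
      · exact Or.inr (Or.inl ⟨(hzero_nn j hj hx).1, by simpa using hq1⟩))
    have := hF1.sub hF2
    rw [sub_zero] at this
    exact ⟨_, this⟩
  have hT1 : ∀ j, j ≠ l → ∃ F0, Ex (e l) (T e j) F0 0 := by
    intro j hjl
    have hgt : j ∈ R → e l < e j := fun hj =>
      lt_of_le_of_ne (hlmin j hj) fun heq => hjl (h.inj heq).symm
    obtain ⟨F1, hF1⟩ := half0 (c := Zp x y z j) hPp h.pos hE hq0 hq1 hKb1 (i := j) (by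
      intro hj
      by_cases hx : 0 < x j
      · exact Or.inl (hppos j hx)
      · obtain ⟨h1, h2, h3, h4⟩ := hzero_pp j hj hx
        by_cases hB0 : 0 < al e (nn x)
        · refine Or.inr (Or.inl ⟨h1, hgt ?_⟩)
          rw [hR, mem_filter]
          exact ⟨mem_univ j, h4, h2, Or.inr hB0⟩
        · refine Or.inr (Or.inr ?_)
          have : al e (nn x) = 0 := le_antisymm (not_lt.1 hB0) hB1
          rw [this]; simp)
    obtain ⟨F2, hF2⟩ := half0 (c := Zp (-x) (-y) z j) hPn h.pos hE hq0 hq1 hKa1 (i := j) (by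
      intro hj
      by_cases hx : x j < 0
      · exact Or.inl (hnpos j hx)
      · obtain ⟨h1, h2, h3, h4⟩ := hzero_nn j hj hx
        refine Or.inr (Or.inl ⟨h1, hgt ?_⟩)
        rw [hR, mem_filter]
        exact ⟨mem_univ j, h4, h2, Or.inl h3⟩)
    have := hF1.sub hF2
    rw [sub_zero] at this
    exact ⟨_, this⟩
  have hTl : ∃ F0 κ, κ ≠ 0 ∧ Ex (e l) (T e l) F0 κ := by
    rcases lt_or_gt_of_ne hyl with hy | hy
    · -- negative side
      have hZp : Zp x y z l = 0 := by
        unfold Zp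
        rw [if_neg]
        rintro (h1 | h1)
        · linarith [hl.2.1]
        · linarith [h1.2]
      have hZn : Zp (-x) (-y) z l = z l := by
        unfold Zp
        rw [if_pos]
        refine Or.inr ⟨?_, ?_⟩
        · simp [hl.2.1]
        · simpa using hy
      obtain ⟨F1, hF1⟩ := half0 (c := Zp x y z l) hPp h.pos hE hq0 hq1 hKb1 (i := l)
        (fun h1 => absurd hZp h1)
      obtain ⟨F2, κ, hκ, hF2⟩ := half1 (c := Zp (-x) (-y) z l) hPn h.pos hq1 hKa1
        (by rw [hZn]; exact hl.1) (by positivity) (by simp [nn, hl.2.1]) (by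
          unfold p1
          simp only [Pi.neg_apply, hl.2.1, neg_zero, lt_irrefl, if_false, if_true]
          exact lt_max_of_lt_left (by linarith))
      have := hF1.sub hF2
      rw [zero_sub] at this
      exact ⟨_, _, neg_ne_zero.2 hκ, this⟩
    · have hB0 : 0 < al e (nn x) := by
        rcases hl.2.2 with h1 | h1
        · linarith
        · exact h1
      have hZp : Zp (-x) (-y) z l = 0 := by
        unfold Zp
        rw [if_neg]
        rintro (h1 | h1)
        · simp only [Pi.neg_apply] at h1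
          linarith [hl.2.1]
        · simp only [Pi.neg_apply] at h1
          linarith [h1.2]
      have hZn : Zp x y z l = z l := by
        unfold Zp
        rw [if_pos]
        exact Or.inr ⟨hl.2.1, hy⟩
      obtain ⟨F1, hF1⟩ := half0 (c := Zp (-x) (-y) z l) hPn h.pos hE hq0 hq1 hKa1 (i := l)
        (fun h1 => absurd hZp h1)
      obtain ⟨F2, κ, hκ, hF2⟩ := half1 (c := Zp x y z l) hPp h.pos hq1 hKb1
        (by rw [hZn]; exact hl.1) (by positivity) (by simp [pp, hl.2.1]) (by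
          unfold p1
          simp only [hl.2.1, lt_irrefl, if_false, if_true]
          exact lt_max_of_lt_left hy)
      have := hF2.sub hF1
      rw [sub_zero] at this
      exact ⟨_, _, hκ, this⟩
  -- assemble
  have hT1' : ∀ j, ∃ F0 κ, ((j = l) → κ ≠ 0) ∧ ((j ≠ l) → κ = 0) ∧ Ex (e l) (T e j) F0 κ := by
    intro j
    by_cases hj : j = l
    · subst hj
      obtain ⟨F0, κ, hκ, hF⟩ := hTl
      exact ⟨F0, κ, fun _ => hκ, fun h => absurd rfl h, hF⟩
    · obtain ⟨F0, hF⟩ := hT1 j hj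
      exact ⟨F0, 0, fun h => absurd h hj, fun _ => rfl, hF⟩
  choose F0 κ hκ1 hκ2 hF using hT1'
  choose G0 hG using hT2
  have hS1 := (Ex.sum univ fun j _ => hF j).const_mul l₁
  have hS2 := (Ex.sum univ fun j _ => hG j).const_mul l₂
  have hS := hS1.add hS2
  have h0 := hS.const_unique hq0 hEq
  rw [Finset.sum_const_zero, mul_zero, add_zero,
    Finset.sum_eq_single l (fun j _ hj => hκ2 j hj) (fun h => absurd (mem_univ l) h)] at h0
  exact mul_ne_zero h.l1.ne' (hκ1 l rfl) h0

end R243KH
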