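import Pool.Agent.R702.KH.LemL

/-!
# MP_30cf1a: linear algebra (R702)
-/

namespace R243KH

open Finset Filter Topology

variable {n : ℕ}

lemma exists_full (Z : Submodule ℝ (Fin n → ℝ)) (T : Finset (Fin n))
    (hT : ∀ l ∈ T, ∃ x ∈ Z, x l ≠ 0) : ∃ y ∈ Z, ∀ l ∈ T, y l ≠ 0 := by
  classical
  induction T using Finset.induction_on with
  | empty => exact ⟨0, Z.zero_mem, fun l hl => absurd hl (Finset.notMem_empty l)⟩
  | insert l T hl ih =>
    obtain ⟨y, hy, hyT⟩ := ih fun m hm => hT m (Finset.mem_insert_of_mem hm)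
    obtain ⟨x, hx, hxl⟩ := hT l (Finset.mem_insert_self l T)
    obtain ⟨ε, hε⟩ := Infinite.exists_notMem_finset ((insert l T).image fun j => - y j / x j)
    refine ⟨y + ε • x, Z.add_mem hy (Z.smul_mem ε hx), fun j hj h0 => ?_⟩
    simp only [Pi.add_apply, Pi.smul_apply, smul_eq_mul] at h0
    by_cases hxj : x j = 0
    · rw [hxj, mul_zero, add_zero] at h0
      rcases Finset.mem_insert.1 hj with h1 | h1
      · rw [h1] at hxj; exact hxl hxj
      · exact hyT j h1 h0
    · apply hε
      rw [Finset.mem_image]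
      refine ⟨j, hj, ?_⟩
      field_simp
      linarith

/-- the plane lemma -/
lemma planes (H : Submodule ℝ (Fin n → ℝ)) (h2 : 2 ≤ Module.finrank ℝ H)
    (hmix : ∀ x ∈ H, ∀ i j k, i ≠ k → j ≠ k → 0 < x i → x j < 0 → x k = 0) :
    ∃ a b, a ≠ b ∧ Pi.single a 1 ∈ H ∧ Pi.single b 1 ∈ H ∧
      ∀ x ∈ H, ∀ j, j ≠ a → j ≠ b → x j = 0 := by
  classical
  -- claim A
  have claimA : ∀ v ∈ H, ∀ l, v l = 1 → ∀ u ∈ H, u l = 0 → ∀ m, u m ≠ 0 →
      (∀ j, j ≠ m → u j = 0) ∧ (∀ j, j ≠ l → j ≠ m → v j = 0) := by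
    intro v hv l hvl u hu hul m hum
    have hml : m ≠ l := fun h => hum (h ▸ hul)
    have key : ∀ j, j ≠ l → j ≠ m → u j = 0 ∧ v j = 0 := by
      intro j hjl hjm
      have hs : ∀ c : ℝ, c < 0 → v j + ((c - v m) / u m) * u j = 0 := by
        intro c hc
        have hmem : v + ((c - v m) / u m) • u ∈ H := H.add_mem hv (H.smul_mem _ hu)
        have := hmix _ hmem l m j hjl.symm hjm.symm (by
          simp only [Pi.add_apply, Pi.smul_apply, smul_eq_mul, hvl, hul]; norm_num) (by
          simp only [Pi.add_apply, Pi.smul_apply, smul_eq_mul]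
          field_simp
          linarith)
        simpa only [Pi.add_apply, Pi.smul_apply, smul_eq_mul] using this
      have h1 := hs (-1) (by norm_num)
      have h3 := hs (-2) (by norm_num)
      have h4 : u j = 0 := by
        have h5 : ((-1 - v m) / u m - (-2 - v m) / u m) * u j = 0 := by linarith
        have h6 : ((-1 - v m) / u m - (-2 - v m) / u m) = 1 / u m := by
          field_simp; ring
        rw [h6] at h5
        rcases mul_eq_zero.1 h5 with h7 | h7
        · exact absurd h7 (one_div_ne_zero hum)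
        · exact h7
      refine ⟨h4, ?_⟩
      rw [h4, mul_zero, add_zero] at h1
      exact h1
    refine ⟨fun j hj => ?_, fun j h1 h2 => (key j h1 h2).2⟩
    by_cases hjl : j = l
    · rw [hjl]; exact hul
    · exact (key j hjl hj).1
  -- choose l
  obtain ⟨v0, hv0, l, hv0l⟩ : ∃ v ∈ H, ∃ l, v l ≠ 0 := by
    by_contra hno
    push Not at hno
    have : H = ⊥ := by
      rw [Submodule.eq_bot_iff]
      intro x hx
      funext l
      exact hno x hx l
    rw [this, finrank_bot] at h2
    omega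
  set v := (v0 l)⁻¹ • v0 with hvd
  have hv : v ∈ H := H.smul_mem _ hv0
  have hvl : v l = 1 := by
    simp only [hvd, Pi.smul_apply, smul_eq_mul]
    exact inv_mul_cancel₀ hv0l
  obtain ⟨u, hu, hu0, hul⟩ : ∃ u ∈ H, u ≠ 0 ∧ u l = 0 := by
    by_contra hno
    push Not at hno
    have hinj : Function.Injective ((LinearMap.proj l : (Fin n → ℝ) →ₗ[ℝ] ℝ).comp H.subtype) := by
      rw [← LinearMap.ker_eq_bot, LinearMap.ker_eq_bot']
      intro x hx
      by_contra hx0
      exact hno x.1 x.2 (fun h => hx0 (Subtype.ext h)) hx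
    have := LinearMap.finrank_le_finrank_of_injective hinj
    rw [Module.finrank_self] at this
    omega
  obtain ⟨m, hum⟩ : ∃ m, u m ≠ 0 := by
    by_contra hno
    push Not at hno
    exact hu0 (funext hno)
  have hml : m ≠ l := fun h => hum (h ▸ hul)
  obtain ⟨hA1, hA2⟩ := claimA v hv l hvl u hu hul m hum
  have hem : (Pi.single m 1 : Fin n → ℝ) ∈ H := by
    have : (Pi.single m 1 : Fin n → ℝ) = (u m)⁻¹ • u := by
      funext j
      by_cases hj : j = m
      · subst hj; simp [inv_mul_cancel₀ hum]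
      · simp [hj, hA1 j hj]
    rw [this]; exact H.smul_mem _ hu
  have hel : (Pi.single l 1 : Fin n → ℝ) ∈ H := by
    have : (Pi.single l 1 : Fin n → ℝ) = v - v m • Pi.single m 1 := by
      funext j
      by_cases hj : j = l
      · subst hj; simp [hvl, hml.symm]
      · by_cases hj2 : j = m
        · subst hj2; simp [hml]
        · simp [hj, hj2, hA2 j hj hj2]
    rw [this]; exact H.sub_mem hv (H.smul_mem _ hem)
  refine ⟨l, m, hml.symm, hel, hem, fun x hx j hjl hjm => ?_⟩
  by_contra hxj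
  set u' := x - x l • (Pi.single l 1 : Fin n → ℝ) with hu'
  have hu'H : u' ∈ H := H.sub_mem hx (H.smul_mem _ hel)
  have hu'l : u' l = 0 := by simp [hu']
  have hu'j : u' j ≠ 0 := by simp [hu', hjl, hxj]
  obtain ⟨hB1, hB2⟩ := claimA v hv l hvl u' hu'H hu'l j hu'j
  have hej : (Pi.single j 1 : Fin n → ℝ) ∈ H := by
    have : (Pi.single j 1 : Fin n → ℝ) = (u' j)⁻¹ • u' := by
      funext k
      by_cases hk : k = j
      · subst hk; simp [inv_mul_cancel₀ hu'j]
      · simp [hk, hB1 k hk]
    rw [this]; exact H.smul_mem _ hu'H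
  have hfin := hmix (Pi.single l 1 - Pi.single m 1 - Pi.single j 1)
    (H.sub_mem (H.sub_mem hel hem) hej) l m j (Ne.symm hjl) (Ne.symm hjm)
    (by simp [hml.symm, Ne.symm hjl]) (by simp [hml, Ne.symm hjm])
  simp [hjl, hjm] at hfin

end R243KH
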