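import Pool.Agent.R702.KH.CaseB

/-!
# MP_30cf1a: no contractive projections (R702)
-/

namespace R243KH

open Finset Filter Topology

variable {n : ℕ}

variable {e : Fin n → ℝ} {l₁ l₂ : ℝ} {Z : Submodule ℝ (Fin n → ℝ)}
  {P : (Fin n → ℝ) →ₗ[ℝ] (Fin n → ℝ)}

lemma finrank_hyper (Z : Submodule ℝ (Fin n → ℝ)) (i : Fin n) :
    Module.finrank ℝ Z ≤ Module.finrank ℝ
      ↥(Z ⊓ LinearMap.ker (LinearMap.proj i : (Fin n → ℝ) →ₗ[ℝ] ℝ)) + 1 := by
  set K := LinearMap.ker (LinearMap.proj i : (Fin n → ℝ) →ₗ[ℝ] ℝ) with hK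
  have h1 := Submodule.finrank_sup_add_finrank_inf_eq Z K
  have h2 := LinearMap.finrank_range_add_finrank_ker (LinearMap.proj i : (Fin n → ℝ) →ₗ[ℝ] ℝ)
  have h3 : Module.finrank ℝ (LinearMap.range (LinearMap.proj i : (Fin n → ℝ) →ₗ[ℝ] ℝ)) ≤ 1 := by
    refine le_trans (Submodule.finrank_le _) ?_
    rw [Module.finrank_self]
  have h4 : Module.finrank ℝ ↥(Z ⊔ K) ≤ n := by
    refine le_trans (Submodule.finrank_le _) ?_
    rw [Module.finrank_fin_fun]
  rw [Module.finrank_fin_fun] at h2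
  rw [← hK] at h2
  omega

theorem Sit.noW (h : Sit e l₁ l₂ Z P) {z : Fin n → ℝ} (hz : Wp Z P z) : z = 0 := by
  by_contra hz0
  obtain ⟨i, hzi⟩ : ∃ i, z i ≠ 0 := by
    by_contra hno
    push Not at hno
    exact hz0 (funext hno)
  have hUi : InU Z i := by
    by_contra hno
    exact hzi (hz.2 i hno)
  set H := Z ⊓ LinearMap.ker (LinearMap.proj i : (Fin n → ℝ) →ₗ[ℝ] ℝ) with hH
  have hHmem : ∀ x, x ∈ H ↔ x ∈ Z ∧ x i = 0 := by
    intro x
    rw [hH, Submodule.mem_inf, LinearMap.mem_ker]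
    rfl
  have hHr : 2 ≤ Module.finrank ℝ H := by
    have h5 := finrank_hyper Z i
    rw [← hH] at h5
    have := h.three
    omega
  obtain ⟨a, b, hab, hea, heb, hsupp⟩ := planes H hHr (by
    intro x hx p q r hpr hqr hp hq
    by_contra hr
    obtain ⟨hxZ, hxi⟩ := (hHmem x).1 hx
    exact hzi (h.lemL' hz hxZ hpr hqr hp hq hr hxi hUi))
  have haZ := ((hHmem _).1 hea).1
  have hbZ := ((hHmem _).1 heb).1
  have hai : i ≠ a := by
    intro h1
    have h2 := ((hHmem _).1 hea).2
    rw [h1] at h2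
    simp at h2
  have hbi : i ≠ b := by
    intro h1
    have h2 := ((hHmem _).1 heb).2
    rw [h1] at h2
    simp at h2
  obtain ⟨w0, hw0, hw0i⟩ := hUi
  set w := w0 - w0 a • (Pi.single a 1 : Fin n → ℝ) - w0 b • (Pi.single b 1 : Fin n → ℝ) with hw
  have hwZ : w ∈ Z := Z.sub_mem (Z.sub_mem hw0 (Z.smul_mem _ haZ)) (Z.smul_mem _ hbZ)
  have hwa : w a = 0 := by simp [hw, hab]
  have hwb : w b = 0 := by simp [hw, hab.symm]
  have hwi : w i ≠ 0 := by simp [hw, hai, hbi, hw0i]
  have hcov : ∀ x ∈ Z, ∀ j, j ≠ a → j ≠ b → x j = (x i / w i) * w j := by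
    intro x hx j hja hjb
    have hmem : x - (x i / w i) • w ∈ H := by
      rw [hHmem]
      refine ⟨Z.sub_mem hx (Z.smul_mem _ hwZ), ?_⟩
      simp only [Pi.sub_apply, Pi.smul_apply, smul_eq_mul]
      field_simp
      ring
    have := hsupp _ hmem j hja hjb
    simp only [Pi.sub_apply, Pi.smul_apply, smul_eq_mul] at this
    linarith
  have hU : ∀ j, InU Z j → j = a ∨ j = b ∨ w j ≠ 0 := by
    rintro j ⟨x, hx, hxj⟩
    by_cases hja : j = a
    · exact Or.inl hja
    · by_cases hjb : j = b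
      · exact Or.inr (Or.inl hjb)
      · refine Or.inr (Or.inr fun h1 => hxj ?_)
        rw [hcov x hx j hja hjb, h1, mul_zero]
  have hnotU : ∀ z, Wp Z P z → ∀ j, j ≠ a → j ≠ b → w j = 0 → z j = 0 := by
    intro z hz j h1 h2 h3
    refine hz.2 j fun hUj => ?_
    rcases hU j hUj with h4 | h4 | h4
    · exact h1 h4
    · exact h2 h4
    · exact h4 h3
  obtain ⟨j, hji, hwj⟩ : ∃ j, i ≠ j ∧ w j ≠ 0 := by
    by_contra hno
    push Not at hno
    have hzZ : z ∈ Z := by
      have : z = z a • (Pi.single a 1 : Fin n → ℝ) + z b • (Pi.single b 1 : Fin n → ℝ)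
          + (z i / w i) • w := by
        funext k
        simp only [Pi.add_apply, Pi.smul_apply, smul_eq_mul]
        by_cases hka : k = a
        · subst hka; rw [hwa]; simp [hab]
        · by_cases hkb : k = b
          · subst hkb; rw [hwb]; simp [hab.symm]
          · by_cases hki : k = i
            · subst hki
              simp [hka, hkb]
              field_simp
            · have h1 := hno k (Ne.symm hki)
              rw [hnotU z hz k hka hkb h1, h1]
              simp [hka, hkb]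
      rw [this]
      exact Z.add_mem (Z.add_mem (Z.smul_mem _ haZ) (Z.smul_mem _ hbZ)) (Z.smul_mem _ hwZ)
    have h1 := h.proj.2 z hzZ
    rw [hz.1] at h1
    exact hz0 h1.symm
  have hja : j ≠ a := fun h1 => hwj (h1 ▸ hwa)
  have hjb : j ≠ b := fun h1 => hwj (h1 ▸ hwb)
  obtain ⟨σ, hσ⟩ : ∃ σ : ℝ, 0 < σ * w i := by
    rcases lt_or_gt_of_ne hwi with h1 | h1
    · exact ⟨-1, by linarith⟩
    · exact ⟨1, by linarith⟩
  have hσ0 : σ ≠ 0 := fun h1 => by rw [h1, zero_mul] at hσ; exact lt_irrefl _ hσ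
  have hza : ∀ z, Wp Z P z → z a = 0 := by
    intro z' hz'
    refine h.lemL' hz' (x := σ • w - Pi.single b 1) (Z.sub_mem (Z.smul_mem _ hwZ) hbZ)
      (a := i) (b := j) (c := b) (i := a) hji (Ne.symm hjb) ?_ ?_ ?_ ?_ ⟨_, haZ, by simp⟩
    · simpa [hbi] using hσ
    · simp [hwb]
    · simp [hjb, hσ0, hwj]
    · simp [hwa, hab]
  have hzb : ∀ z, Wp Z P z → z b = 0 := by
    intro z' hz'
    refine h.lemL' hz' (x := σ • w - Pi.single a 1) (Z.sub_mem (Z.smul_mem _ hwZ) haZ)
      (a := i) (b := j) (c := a) (i := b) hji (Ne.symm hja) ?_ ?_ ?_ ?_ ⟨_, hbZ, by simp⟩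
    · simpa [hai] using hσ
    · simp [hwa]
    · simp [hja, hσ0, hwj]
    · simp [hwb, hab.symm]
  have hη : ∀ j, w j ≠ 0 → ∃ η : ℝ, Wp Z P (Pi.single j 1 - η • w) := by
    intro j hj
    have hja : j ≠ a := fun h1 => hj (h1 ▸ hwa)
    have hjb : j ≠ b := fun h1 => hj (h1 ▸ hwb)
    have hW1 : Wp Z P (Pi.single j 1 - P (Pi.single j 1)) := by
      refine ⟨?_, fun k hk => ?_⟩
      · rw [map_sub, h.proj.2 _ (h.proj.1 _), sub_self]
      · have hkj : k ≠ j := fun h1 => hk (h1 ▸ ⟨w, hwZ, hj⟩)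
        have h2 : P (Pi.single j 1) k = 0 := by
          by_contra hne
          exact hk ⟨_, h.proj.1 _, hne⟩
        simp [hkj, h2]
    refine ⟨P (Pi.single j 1) i / w i, ?_⟩
    have h1 := hza _ hW1
    have h2 := hzb _ hW1
    have h3 : P (Pi.single j 1) = (P (Pi.single j 1) i / w i) • w := by
      funext k
      simp only [Pi.smul_apply, smul_eq_mul]
      by_cases hka : k = a
      · rw [hka, hwa, mul_zero]
        simpa [hja.symm] using h1
      · by_cases hkb : k = b
        · rw [hkb, hwb, mul_zero]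
          simpa [hjb.symm] using h2
        · exact hcov _ (h.proj.1 _) k hka hkb
    rw [← h3]
    exact hW1
  have c : Cfg Z P a b w := ⟨hab, haZ, hbZ, hwZ, hwa, hwb, hU, hza, hzb,
    ⟨i, j, hji, hwi, hwj⟩, hη⟩
  by_cases h1 : ∃ p, 0 < w p
  · obtain ⟨p, hp⟩ := h1
    by_cases h2 : ∃ d, w d < 0
    · obtain ⟨d, hd⟩ := h2
      exact h.caseB c hp hd
    · push Not at h2
      exact h.caseA c h2
  · push Not at h1
    exact h.caseA c.neg fun j => by simpa using h1 j

lemma hm_mono {A B B' : ℝ} (hA : 0 < A) (hB : 0 ≤ B') (h : B' ≤ B) : hm A B' ≤ hm A B := by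
  unfold hm
  rw [div_le_div_iff₀ (by linarith) (by linarith)]
  nlinarith [mul_nonneg hA.le hB, mul_nonneg hA.le (le_trans hB h),
    mul_le_mul_of_nonneg_left h (mul_pos hA hA).le]

open Classical in
/-- the test vector -/
noncomputable def tv (Z : Submodule ℝ (Fin n → ℝ)) (b : Fin n) : Fin n → ℝ := fun i =>
  if InU Z i then (if i = b then -1 else 1) else 0

lemma Sit.edge (h : Sit e l₁ l₂ Z P) (hfull : ∀ x : Fin n → ℝ, (∀ j, ¬ InU Z j → x j = 0) → x ∈ Z)
    {v b p q : Fin n} (hv : ¬ InU Z v) (hb : InU Z b) (hp : InU Z p) (hq : InU Z q)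
    (hpb : p ≠ b) (hqb : q ≠ b) (hpq : p ≠ q) :
    l₁ + 2 * l₂ ≤ ∑ i, P (Pi.single v 1) i - 2 * P (Pi.single v 1) b + 1 := by
  classical
  obtain ⟨E, hE, hE1, hEl⟩ := h.par.ex
  have hn : 0 < n := by have := h.par.two; omega
  set y := P (Pi.single v 1) with hy
  have hyZ : y ∈ Z := h.proj.1 _
  have hyV : ∀ j, ¬ InU Z j → y j = 0 := by
    intro j hj
    by_contra hne
    exact hj ⟨y, hyZ, hne⟩
  have hvb : v ≠ b := fun h1 => hv (h1 ▸ hb)
  set x := tv Z b with hx
  have hxZ : x ∈ Z := hfull x fun j hj => by simp [hx, tv, hj]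
  have hxb : x b = -1 := by simp [hx, tv, hb]
  have hxU : ∀ j, InU Z j → j ≠ b → x j = 1 := fun j hj hjb => by simp [hx, tv, hj, hjb]
  have hxV : ∀ j, ¬ InU Z j → x j = 0 := fun j hj => by simp [hx, tv, hj]
  set g : Fin n → ℝ := y - Pi.single v 1 with hg
  have hPg : P g = 0 := by
    rw [hg, map_sub, ← hy, h.proj.2 y hyZ, sub_self]
  have hgU : ∀ j, InU Z j → g j = y j := by
    intro j hj
    have : j ≠ v := fun h1 => hv (h1 ▸ hj)
    simp [hg, this]
  have hgv : g v = -1 := by simp [hg, hyV v hv]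
  have hgV : ∀ j, ¬ InU Z j → j ≠ v → g j = 0 := by
    intro j hj hjv
    simp [hg, hyV j hj, hjv]
  -- the directions
  have hp1 : ∀ j, p1 x g j = if InU Z j then (if j = b then 0 else y j) else 0 := by
    intro j
    unfold p1
    by_cases hj : InU Z j
    · by_cases hjb : j = b
      · subst hjb; rw [hxb]; norm_num
      · rw [hxU j hj hjb, hgU j hj]; simp [hj, hjb]
    · rw [hxV j hj]
      by_cases hjv : j = v
      · subst hjv; rw [hgv]; simp [hj]
      · rw [hgV j hj hjv]; simp [hj]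
  have hn1 : ∀ j, p1 (-x) (-g) j = if j = b then - y b else if j = v then 1 else 0 := by
    intro j
    unfold p1
    simp only [Pi.neg_apply]
    by_cases hj : InU Z j
    · have hjv : j ≠ v := fun h1 => hv (h1 ▸ hj)
      by_cases hjb : j = b
      · subst hjb; rw [hxb, hgU j hj]; simp
      · rw [hxU j hj hjb]; simp [hjb, hjv]
    · have hjb : j ≠ b := fun h1 => hj (h1 ▸ hb)
      rw [hxV j hj]
      by_cases hjv : j = v
      · subst hjv; rw [hgv]; simp [hjb]
      · rw [hgV j hj hjv]; simp [hjb, hjv]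
  have hnnx : nn x = Pi.single b 1 := by
    funext j
    unfold nn
    by_cases hj : InU Z j
    · by_cases hjb : j = b
      · subst hjb; rw [hxb]; simp
      · rw [hxU j hj hjb]; simp [hjb]
    · have hjb : j ≠ b := fun h1 => hj (h1 ▸ hb)
      rw [hxV j hj]; simp [hjb]
  have hppp : 0 < pp x p := by simp [pp, hxU p hp hpb]
  have hppq : 0 < pp x q := by simp [pp, hxU q hq hqb]
  have hA1 : 0 < al e (pp x) := al_pos h.par.pos (pp_nonneg x) hpq hppp hppq
  have hA2 : 0 < al 1 (pp x) := al_pos al1_pos (pp_nonneg x) hpq hppp hppq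
  have hPth : Pth (pp x) (p1 x g) := pth_pp (i := p) (by rw [hxU p hp hpb]; exact one_pos)
  have hPthn : Pth (nn x) (p1 (-x) (-g)) := by
    rw [← pp_neg]; exact pth_pp (x := -x) (i := b) (by simp [hxb])
  have hB0 : ∀ e' : Fin n → ℝ, (∀ i, 0 < e' i) → al e' (nn x) = 0 := by
    intro e' he'
    refine al_eq_zero he' (nn_nonneg x) (j := b) fun i hi => ?_
    rw [hnnx]; simp [hi]
  have hNx : NN e l₁ l₂ x = ∑ i, |x i| := by
    unfold NN
    rw [hB0 e h.par.pos, hB0 1 al1_pos]
    simp [hm]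
  -- the negative part
  set M : ℝ → Fin n → ℝ := fun s => nn x + s • p1 (-x) (-g) with hM
  have hMb : ∀ s, M s b = 1 - s * y b := by
    intro s
    simp only [hM, Pi.add_apply, Pi.smul_apply, smul_eq_mul, hn1, hnnx]
    simp; ring
  have hMv : ∀ s, M s v = s := by
    intro s
    simp only [hM, Pi.add_apply, Pi.smul_apply, smul_eq_mul, hn1, hnnx]
    simp [hvb]
  have hMo : ∀ s j, j ≠ b → j ≠ v → M s j = 0 := by
    intro s j h1 h2
    simp only [hM, Pi.add_apply, Pi.smul_apply, smul_eq_mul, hn1, hnnx]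
    simp [h1, h2]
  have hMs : ∀ s, ∑ j, M s j = 1 - s * y b + s := by
    intro s
    rw [← Finset.sum_subset (Finset.subset_univ ({b, v} : Finset (Fin n))) (fun i _ hi => by
      simp only [Finset.mem_insert, Finset.mem_singleton, not_or] at hi
      exact hMo s i hi.1 hi.2), Finset.sum_pair hvb.symm, hMb, hMv]
  have halM : ∀ (e' : Fin n → ℝ) (s : ℝ), al e' (M s) =
      (1 - s * y b) * (1 - ((1 - s * y b) / (1 - s * y b + s)) ^ e' b)
      + s * (1 - (s / (1 - s * y b + s)) ^ e' v) := by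
    intro e' s
    unfold al
    rw [hMs, ← Finset.sum_subset (Finset.subset_univ ({b, v} : Finset (Fin n))) (fun i _ hi => by
      simp only [Finset.mem_insert, Finset.mem_singleton, not_or] at hi
      rw [hMo s i hi.1 hi.2, zero_mul]), Finset.sum_pair hvb.symm, hMb, hMv]
  -- the sum of absolute values
  have habs : ∀ᶠ s in 𝓝[>] (0:ℝ), ∑ i, |(x + s • g) i| = ∑ i, |x i|
      + s * (∑ i, y i - 2 * y b + 1) := by
    have h5 : ∑ i, p1 x g i = ∑ i, y i - y b := by
      have : ∀ i, p1 x g i = y i - (if i = b then y b else 0) := by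
        intro i
        rw [hp1]
        by_cases hi : InU Z i
        · by_cases hib : i = b
          · subst hib; simp
          · simp [hi, hib]
        · have hib : i ≠ b := fun h1 => hi (h1 ▸ hb)
          simp [hi, hib, hyV i hi]
      rw [Finset.sum_congr rfl fun i _ => this i, Finset.sum_sub_distrib]
      simp
    have h6 : ∑ i, p1 (-x) (-g) i = 1 - y b := by
      rw [Finset.sum_congr rfl fun i _ => hn1 i]
      rw [← Finset.sum_subset (Finset.subset_univ ({b, v} : Finset (Fin n))) (fun i _ hi => by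
        simp only [Finset.mem_insert, Finset.mem_singleton, not_or] at hi
        rw [if_neg hi.1, if_neg hi.2]), Finset.sum_pair hvb.symm]
      simp [hvb]; ring
    filter_upwards [pp_path x g, nn_path x g] with s h1 h2
    have h3 : ∀ i, |(x + s • g) i| = |x i| + s * (p1 x g i + p1 (-x) (-g) i) := by
      intro i
      rw [abs_eq, h1, h2, abs_eq x]
      simp only [Pi.add_apply, Pi.smul_apply, smul_eq_mul]
      ring
    rw [Finset.sum_congr rfl fun i _ => h3 i, Finset.sum_add_distrib, ← Finset.mul_sum,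
      Finset.sum_add_distrib, h5, h6]
    congr 2
    ring
  -- main inequality
  set c1 : ℝ → ℝ := fun s => 1 - (s / (1 - s * y b + s)) ^ e v with hc1
  set c2 : ℝ → ℝ := fun s => 2 * (1 - s * y b) / (1 - s * y b + s) with hc2
  have hden : Tendsto (fun s : ℝ => 1 - s * y b + s) (𝓝[>] 0) (𝓝 1) := by
    have : Continuous (fun s : ℝ => 1 - s * y b + s) := by fun_prop
    simpa using (this.tendsto 0).mono_left (nhdsWithin_le_nhds (s := Set.Ioi (0:ℝ)))
  have hnum : Tendsto (fun s : ℝ => 1 - s * y b) (𝓝[>] 0) (𝓝 1) := by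
    have : Continuous (fun s : ℝ => 1 - s * y b) := by fun_prop
    simpa using (this.tendsto 0).mono_left (nhdsWithin_le_nhds (s := Set.Ioi (0:ℝ)))
  have hids : Tendsto (fun s : ℝ => s) (𝓝[>] 0) (𝓝 0) :=
    tendsto_id.mono_left nhdsWithin_le_nhds
  have hc1l : Tendsto c1 (𝓝[>] 0) (𝓝 1) := by
    have h1 : Tendsto (fun s : ℝ => s / (1 - s * y b + s)) (𝓝[>] 0) (𝓝 0) := by
      have := hids.div hden one_ne_zero
      rw [zero_div] at this
      exact this
    have h2 := h1.rpow_const (p := e v) (Or.inr (h.par.pos v).le)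
    rw [Real.zero_rpow (h.par.pos v).ne'] at h2
    have := h2.const_sub 1
    simpa using this
  have hc2l : Tendsto c2 (𝓝[>] 0) (𝓝 2) := by
    have := (hnum.const_mul 2).div hden one_ne_zero
    rw [mul_one, div_one] at this
    exact this
  have hAl1 := (hPth.al_ex (q := 1/2) hn h.par.pos hE (by norm_num)).tendsto (by norm_num)
  have hAl2 := (hPth.al_ex (q := 1/2) hn al1_pos (E := 1) (fun i => by simp)
    (by norm_num)).tendsto (by norm_num)
  have hmain : ∀ᶠ s in 𝓝[>] (0:ℝ),
      l₁ * (al e (pp x + s • p1 x g) * c1 s / (al e (pp x + s • p1 x g) + s * c1 s))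
      + l₂ * (al 1 (pp x + s • p1 x g) * c2 s / (al 1 (pp x + s • p1 x g) + s * c2 s))
        ≤ ∑ i, y i - 2 * y b + 1 := by
    filter_upwards [habs, pp_path x g, nn_path x g, ev_pos, hAl1.eventually (lt_mem_nhds hA1),
      hAl2.eventually (lt_mem_nhds hA2), hden.eventually (lt_mem_nhds one_pos),
      hnum.eventually (lt_mem_nhds one_pos), hPthn.ev, hc1l.eventually (lt_mem_nhds one_pos),
      hc2l.eventually (lt_mem_nhds two_pos)] with s h1 h2 h3 h4 h5 h6 h7 h8 h9 h10 h11
    have hbj := h.bj hxZ hPg s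
    rw [hNx] at hbj
    unfold NN at hbj
    rw [h1, h2, h3] at hbj
    change _ ≤ _ - l₁ * hm (al e (pp x + s • p1 x g)) (al e (M s))
      - l₂ * hm (al 1 (pp x + s • p1 x g)) (al 1 (M s)) at hbj
    have k1 : s * c1 s ≤ al e (M s) := by
      rw [halM]
      have : 0 ≤ (1 - s * y b) * (1 - ((1 - s * y b) / (1 - s * y b + s)) ^ e b) := by
        refine mul_nonneg h8.le ?_
        rw [sub_nonneg]
        refine Real.rpow_le_one (div_nonneg h8.le h7.le) ?_ (h.par.pos b).le
        rw [div_le_one h7]; linarith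
      linarith
    have k2 : al 1 (M s) = s * c2 s := by
      rw [halM]
      simp only [Pi.one_apply, Real.rpow_one, hc2]
      field_simp
      ring
    have k3 := hm_mono (B' := s * c1 s) h5 (mul_nonneg h4.le h10.le) k1
    rw [k2] at hbj
    have k4 := mul_le_mul_of_nonneg_left k3 h.par.l1.le
    have k5 : ∀ A c : ℝ, hm A (s * c) = s * (A * c / (A + s * c)) := by
      intro A c
      unfold hm
      ring
    rw [k5] at k4
    rw [k5 (al 1 (pp x + s • p1 x g))] at hbj
    have k6 : s * (l₁ * (al e (pp x + s • p1 x g) * c1 s / (al e (pp x + s • p1 x g) + s * c1 s))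
      + l₂ * (al 1 (pp x + s • p1 x g) * c2 s / (al 1 (pp x + s • p1 x g) + s * c2 s)))
      ≤ s * (∑ i, y i - 2 * y b + 1) := by
      linarith
    exact le_of_mul_le_mul_left k6 h4
  have hlim : Tendsto (fun s : ℝ =>
      l₁ * (al e (pp x + s • p1 x g) * c1 s / (al e (pp x + s • p1 x g) + s * c1 s))
      + l₂ * (al 1 (pp x + s • p1 x g) * c2 s / (al 1 (pp x + s • p1 x g) + s * c2 s)))
      (𝓝[>] 0) (𝓝 (l₁ * (al e (pp x) * 1 / (al e (pp x) + 0 * 1))
        + l₂ * (al 1 (pp x) * 2 / (al 1 (pp x) + 0 * 2)))) := by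
    refine Tendsto.add (Tendsto.const_mul _ ?_) (Tendsto.const_mul _ ?_)
    · exact (hAl1.mul hc1l).div (hAl1.add (hids.mul hc1l)) (by simpa using hA1.ne')
    · exact (hAl2.mul hc2l).div (hAl2.add (hids.mul hc2l)) (by simpa using hA2.ne')
  have := le_of_tendsto hlim hmain
  have e1 : al 1 (pp x) * 2 / al 1 (pp x) = 2 := by field_simp
  rw [zero_mul, zero_mul, add_zero, add_zero, mul_one, div_self hA1.ne', mul_one, e1] at this
  linarith

theorem Sit.false (h : Sit e l₁ l₂ Z P) (hk : Module.finrank ℝ Z ≤ n - 1) : False := by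
  classical
  have hfull : ∀ x : Fin n → ℝ, (∀ j, ¬ InU Z j → x j = 0) → x ∈ Z := by
    intro x hx
    have hW : Wp Z P (x - P x) := by
      refine ⟨?_, fun j hj => ?_⟩
      · rw [map_sub, h.proj.2 _ (h.proj.1 _), sub_self]
      · have h2 : P x j = 0 := by
          by_contra hne
          exact hj ⟨_, h.proj.1 _, hne⟩
        rw [Pi.sub_apply, hx j hj, h2, sub_zero]
    have := h.noW hW
    have h2 : x = P x := sub_eq_zero.1 this
    rw [h2]; exact h.proj.1 _
  have hn := h.par.two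
  -- a coordinate outside `U`
  obtain ⟨v, hv⟩ : ∃ v, ¬ InU Z v := by
    by_contra hno
    push Not at hno
    have : Z = ⊤ := by
      rw [eq_top_iff]
      intro x _
      exact hfull x fun j hj => absurd (hno j) hj
    rw [this, finrank_top, Module.finrank_fin_fun] at hk
    omega
  set U : Finset (Fin n) := univ.filter fun j => InU Z j with hU
  have hcard : 3 ≤ U.card := by
    have hinj : Function.Injective ((LinearMap.funLeft ℝ ℝ (Subtype.val : U → Fin n)).comp
        Z.subtype) := by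
      rw [← LinearMap.ker_eq_bot, LinearMap.ker_eq_bot']
      intro x hx
      apply Subtype.ext
      funext j
      by_cases hj : InU Z j
      · have := congrFun hx ⟨j, by rw [hU, mem_filter]; exact ⟨mem_univ j, hj⟩⟩
        simpa [LinearMap.funLeft] using this
      · by_contra hne
        exact hj ⟨x.1, x.2, hne⟩
    have := LinearMap.finrank_le_finrank_of_injective hinj
    rw [Module.finrank_fintype_fun_eq_card, Fintype.card_coe] at this
    exact le_trans h.three this
  have hcard2 : U.card ≤ n := by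
    have := Finset.card_le_univ U
    simpa using this
  set y := P (Pi.single v 1) with hy
  have hyV : ∀ j, ¬ InU Z j → y j = 0 := by
    intro j hj
    by_contra hne
    exact hj ⟨y, h.proj.1 _, hne⟩
  have hedge : ∀ b ∈ U, l₁ + 2 * l₂ ≤ ∑ i, y i - 2 * y b + 1 := by
    intro b hb
    have hbU : InU Z b := (mem_filter.1 hb).2
    have h1 : 1 < (U.erase b).card := by
      rw [Finset.card_erase_of_mem hb]; omega
    obtain ⟨p, hp, q, hq, hpq⟩ := Finset.one_lt_card.1 h1
    rw [Finset.mem_erase] at hp hq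
    exact h.edge hfull hv hbU (mem_filter.1 hp.2).2 (mem_filter.1 hq.2).2 hp.1 hq.1 hpq
  have hsum := Finset.sum_le_sum hedge
  rw [Finset.sum_const, Finset.sum_add_distrib, Finset.sum_sub_distrib, Finset.sum_const,
    Finset.sum_const, ← Finset.mul_sum] at hsum
  have hUy : ∑ b ∈ U, y b = ∑ i, y i := by
    refine Finset.sum_subset (Finset.subset_univ _) fun i _ hi => ?_
    refine hyV i fun h1 => hi ?_
    rw [hU, mem_filter]; exact ⟨mem_univ i, h1⟩
  rw [hUy] at hsum
  simp only [nsmul_eq_mul] at hsum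
  have hty : ∑ i, y i ≤ 1 := by
    have h1 := sum_le_NN h.par y
    have h2 := h.con (Pi.single v 1)
    rw [(NN_btw h.par).single v] at h2
    linarith
  have hk3 : (3:ℝ) ≤ (U.card : ℝ) := by exact_mod_cast hcard
  have hkn : (U.card : ℝ) ≤ n := by exact_mod_cast hcard2
  have hlow := h.par.low
  have hn0 : (0:ℝ) < 2 * n + 1 := by positivity
  set k : ℝ := (U.card : ℝ) with hkd
  have h1 : k * (2 - 1 / (2 * n + 1)) ≤ k * (l₁ + 2 * l₂) :=
    mul_le_mul_of_nonneg_left hlow (by linarith)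
  have h2 : (k - 2) * ∑ i, y i ≤ (k - 2) * 1 := mul_le_mul_of_nonneg_left hty (by linarith)
  have h3 : k * (1 / (2 * n + 1)) < 1 := by
    rw [mul_one_div, div_lt_one hn0]
    have : (0:ℝ) ≤ n := Nat.cast_nonneg n
    linarith
  nlinarith

end R243KH
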