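import Pool.Agent.R243.KH.Defs

/-!
# MP_30cf1a: the function `al`, its supergradients, and the norm `NN` (R702)
-/

namespace R243KH

open Finset

variable {n : ℕ}

/-- the simplex -/
def Sx (τ : Fin n → ℝ) : Prop := (∀ i, 0 ≤ τ i) ∧ ∑ i, τ i = 1

/-- supergradient of `al` -/
noncomputable def cc (e τ : Fin n → ℝ) (i : Fin n) : ℝ :=
  1 - (1 + e i) * τ i ^ e i + ∑ j, e j * τ j ^ (1 + e j)

lemma young {a b e : ℝ} (ha : 0 ≤ a) (hb : 0 ≤ b) (he : 0 < e) :
    (1 + e) * b ^ e * a ≤ a ^ (1 + e) + e * b ^ (1 + e) := by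
  have hpq : (1 + e).HolderConjugate ((1 + e) / e) := by
    rw [Real.holderConjugate_iff]
    constructor
    · linarith
    · field_simp
  have h := Real.young_inequality_of_nonneg ha (Real.rpow_nonneg hb e) hpq
  have h2 : (b ^ e) ^ ((1 + e) / e) = b ^ (1 + e) := by
    rw [← Real.rpow_mul hb]
    congr 1
    field_simp
  rw [h2] at h
  have h1 : (0:ℝ) < 1 + e := by linarith
  have h3 : a ^ (1 + e) / (1 + e) + b ^ (1 + e) / ((1 + e) / e)
      = (a ^ (1 + e) + e * b ^ (1 + e)) / (1 + e) := by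
    field_simp
  rw [h3, le_div_iff₀ h1] at h
  linarith

lemma Sx.le_one {τ : Fin n → ℝ} (h : Sx τ) (i : Fin n) : τ i ≤ 1 := by
  rw [← h.2]
  exact Finset.single_le_sum (fun j _ => h.1 j) (Finset.mem_univ i)

lemma sum_pow_nonneg {e τ : Fin n → ℝ} (he : ∀ i, 0 < e i) (hτ : Sx τ) :
    0 ≤ ∑ j, e j * τ j ^ (1 + e j) :=
  Finset.sum_nonneg fun j _ => mul_nonneg (he j).le (Real.rpow_nonneg (hτ.1 j) _)

lemma cc_nonneg' {e τ : Fin n → ℝ} (he : ∀ i, 0 < e i) (hτ : Sx τ) (i : Fin n) :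
    ∑ j ∈ univ.erase i, e j * τ j ^ (1 + e j) ≤ cc e τ i := by
  have h1 : ∑ j, e j * τ j ^ (1 + e j) =
      ∑ j ∈ univ.erase i, e j * τ j ^ (1 + e j) + e i * τ i ^ (1 + e i) := by
    rw [Finset.sum_erase_add _ _ (Finset.mem_univ i)]
  have h2 := young (a := 1) (b := τ i) (e := e i) (by norm_num) (hτ.1 i) (he i)
  rw [Real.one_rpow] at h2
  unfold cc
  rw [h1]
  linarith

lemma cc_nonneg {e τ : Fin n → ℝ} (he : ∀ i, 0 < e i) (hτ : Sx τ) (i : Fin n) :
    0 ≤ cc e τ i :=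
  le_trans (Finset.sum_nonneg fun j _ => mul_nonneg (he j).le (Real.rpow_nonneg (hτ.1 j) _))
    (cc_nonneg' he hτ i)

lemma cc_le {e τ : Fin n → ℝ} {E : ℝ} (he : ∀ i, 0 < e i) (hE : ∀ i, e i ≤ E) (hτ : Sx τ)
    (i : Fin n) : cc e τ i ≤ 1 + E := by
  have hE0 : 0 < E := lt_of_lt_of_le (he i) (hE i)
  have h1 : ∑ j, e j * τ j ^ (1 + e j) ≤ ∑ j, E * τ j := by
    refine Finset.sum_le_sum fun j _ => ?_
    have h2 : τ j ^ (1 + e j) ≤ τ j := by
      have := Real.rpow_le_rpow_of_exponent_ge' (hτ.1 j) (hτ.le_one j) (zero_le_one)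
        (by linarith [he j] : (1:ℝ) ≤ 1 + e j)
      simpa using this
    exact mul_le_mul (hE j) h2 (Real.rpow_nonneg (hτ.1 j) _) hE0.le
  rw [← Finset.mul_sum, hτ.2, mul_one] at h1
  have h3 : 0 ≤ (1 + e i) * τ i ^ e i :=
    mul_nonneg (by linarith [he i]) (Real.rpow_nonneg (hτ.1 i) _)
  unfold cc
  linarith

lemma sum_cc {e τ v : Fin n → ℝ} :
    ∑ i, v i * cc e τ i = (∑ i, v i) * (1 + ∑ j, e j * τ j ^ (1 + e j))
      - ∑ i, (1 + e i) * τ i ^ e i * v i := by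
  unfold cc
  rw [Finset.sum_mul, ← Finset.sum_sub_distrib]
  refine Finset.sum_congr rfl fun i _ => ?_
  ring

lemma al_scale {e v : Fin n → ℝ} (he : ∀ i, 0 < e i) (hv : ∀ i, 0 ≤ v i)
    (hs : 0 < ∑ i, v i) :
    al e v = (∑ i, v i) * (1 - ∑ i, (v i / ∑ j, v j) ^ (1 + e i)) := by
  unfold al
  have h1 : ∀ i, v i = (∑ j, v j) * (v i / ∑ j, v j) := by
    intro i
    field_simp
  have h2 : ∀ i, v i * (1 - (v i / ∑ j, v j) ^ e i)
      = v i - (∑ j, v j) * (v i / ∑ j, v j) ^ (1 + e i) := by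
    intro i
    rw [Real.rpow_one_add' (div_nonneg (hv i) hs.le) (by linarith [he i])]
    have := h1 i
    calc v i * (1 - (v i / ∑ j, v j) ^ e i)
        = v i - v i * (v i / ∑ j, v j) ^ e i := by ring
      _ = v i - ((∑ j, v j) * (v i / ∑ j, v j)) * (v i / ∑ j, v j) ^ e i := by rw [← this]
      _ = _ := by ring
  rw [Finset.sum_congr rfl fun i _ => h2 i, Finset.sum_sub_distrib, ← Finset.mul_sum]
  ring

lemma eq_zero_of_sum {v : Fin n → ℝ} (hv : ∀ i, 0 ≤ v i) (hs : ¬ 0 < ∑ i, v i) (i : Fin n) :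
    v i = 0 := by
  have h0 : ∑ i, v i = 0 := le_antisymm (not_lt.1 hs) (Finset.sum_nonneg fun i _ => hv i)
  exact (Finset.sum_eq_zero_iff_of_nonneg fun i _ => hv i).1 h0 i (Finset.mem_univ i)

lemma al_of_zero {e v : Fin n → ℝ} (hv : ∀ i, v i = 0) : al e v = 0 := by
  unfold al
  exact Finset.sum_eq_zero fun i _ => by rw [hv i, zero_mul]

lemma al_le {e v τ : Fin n → ℝ} (he : ∀ i, 0 < e i) (hv : ∀ i, 0 ≤ v i) (hτ : Sx τ) :
    al e v ≤ ∑ i, v i * cc e τ i := by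
  by_cases hs : 0 < ∑ i, v i
  · rw [al_scale he hv hs, sum_cc]
    set s := ∑ i, v i with hsdef
    have h1 : ∀ i, (1 + e i) * τ i ^ e i * v i
        ≤ s * ((v i / s) ^ (1 + e i) + e i * τ i ^ (1 + e i)) := by
      intro i
      have := young (a := v i / s) (b := τ i) (div_nonneg (hv i) hs.le) (hτ.1 i) (he i)
      calc (1 + e i) * τ i ^ e i * v i = s * ((1 + e i) * τ i ^ e i * (v i / s)) := by
            field_simp
        _ ≤ _ := mul_le_mul_of_nonneg_left this hs.le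
    have h2 := Finset.sum_le_sum fun i (_ : i ∈ univ) => h1 i
    rw [← Finset.mul_sum, Finset.sum_add_distrib] at h2
    nlinarith [h2]
  · rw [al_of_zero (eq_zero_of_sum hv hs)]
    exact Finset.sum_nonneg fun i _ => mul_nonneg (hv i) (cc_nonneg he hτ i)

lemma al_eq {e v : Fin n → ℝ} (he : ∀ i, 0 < e i) (hv : ∀ i, 0 ≤ v i)
    (hs : 0 < ∑ i, v i) :
    al e v = ∑ i, v i * cc e (fun i => v i / ∑ j, v j) i := by
  rw [al_scale he hv hs, sum_cc]
  set s := ∑ i, v i with hsdef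
  have h1 : ∀ i, (1 + e i) * (v i / s) ^ e i * v i
      = s * ((v i / s) ^ (1 + e i) + e i * (v i / s) ^ (1 + e i)) := by
    intro i
    rw [Real.rpow_one_add' (div_nonneg (hv i) hs.le) (by linarith [he i])]
    field_simp
  rw [Finset.sum_congr rfl fun i _ => h1 i, ← Finset.mul_sum, Finset.sum_add_distrib]
  ring

lemma Sx_div {v : Fin n → ℝ} (hv : ∀ i, 0 ≤ v i) (hs : 0 < ∑ i, v i) :
    Sx (fun i => v i / ∑ j, v j) :=
  ⟨fun i => div_nonneg (hv i) hs.le, by rw [← Finset.sum_div, div_self hs.ne']⟩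

lemma Sx_single (i : Fin n) : Sx (fun j => if j = i then 1 else 0) := by
  refine ⟨fun j => by dsimp only; split <;> norm_num, ?_⟩
  simp

lemma al_nonneg {e v : Fin n → ℝ} (he : ∀ i, 0 < e i) (hv : ∀ i, 0 ≤ v i) : 0 ≤ al e v := by
  by_cases hs : 0 < ∑ i, v i
  · rw [al_eq he hv hs]
    exact Finset.sum_nonneg fun i _ => mul_nonneg (hv i) (cc_nonneg he (Sx_div hv hs) i)
  · rw [al_of_zero (eq_zero_of_sum hv hs)]

lemma al_le_sum {e v : Fin n → ℝ} (he : ∀ i, 0 < e i) (hv : ∀ i, 0 ≤ v i) :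
    al e v ≤ ∑ i, v i := by
  by_cases hs : 0 < ∑ i, v i
  · rw [al_scale he hv hs]
    have : 0 ≤ ∑ i, (v i / ∑ j, v j) ^ (1 + e i) :=
      Finset.sum_nonneg fun i _ => Real.rpow_nonneg (div_nonneg (hv i) hs.le) _
    nlinarith
  · rw [al_of_zero (eq_zero_of_sum hv hs)]
    exact Finset.sum_nonneg fun i _ => hv i

/-- existence of an optimal supergradient -/
lemma al_attain {e v : Fin n → ℝ} (hn : 0 < n) (he : ∀ i, 0 < e i) (hv : ∀ i, 0 ≤ v i) :
    ∃ τ, Sx τ ∧ al e v = ∑ i, v i * cc e τ i := by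
  by_cases hs : 0 < ∑ i, v i
  · exact ⟨_, Sx_div hv hs, al_eq he hv hs⟩
  · refine ⟨_, Sx_single ⟨0, hn⟩, ?_⟩
    rw [al_of_zero (eq_zero_of_sum hv hs)]
    symm
    exact Finset.sum_eq_zero fun i _ => by rw [eq_zero_of_sum hv hs i, zero_mul]

lemma al_smul {e v : Fin n → ℝ} {c : ℝ} (hc : 0 < c) : al e (c • v) = c * al e v := by
  unfold al
  rw [Finset.mul_sum]
  refine Finset.sum_congr rfl fun i _ => ?_
  have : (c • v) i / ∑ j, (c • v) j = v i / ∑ j, v j := by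
    simp only [Pi.smul_apply, smul_eq_mul, ← Finset.mul_sum]
    rw [mul_div_mul_left _ _ hc.ne']
  rw [this]
  simp only [Pi.smul_apply, smul_eq_mul]
  ring

lemma pp_nonneg (x : Fin n → ℝ) (i : Fin n) : 0 ≤ pp x i := le_max_right _ _
lemma nn_nonneg (x : Fin n → ℝ) (i : Fin n) : 0 ≤ nn x i := le_max_right _ _

lemma nn_eq_pp_neg (x : Fin n → ℝ) : nn x = pp (-x) := rfl
lemma pp_neg (x : Fin n → ℝ) : pp (-x) = nn x := rfl
lemma nn_neg (x : Fin n → ℝ) : nn (-x) = pp x := by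
  funext i; simp [nn, pp]

lemma pp_smul {c : ℝ} (hc : 0 < c) (x : Fin n → ℝ) : pp (c • x) = c • pp x := by
  funext i
  simp only [pp, Pi.smul_apply, smul_eq_mul]
  rw [mul_max_of_nonneg _ _ hc.le, mul_zero]

lemma nn_smul {c : ℝ} (hc : 0 < c) (x : Fin n → ℝ) : nn (c • x) = c • nn x := by
  rw [nn_eq_pp_neg, ← smul_neg, pp_smul hc, pp_neg]

lemma abs_eq (x : Fin n → ℝ) (i : Fin n) : |x i| = pp x i + nn x i := by
  unfold pp nn
  rcases le_total 0 (x i) with h | h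
  · rw [abs_of_nonneg h, max_eq_left h, max_eq_right (by linarith)]; ring
  · rw [abs_of_nonpos h, max_eq_right h, max_eq_left (by linarith)]; ring

lemma self_eq (x : Fin n → ℝ) (i : Fin n) : x i = pp x i - nn x i := by
  unfold pp nn
  rcases le_total 0 (x i) with h | h
  · rw [max_eq_left h, max_eq_right (by linarith)]; ring
  · rw [max_eq_right h, max_eq_left (by linarith)]; ring

lemma hm_comm (a b : ℝ) : hm a b = hm b a := by
  unfold hm; rw [mul_comm, add_comm]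

lemma hm_nonneg {a b : ℝ} (ha : 0 ≤ a) (hb : 0 ≤ b) : 0 ≤ hm a b := by
  unfold hm; positivity

lemma hm_le {a b r : ℝ} (ha : 0 ≤ a) (hb : 0 ≤ b) : hm a b ≤ r ^ 2 * a + (1 - r) ^ 2 * b := by
  unfold hm
  by_cases h : 0 < a + b
  · rw [div_le_iff₀ h]
    nlinarith [sq_nonneg (r * a - (1 - r) * b)]
  · have h0 : a + b = 0 := le_antisymm (not_lt.1 h) (by linarith)
    rw [h0, div_zero]
    positivity

lemma hm_le_left {a b : ℝ} (ha : 0 ≤ a) (hb : 0 ≤ b) : hm a b ≤ a := by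
  have := hm_le (r := 1) ha hb
  linarith

lemma hm_le_right {a b : ℝ} (ha : 0 ≤ a) (hb : 0 ≤ b) : hm a b ≤ b := by
  have := hm_le (r := 0) ha hb
  linarith

lemma hm_attain {a b : ℝ} (ha : 0 ≤ a) (hb : 0 ≤ b) :
    ∃ r, 0 ≤ r ∧ r ≤ 1 ∧ hm a b = r ^ 2 * a + (1 - r) ^ 2 * b := by
  by_cases h : 0 < a + b
  · refine ⟨b / (a + b), by positivity, ?_, ?_⟩
    · rw [div_le_one h]; linarith
    · unfold hm
      field_simp
      ring
  · have h0 : a + b = 0 := le_antisymm (not_lt.1 h) (by linarith)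
    have ha0 : a = 0 := by linarith
    have hb0 : b = 0 := by linarith
    refine ⟨0, le_rfl, zero_le_one, ?_⟩
    subst ha0 hb0
    simp [hm]

lemma hm_mul {a b c : ℝ} (hc : c ≠ 0) : hm (c * a) (c * b) = c * hm a b := by
  unfold hm
  rw [← mul_add, show c * a * (c * b) = c * (c * (a * b)) by ring,
    mul_div_mul_left _ _ hc, mul_div_assoc]

/-- the `hm al` term and its linear majorants -/
lemma hal_le {e τ σ : Fin n → ℝ} {r : ℝ} (he : ∀ i, 0 < e i) (hτ : Sx τ) (hσ : Sx σ)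
    (x : Fin n → ℝ) :
    hm (al e (pp x)) (al e (nn x)) ≤
      ∑ i, (r ^ 2 * cc e τ i * pp x i + (1 - r) ^ 2 * cc e σ i * nn x i) := by
  have h1 := hm_le (r := r) (al_nonneg he (pp_nonneg x)) (al_nonneg he (nn_nonneg x))
  have h2 := al_le he (pp_nonneg x) hτ
  have h3 := al_le he (nn_nonneg x) hσ
  have h4 : ∑ i, (r ^ 2 * cc e τ i * pp x i + (1 - r) ^ 2 * cc e σ i * nn x i)
      = r ^ 2 * (∑ i, pp x i * cc e τ i) + (1 - r) ^ 2 * ∑ i, nn x i * cc e σ i := by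
    rw [Finset.sum_add_distrib, Finset.mul_sum, Finset.mul_sum]
    congr 1
    · exact Finset.sum_congr rfl fun i _ => by ring
    · exact Finset.sum_congr rfl fun i _ => by ring
  rw [h4]
  have h5 := mul_le_mul_of_nonneg_left h2 (sq_nonneg r)
  have h6 := mul_le_mul_of_nonneg_left h3 (sq_nonneg (1 - r))
  linarith

lemma hal_attain {e : Fin n → ℝ} (hn : 0 < n) (he : ∀ i, 0 < e i) (x : Fin n → ℝ) :
    ∃ r τ σ, 0 ≤ r ∧ r ≤ 1 ∧ Sx τ ∧ Sx σ ∧ hm (al e (pp x)) (al e (nn x)) =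
      ∑ i, (r ^ 2 * cc e τ i * pp x i + (1 - r) ^ 2 * cc e σ i * nn x i) := by
  obtain ⟨r, hr0, hr1, hr⟩ := hm_attain (al_nonneg he (pp_nonneg x)) (al_nonneg he (nn_nonneg x))
  obtain ⟨τ, hτ, hτ'⟩ := al_attain hn he (pp_nonneg x)
  obtain ⟨σ, hσ, hσ'⟩ := al_attain hn he (nn_nonneg x)
  refine ⟨r, τ, σ, hr0, hr1, hτ, hσ, ?_⟩
  rw [hr, hτ', hσ', Finset.sum_add_distrib, Finset.mul_sum, Finset.mul_sum]
  congr 1
  · exact Finset.sum_congr rfl fun i _ => by ring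
  · exact Finset.sum_congr rfl fun i _ => by ring

/-- parameter assumptions -/
structure Par (e : Fin n → ℝ) (l₁ l₂ : ℝ) : Prop where
  pos : ∀ i, 0 < e i
  inj : Function.Injective e
  l1 : 0 < l₁
  l2 : 0 < l₂
  ex : ∃ E, (∀ i, e i ≤ E) ∧ E ≤ 1 / 8 ∧ l₁ * (1 + E) + 2 * l₂ ≤ 2
  sum : l₁ + l₂ ≤ 2
  two : 4 ≤ n
  low : 2 - 1 / (2 * n + 1) ≤ l₁ + 2 * l₂

lemma NN_subadd {e : Fin n → ℝ} {l₁ l₂ : ℝ} (h : Par e l₁ l₂) (x y : Fin n → ℝ) :
    NN e l₁ l₂ (x + y) ≤ NN e l₁ l₂ x + NN e l₁ l₂ y := by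
  have hn : 0 < n := by have := h.two; omega
  have h1 : ∀ i : Fin n, (0:ℝ) < (1 : Fin n → ℝ) i := fun i => by simp
  obtain ⟨r, τ, σ, hr0, hr1, hτ, hσ, hr⟩ := hal_attain hn h.pos (x + y)
  obtain ⟨r', τ', σ', hr0', hr1', hτ', hσ', hr'⟩ := hal_attain hn h1 (x + y)
  obtain ⟨E, hE, hE1, hEl⟩ := h.ex
  have hx1 := mul_le_mul_of_nonneg_left (hal_le (r := r) h.pos hτ hσ x) h.l1.le
  have hx2 := mul_le_mul_of_nonneg_left (hal_le (r := r') h1 hτ' hσ' x) h.l2.le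
  have hy1 := mul_le_mul_of_nonneg_left (hal_le (r := r) h.pos hτ hσ y) h.l1.le
  have hy2 := mul_le_mul_of_nonneg_left (hal_le (r := r') h1 hτ' hσ' y) h.l2.le
  unfold NN
  rw [hr, hr']
  refine le_trans ?_ (add_le_add (sub_le_sub (sub_le_sub le_rfl hx1) hx2)
    (sub_le_sub (sub_le_sub le_rfl hy1) hy2))
  simp only [Finset.mul_sum, ← Finset.sum_sub_distrib, ← Finset.sum_add_distrib]
  refine Finset.sum_le_sum fun i _ => ?_
  -- coefficients
  have hc1 := cc_nonneg h.pos hτ i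
  have hc2 := cc_nonneg h.pos hσ i
  have hc3 := cc_nonneg h1 hτ' i
  have hc4 := cc_nonneg h1 hσ' i
  have hd1 := cc_le h.pos hE hτ i
  have hd2 := cc_le h.pos hE hσ i
  have hd3 := cc_le h1 (fun i => le_of_eq (by simp) : ∀ i, (1 : Fin n → ℝ) i ≤ 1) hτ' i
  have hd4 := cc_le h1 (fun i => le_of_eq (by simp) : ∀ i, (1 : Fin n → ℝ) i ≤ 1) hσ' i
  set A := 1 - l₁ * (r ^ 2 * cc e τ i) - l₂ * (r' ^ 2 * cc 1 τ' i) with hA
  set B := 1 - l₁ * ((1 - r) ^ 2 * cc e σ i) - l₂ * ((1 - r') ^ 2 * cc 1 σ' i) with hB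
  have hAB : 0 ≤ A + B := by
    have e1 : r ^ 2 * cc e τ i + (1 - r) ^ 2 * cc e σ i ≤ 1 + E := by
      have : r ^ 2 + (1 - r) ^ 2 ≤ 1 := by nlinarith
      have hE0 : 0 ≤ 1 + E := le_trans hc1 hd1
      nlinarith [mul_le_mul_of_nonneg_left hd1 (sq_nonneg r),
        mul_le_mul_of_nonneg_left hd2 (sq_nonneg (1 - r)),
        mul_le_mul_of_nonneg_right this hE0]
    have e2 : r' ^ 2 * cc 1 τ' i + (1 - r') ^ 2 * cc 1 σ' i ≤ 2 := by
      have : r' ^ 2 + (1 - r') ^ 2 ≤ 1 := by nlinarith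
      nlinarith [mul_le_mul_of_nonneg_left hd3 (sq_nonneg r'),
        mul_le_mul_of_nonneg_left hd4 (sq_nonneg (1 - r'))]
    have := mul_le_mul_of_nonneg_left e1 h.l1.le
    have := mul_le_mul_of_nonneg_left e2 h.l2.le
    rw [hA, hB]
    linarith
  have key : ∀ z : Fin n → ℝ, |z i| - l₁ * (r ^ 2 * cc e τ i * pp z i + (1 - r) ^ 2 * cc e σ i * nn z i)
      - l₂ * (r' ^ 2 * cc 1 τ' i * pp z i + (1 - r') ^ 2 * cc 1 σ' i * nn z i)
      = A * z i + (A + B) * nn z i := by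
    intro z
    rw [abs_eq, self_eq z i]
    rw [hA, hB]
    ring_nf
  rw [key, key, key]
  have hnn : nn (x + y) i ≤ nn x i + nn y i := by
    unfold nn
    have := le_max_left (-x i) 0
    have := le_max_right (-x i) 0
    have := le_max_left (-y i) 0
    have := le_max_right (-y i) 0
    apply max_le
    · simp only [Pi.add_apply]; linarith
    · linarith
  have := mul_le_mul_of_nonneg_left hnn hAB
  simp only [Pi.add_apply]
  linarith

lemma al1_pos : ∀ i : Fin n, (0:ℝ) < (1 : Fin n → ℝ) i := fun i => by simp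

lemma NN_neg {e : Fin n → ℝ} {l₁ l₂ : ℝ} (x : Fin n → ℝ) : NN e l₁ l₂ (-x) = NN e l₁ l₂ x := by
  unfold NN
  rw [pp_neg, nn_neg, hm_comm (al e (nn x)), hm_comm (al 1 (nn x))]
  simp

lemma NN_smul {e : Fin n → ℝ} {l₁ l₂ : ℝ} (c : ℝ) (x : Fin n → ℝ) :
    NN e l₁ l₂ (c • x) = |c| * NN e l₁ l₂ x := by
  have key : ∀ (c : ℝ) (x : Fin n → ℝ), 0 < c → NN e l₁ l₂ (c • x) = c * NN e l₁ l₂ x := by
    intro c x hc
    unfold NN
    rw [pp_smul hc, nn_smul hc, al_smul hc, al_smul hc, al_smul hc, al_smul hc, hm_mul hc.ne',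
      hm_mul hc.ne']
    have : ∑ i, |(c • x) i| = c * ∑ i, |x i| := by
      rw [Finset.mul_sum]
      exact Finset.sum_congr rfl fun i _ => by
        simp only [Pi.smul_apply, smul_eq_mul, abs_mul, abs_of_pos hc]
    rw [this]
    ring
  rcases lt_trichotomy c 0 with hc | hc | hc
  · have h1 : c • x = -((-c) • x) := by simp
    rw [h1, NN_neg, key (-c) x (by linarith), abs_of_neg hc]
  · subst hc
    rw [zero_smul, abs_zero, zero_mul]
    unfold NN
    rw [al_of_zero (v := pp 0) (fun i => by simp [pp]),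
      al_of_zero (v := nn 0) (fun i => by simp [nn]), al_of_zero (v := pp 0) (fun i => by simp [pp]),
      al_of_zero (v := nn 0) (fun i => by simp [nn])]
    simp [hm]
  · rw [key c x hc, abs_of_pos hc]

lemma NN_le_sum {e : Fin n → ℝ} {l₁ l₂ : ℝ} (h : Par e l₁ l₂) (x : Fin n → ℝ) :
    NN e l₁ l₂ x ≤ ∑ i, |x i| := by
  unfold NN
  have h1 := mul_nonneg h.l1.le (hm_nonneg (al_nonneg h.pos (pp_nonneg x))
    (al_nonneg h.pos (nn_nonneg x)))
  have h2 := mul_nonneg h.l2.le (hm_nonneg (al_nonneg al1_pos (pp_nonneg x))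
    (al_nonneg al1_pos (nn_nonneg x)))
  linarith

lemma sum_le_NN {e : Fin n → ℝ} {l₁ l₂ : ℝ} (h : Par e l₁ l₂) (x : Fin n → ℝ) :
    ∑ i, x i ≤ NN e l₁ l₂ x := by
  unfold NN
  have h1 := mul_le_mul_of_nonneg_left (hm_le_right (al_nonneg h.pos (pp_nonneg x))
    (al_nonneg h.pos (nn_nonneg x))) h.l1.le
  have h2 := mul_le_mul_of_nonneg_left (hm_le_right (al_nonneg al1_pos (pp_nonneg x))
    (al_nonneg al1_pos (nn_nonneg x))) h.l2.le
  have h3 := mul_le_mul_of_nonneg_left (al_le_sum h.pos (nn_nonneg x)) h.l1.le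
  have h4 := mul_le_mul_of_nonneg_left (al_le_sum al1_pos (nn_nonneg x)) h.l2.le
  have h5 : ∑ i, |x i| = ∑ i, x i + 2 * ∑ i, nn x i := by
    rw [Finset.mul_sum, ← Finset.sum_add_distrib]
    refine Finset.sum_congr rfl fun i _ => ?_
    rw [abs_eq, self_eq x i]; ring
  have h6 : 0 ≤ ∑ i, nn x i := Finset.sum_nonneg fun i _ => nn_nonneg x i
  have h7 := h.sum
  nlinarith

lemma abs_sum_le_NN {e : Fin n → ℝ} {l₁ l₂ : ℝ} (h : Par e l₁ l₂) (x : Fin n → ℝ) :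
    |∑ i, x i| ≤ NN e l₁ l₂ x := by
  rw [abs_le]
  constructor
  · have := sum_le_NN h (-x)
    rw [NN_neg] at this
    simp only [Pi.neg_apply, Finset.sum_neg_distrib] at this
    linarith
  · exact sum_le_NN h x

lemma cc_single_self {e : Fin n → ℝ} (he : ∀ i, 0 < e i) (i : Fin n) :
    cc e (fun j => if j = i then 1 else 0) i = 0 := by
  unfold cc
  rw [Finset.sum_eq_single i]
  · simp
  · intro j _ hj
    simp only [if_neg hj]
    rw [Real.zero_rpow (by linarith [he j]), mul_zero]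
  · intro h; exact absurd (Finset.mem_univ i) h

lemma cc_single_ne {e : Fin n → ℝ} (he : ∀ i, 0 < e i) {i j : Fin n} (hij : j ≠ i) :
    cc e (fun j => if j = i then 1 else 0) j = 1 + e i := by
  unfold cc
  rw [Finset.sum_eq_single i]
  · simp only [if_neg hij]
    rw [Real.zero_rpow (he j).ne']
    simp
  · intro j _ hj
    simp only [if_neg hj]
    rw [Real.zero_rpow (by linarith [he j]), mul_zero]
  · intro h; exact absurd (Finset.mem_univ i) h

/-- `al e v ≤ (1+e_j) ∑_{i≠j} v_i` -/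
lemma al_le_erase {e v : Fin n → ℝ} (he : ∀ i, 0 < e i) (hv : ∀ i, 0 ≤ v i) (j : Fin n) :
    al e v ≤ (1 + e j) * ∑ i ∈ univ.erase j, v i := by
  refine le_trans (al_le he hv (Sx_single j)) (le_of_eq ?_)
  rw [← Finset.sum_erase_add _ _ (Finset.mem_univ j), cc_single_self he, mul_zero, add_zero,
    Finset.mul_sum]
  refine Finset.sum_congr rfl fun i hi => ?_
  rw [cc_single_ne he (Finset.ne_of_mem_erase hi)]
  ring

lemma two_sub_le_NN {e : Fin n → ℝ} {l₁ l₂ : ℝ} (h : Par e l₁ l₂) (x : Fin n → ℝ) (j : Fin n) :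
    2 * x j - ∑ i, x i ≤ NN e l₁ l₂ x := by
  rcases le_or_gt (x j) 0 with hx | hx
  · have := (abs_le.1 (abs_sum_le_NN h x)).1
    linarith
  · obtain ⟨E, hE, hE1, hEl⟩ := h.ex
    unfold NN
    have h1 := mul_le_mul_of_nonneg_left (hm_le_left (al_nonneg h.pos (pp_nonneg x))
      (al_nonneg h.pos (nn_nonneg x))) h.l1.le
    have h2 := mul_le_mul_of_nonneg_left (hm_le_left (al_nonneg al1_pos (pp_nonneg x))
      (al_nonneg al1_pos (nn_nonneg x))) h.l2.le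
    have h3 := mul_le_mul_of_nonneg_left (al_le_erase h.pos (pp_nonneg x) j) h.l1.le
    have h4 := mul_le_mul_of_nonneg_left (al_le_erase al1_pos (pp_nonneg x) j) h.l2.le
    have h6 : 0 ≤ ∑ i ∈ univ.erase j, pp x i := Finset.sum_nonneg fun i _ => pp_nonneg x i
    have h5 : ∑ i, |x i| = - ∑ i, x i + 2 * x j + 2 * ∑ i ∈ univ.erase j, pp x i := by
      have e1 : x j + ∑ i ∈ univ.erase j, pp x i = ∑ i, pp x i := by
        rw [← Finset.sum_erase_add _ _ (Finset.mem_univ j)]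
        have : pp x j = x j := max_eq_left hx.le
        rw [this]; ring
      have e2 : ∑ i, |x i| + ∑ i, x i = 2 * ∑ i, pp x i := by
        rw [Finset.mul_sum, ← Finset.sum_add_distrib]
        refine Finset.sum_congr rfl fun i _ => ?_
        rw [abs_eq, self_eq x i]; ring
      linarith
    have h7 : l₁ * (1 + e j) ≤ l₁ * (1 + E) := mul_le_mul_of_nonneg_left (by linarith [hE j]) h.l1.le
    have h8 := mul_le_mul_of_nonneg_right h7 h6
    simp only [Pi.one_apply] at h4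
    nlinarith

lemma abs_le_NN {e : Fin n → ℝ} {l₁ l₂ : ℝ} (h : Par e l₁ l₂) (x : Fin n → ℝ) (j : Fin n) :
    |x j| ≤ NN e l₁ l₂ x := by
  have h1 := two_sub_le_NN h x j
  have h2 := two_sub_le_NN h (-x) j
  rw [NN_neg] at h2
  simp only [Pi.neg_apply, Finset.sum_neg_distrib] at h2
  have h3 := abs_le.1 (abs_sum_le_NN h x)
  rw [abs_le]
  constructor <;> linarith [h3.1, h3.2]

lemma NN_isNorm {e : Fin n → ℝ} {l₁ l₂ : ℝ} (h : Par e l₁ l₂) : IsNorm (NN e l₁ l₂) := by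
  refine ⟨fun x hx => ?_, NN_subadd h, NN_smul⟩
  funext j
  have := abs_le_NN h x j
  rw [hx] at this
  exact abs_nonpos_iff.1 this

end R243KH
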